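import Mathlib

/-! N: Newton-Puiseux. File: Pool/Agent/H9/Zar/Puiseux.lean -/

namespace H9.Zar
open Polynomial

namespace PuiseuxAux

variable {Ω : Type*} [Field Ω]

/-- The substitution `T -> T^e` as a ring homomorphism. -/
noncomputable def ex (e : ℕ) (he : e ≠ 0) : PowerSeries Ω →+* PowerSeries Ω :=
  (PowerSeries.expand e he).toRingHom

lemma ex_apply (e : ℕ) (he : e ≠ 0) (a : PowerSeries Ω) :
    ex e he a = PowerSeries.expand e he a := rfl

lemma ex_comp (e1 e2 : ℕ) (h1 : e1 ≠ 0) (h2 : e2 ≠ 0) :
    (ex e2 h2).comp (ex (Ω := Ω) e1 h1) = ex (e2 * e1) (Nat.mul_ne_zero h2 h1) := by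
  ext1 a
  simp only [RingHom.comp_apply, ex_apply]
  rw [PowerSeries.expand_mul]

/-- `H` has a root in a ramified power series ring. -/
def P (H : Polynomial (PowerSeries Ω)) : Prop :=
  ∃ (e : ℕ) (he : e ≠ 0) (α : PowerSeries Ω), H.eval₂ (ex e he) α = 0

lemma P_of_taylor (H : Polynomial (PowerSeries Ω)) (c : PowerSeries Ω) (h : P (taylor c H)) :
    P H := by
  obtain ⟨e, he, α, h0⟩ := h
  refine ⟨e, he, α + ex e he c, ?_⟩
  rw [taylor_apply, eval₂_comp] at h0
  simpa using h0

lemma P_of_map (H : Polynomial (PowerSeries Ω)) (e1 : ℕ) (h1 : e1 ≠ 0)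
    (h : P (H.map (ex e1 h1))) : P H := by
  obtain ⟨e, he, α, h0⟩ := h
  refine ⟨e * e1, Nat.mul_ne_zero he h1, α, ?_⟩
  rw [eval₂_map, ex_comp] at h0
  exact h0

lemma P_of_scale (H : Polynomial (PowerSeries Ω)) (s : PowerSeries Ω) (h : P H) :
    P (H.scaleRoots s) := by
  obtain ⟨e, he, α, h0⟩ := h
  exact ⟨e, he, ex e he s * α, scaleRoots_eval₂_eq_zero _ h0⟩

lemma P_of_mul (f Q : Polynomial (PowerSeries Ω)) (h : P f) : P (f * Q) := by
  obtain ⟨e, he, α, h0⟩ := h
  exact ⟨e, he, α, by rw [eval₂_mul, h0, zero_mul]⟩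

/-- the second coefficient of a shift of a monic polynomial -/
lemma coeff_taylor_pred {R : Type*} [CommRing R] (H : Polynomial R) (hH : H.Monic) (m : ℕ)
    (hm : H.natDegree = m + 1) (c : R) :
    (taylor c H).coeff m = H.coeff m + (m + 1 : ℕ) * c := by
  rw [taylor_coeff]
  have h1 : (hasseDeriv m H).natDegree ≤ 1 := by
    have := natDegree_hasseDeriv_le H m
    omega
  rw [eq_X_add_C_of_natDegree_le_one h1]
  have h2 : H.coeff (1 + m) = 1 := by
    rw [add_comm, ← hm]; exact hH.coeff_natDegree
  simp only [hasseDeriv_coeff, eval_add, eval_mul, eval_C, eval_X, h2, mul_one, zero_add,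
    Nat.choose_self, Nat.cast_one, one_mul]
  rw [add_comm 1 m, Nat.choose_succ_self_right]
  ring

/-- Weierstrass preparation gives a proper factor. -/
lemma exists_factor (H : Polynomial (PowerSeries Ω)) (hH : H.Monic)
    (h0 : (H.map (PowerSeries.constantCoeff (R := Ω))).coeff 0 = 0)
    (h1 : H.map (PowerSeries.constantCoeff (R := Ω)) ≠ X ^ H.natDegree) :
    ∃ f Q : Polynomial (PowerSeries Ω), H = f * Q ∧ f.Monic ∧ f.natDegree ≠ 0 ∧
      f.natDegree < H.natDegree := by
  have : IsAdicComplete (IsLocalRing.maximalIdeal (PowerSeries Ω)) (PowerSeries Ω) := by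
    rw [PowerSeries.maximalIdeal_eq_span_X]; infer_instance
  have hg : (H : PowerSeries (PowerSeries Ω)).map (IsLocalRing.residue (PowerSeries Ω)) ≠ 0 := by
    rw [← Polynomial.polynomial_map_coe]
    intro h
    have h2 : H.map (IsLocalRing.residue (PowerSeries Ω)) = 0 := by
      exact_mod_cast h
    exact (hH.map _).ne_zero h2
  obtain ⟨f, u, hfu⟩ := PowerSeries.exists_isWeierstrassFactorization hg
  have hfm : f.Monic := hfu.isDistinguishedAt.monic
  have hdvd : f ∣ H := by
    have hI : IsLocalRing.maximalIdeal (PowerSeries Ω) ≠ ⊤ :=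
      Ideal.IsPrime.ne_top inferInstance
    have hn0 : (f.natDegree : ℕ∞) = ((f : PowerSeries (PowerSeries Ω)).map (Ideal.Quotient.mk
        (IsLocalRing.maximalIdeal (PowerSeries Ω)))).order :=
      hfu.isDistinguishedAt.coe_natDegree_eq_order_map (f : PowerSeries (PowerSeries Ω)) 1
        (by rwa [PowerSeries.constantCoeff_one, ← Ideal.ne_top_iff_one]) (by simp)
    have hn : f.natDegree = ((f : PowerSeries (PowerSeries Ω)).map (Ideal.Quotient.mk
        (IsLocalRing.maximalIdeal (PowerSeries Ω)))).order.toNat := by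
      rw [← hn0]; rfl
    have hr : (H %ₘ f).degree < (((f : PowerSeries (PowerSeries Ω)).map (Ideal.Quotient.mk
        (IsLocalRing.maximalIdeal (PowerSeries Ω)))).order.toNat : ℕ) := by
      rw [← hn, ← degree_eq_natDegree hfm.ne_zero]
      exact degree_modByMonic_lt _ hfm
    have heq : (f : PowerSeries (PowerSeries Ω)) *
        (u - ((H /ₘ f : Polynomial (PowerSeries Ω)) : PowerSeries (PowerSeries Ω))) =
        ((H %ₘ f : Polynomial (PowerSeries Ω)) : PowerSeries (PowerSeries Ω)) := by
      have h3 : ((H %ₘ f + f * (H /ₘ f) : Polynomial (PowerSeries Ω)) :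
          PowerSeries (PowerSeries Ω)) = (H : PowerSeries (PowerSeries Ω)) := by
        rw [modByMonic_add_div]
      rw [Polynomial.coe_add, Polynomial.coe_mul] at h3
      rw [mul_sub, ← hfu.eq_mul, ← h3]
      ring
    have h4 := hfu.isDistinguishedAt.isWeierstrassDivisorAt'.eq_zero_of_mul_eq hr heq
    exact (modByMonic_eq_zero_iff_dvd hfm).mp h4.2
  obtain ⟨Q, hQ⟩ := hdvd
  have hQm : Q.Monic := by
    have := hH
    rw [hQ] at this
    exact hfm.of_mul_monic_left this
  have hdeg : H.natDegree = f.natDegree + Q.natDegree := by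
    rw [hQ, hfm.natDegree_mul hQm]
  refine ⟨f, Q, hQ, hfm, ?_, ?_⟩
  · intro hf0
    have hf1 : f = 1 := hfm.natDegree_eq_zero.mp hf0
    have h5 : (H : PowerSeries (PowerSeries Ω)) = u := by
      rw [hfu.eq_mul, hf1]; simp
    have h6 : IsUnit (PowerSeries.constantCoeff (R := PowerSeries Ω)
        (H : PowerSeries (PowerSeries Ω))) := by
      rw [h5]; exact PowerSeries.isUnit_iff_constantCoeff.mp hfu.isUnit
    have h7 : PowerSeries.constantCoeff (R := PowerSeries Ω)
        (H : PowerSeries (PowerSeries Ω)) = H.coeff 0 := by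
      rw [← PowerSeries.coeff_zero_eq_constantCoeff_apply, Polynomial.coeff_coe]
    rw [h7] at h6
    have h8 := PowerSeries.isUnit_iff_constantCoeff.mp h6
    rw [coeff_map] at h0
    rw [h0] at h8
    exact not_isUnit_zero h8
  · by_contra hlt
    have hQ0 : Q.natDegree = 0 := by omega
    have hQ1 : Q = 1 := hQm.natDegree_eq_zero.mp hQ0
    apply h1
    have hHf : H = f := by rw [hQ, hQ1, mul_one]
    ext i
    rw [coeff_map, coeff_X_pow]
    split_ifs with hi
    · rw [hi, hH.coeff_natDegree, map_one]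
    · rcases lt_or_gt_of_ne hi with lt | gt
      · rw [hHf] at lt ⊢
        have := hfu.isDistinguishedAt.mem lt
        rw [PowerSeries.maximalIdeal_eq_span_X, Ideal.mem_span_singleton,
          PowerSeries.X_dvd_iff] at this
        exact this
      · rw [coeff_eq_zero_of_natDegree_lt gt, map_zero]

/-- the scaling step: the polynomial `H` is `scaleRoots H3 (T^p)` -/
lemma exists_scale (H : Polynomial (PowerSeries Ω)) (m : ℕ) (hm : H.natDegree = m) (hH : H.Monic)
    (p : ℕ) (hd : ∀ i < m, (PowerSeries.X : PowerSeries Ω) ^ (p * (m - i)) ∣ H.coeff i) :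
    ∃ H3 : Polynomial (PowerSeries Ω), H3.Monic ∧ H3.natDegree = m ∧
      H3.scaleRoots ((PowerSeries.X : PowerSeries Ω) ^ p) = H := by
  choose! b hb using hd
  have hlt : (∑ i ∈ Finset.range m, C (b i) * X ^ i : Polynomial (PowerSeries Ω)).degree <
      (m : ℕ) := by
    rw [degree_lt_iff_coeff_zero]
    intro k hk
    rw [finsetSum_coeff, Finset.sum_eq_zero]
    intro j hj
    have := Finset.mem_range.mp hj
    rw [coeff_C_mul, coeff_X_pow, if_neg (by omega), mul_zero]
  have hmon : (X ^ m + ∑ i ∈ Finset.range m, C (b i) * X ^ i :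
      Polynomial (PowerSeries Ω)).Monic := monic_X_pow_add hlt
  have hnd : (X ^ m + ∑ i ∈ Finset.range m, C (b i) * X ^ i :
      Polynomial (PowerSeries Ω)).natDegree = m := by
    apply natDegree_eq_of_degree_eq_some
    rw [degree_add_eq_left_of_degree_lt]
    · exact degree_X_pow m
    · rw [degree_X_pow]; exact hlt
  refine ⟨_, hmon, hnd, ?_⟩
  ext1 i
  rw [coeff_scaleRoots, hnd]
  simp only [coeff_add, coeff_X_pow, finsetSum_coeff, coeff_C_mul]
  rcases lt_trichotomy i m with h | h | h
  · rw [if_neg h.ne, zero_add, Finset.sum_eq_single i]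
    · rw [if_pos rfl, mul_one, hb i h, ← pow_mul, mul_comm]
    · intro j _ hj
      rw [if_neg (Ne.symm hj), mul_zero]
    · intro hi
      exact absurd (Finset.mem_range.mpr h) hi
  · rw [if_pos h, Finset.sum_eq_zero, add_zero, h, Nat.sub_self, pow_zero, mul_one, ← hm,
      hH.coeff_natDegree]
    intro j hj
    rw [if_neg, mul_zero]
    have := Finset.mem_range.mp hj
    omega
  · rw [if_neg h.ne', zero_add, Finset.sum_eq_zero, zero_mul, coeff_eq_zero_of_natDegree_lt]
    · omega
    · intro j hj
      rw [if_neg, mul_zero]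
      have := Finset.mem_range.mp hj
      omega

/-- The key step: a monic polynomial without second coefficient, not a power of `X`, some
coefficient of which after reduction is nonzero, has a proper factor after a shift. -/
lemma exists_root_of_nonzero [IsAlgClosed Ω] [CharZero Ω] (m : ℕ)
    (ih : ∀ k < m + 1, k ≠ 0 → ∀ f : Polynomial (PowerSeries Ω), f.Monic → f.natDegree = k → P f)
    (H : Polynomial (PowerSeries Ω)) (hH : H.Monic) (hm : H.natDegree = m + 1)
    (h1 : H.coeff m = 0) (i0 : ℕ) (hi0 : i0 < m + 1)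
    (h2 : PowerSeries.constantCoeff (H.coeff i0) ≠ 0) : P H := by
  have hmon : (H.map (PowerSeries.constantCoeff (R := Ω))).Monic := hH.map _
  have hnd : (H.map (PowerSeries.constantCoeff (R := Ω))).natDegree = m + 1 := by
    rw [hH.natDegree_map, hm]
  obtain ⟨ζ, hζ⟩ := IsAlgClosed.exists_root (H.map (PowerSeries.constantCoeff (R := Ω))) (by
    rw [degree_eq_natDegree hmon.ne_zero, hnd]
    exact_mod_cast Nat.succ_ne_zero m)
  apply P_of_taylor H (PowerSeries.C ζ)
  have hmap : (taylor (PowerSeries.C ζ) H).map (PowerSeries.constantCoeff (R := Ω)) =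
      taylor ζ (H.map (PowerSeries.constantCoeff (R := Ω))) := by
    rw [map_taylor, PowerSeries.constantCoeff_C]
  have hmon' : (taylor (PowerSeries.C ζ) H).Monic := by
    rw [Monic, leadingCoeff_taylor]; exact hH
  have hnd' : (taylor (PowerSeries.C ζ) H).natDegree = m + 1 := by
    rw [natDegree_taylor, hm]
  obtain ⟨f, Q, hfQ, hf, hf0, hfm⟩ := exists_factor (taylor (PowerSeries.C ζ) H) hmon' (by
    rw [hmap, taylor_coeff_zero]; exact hζ) (by
    rw [hmap, hnd']
    intro heq
    have h3 := congrArg (fun q : Polynomial Ω => q.coeff m) heq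
    beta_reduce at h3
    rw [coeff_taylor_pred _ hmon m hnd, coeff_map, h1, map_zero, zero_add, coeff_X_pow,
      if_neg (by omega)] at h3
    have h4 : ζ = 0 := by
      rcases mul_eq_zero.mp h3 with h | h
      · exact absurd h (by exact_mod_cast Nat.succ_ne_zero m)
      · exact h
    rw [h4, taylor_zero] at heq
    have h5 := congrArg (fun q : Polynomial Ω => q.coeff i0) heq
    beta_reduce at h5
    rw [coeff_map, coeff_X_pow] at h5
    rw [if_neg (by omega)] at h5
    exact h2 h5)
  rw [hnd'] at hfm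
  rw [hfQ]
  exact P_of_mul f Q (ih _ hfm hf0 f hf rfl)

/-- Every monic polynomial of positive degree has a root after ramification. -/
lemma exists_root [IsAlgClosed Ω] [CharZero Ω] (k : ℕ) : k ≠ 0 →
    ∀ H : Polynomial (PowerSeries Ω), H.Monic → H.natDegree = k → P H := by
  classical
  induction k using Nat.strong_induction_on with
  | _ k ih =>
    intro hk H hH hHk
    obtain ⟨m, rfl⟩ : ∃ m, k = m + 1 := ⟨k - 1, by omega⟩
    have hm0 : ((m + 1 : ℕ) : Ω) ≠ 0 := by exact_mod_cast Nat.succ_ne_zero m
    -- kill the second coefficient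
    apply P_of_taylor H (-(PowerSeries.C ((m + 1 : ℕ) : Ω)⁻¹ * H.coeff m))
    set H1 := taylor (-(PowerSeries.C ((m + 1 : ℕ) : Ω)⁻¹ * H.coeff m)) H with hH1
    have hmon : H1.Monic := by rw [Monic, leadingCoeff_taylor]; exact hH
    have hnd : H1.natDegree = m + 1 := by rw [natDegree_taylor, hHk]
    have h0 : H1.coeff m = 0 := by
      rw [hH1, coeff_taylor_pred H hH m hHk]
      have : ((m + 1 : ℕ) : PowerSeries Ω) = PowerSeries.C ((m + 1 : ℕ) : Ω) := by
        rw [map_natCast]
      rw [this, mul_neg, ← mul_assoc, ← map_mul, mul_inv_cancel₀ hm0, map_one, one_mul]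
      ring
    clear_value H1
    by_cases hS : ∃ i < m + 1, H1.coeff i ≠ 0
    swap
    · push Not at hS
      have hX : H1 = X ^ (m + 1) := by
        ext1 i
        rw [coeff_X_pow]
        split_ifs with hi
        · rw [hi, ← hnd, hmon.coeff_natDegree]
        · rcases lt_or_gt_of_ne hi with h | h
          · exact hS i h
          · exact coeff_eq_zero_of_natDegree_lt (by omega)
      refine ⟨1, one_ne_zero, 0, ?_⟩
      rw [hX, eval₂_X_pow, zero_pow (Nat.succ_ne_zero m)]
    · obtain ⟨i1, hi1, hi1'⟩ := hS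
      let S : Finset ℕ := (Finset.range (m + 1)).filter (fun i => H1.coeff i ≠ 0)
      have hSne : S.Nonempty := ⟨i1, by simp [S, hi1, hi1']⟩
      obtain ⟨i0, hi0, hmin⟩ := S.exists_min_image
        (fun i => ((H1.coeff i).order.toNat : ℚ) / ((m + 1 - i : ℕ) : ℚ)) hSne
      have hi0' : i0 < m + 1 ∧ H1.coeff i0 ≠ 0 := by simpa [S] using hi0
      set d := m + 1 - i0 with hd
      have hdpos : 0 < d := by omega
      set p := (H1.coeff i0).order.toNat with hp
      have hkey : ∀ i < m + 1, H1.coeff i ≠ 0 →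
          p * (m + 1 - i) ≤ d * (H1.coeff i).order.toNat := by
        intro i hi hne
        have h3 := hmin i (by simp [S, hi, hne])
        have h4 : (0 : ℚ) < ((m + 1 - i : ℕ) : ℚ) := by
          exact_mod_cast (by omega : 0 < m + 1 - i)
        have h5 : (0 : ℚ) < (d : ℚ) := by exact_mod_cast hdpos
        rw [div_le_div_iff₀ h5 h4] at h3
        have h6 : p * (m + 1 - i) ≤ (H1.coeff i).order.toNat * d := by exact_mod_cast h3
        rw [mul_comm d]; exact h6
      have hd0 : d ≠ 0 := by omega
      apply P_of_map H1 d hd0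
      have hmon2 : (H1.map (ex d hd0)).Monic := hmon.map _
      have hnd2 : (H1.map (ex d hd0)).natDegree = m + 1 := by rw [hmon.natDegree_map, hnd]
      obtain ⟨H3, hH3, hH3d, hsc⟩ := exists_scale (H1.map (ex d hd0)) (m + 1) hnd2 hmon2 p (by
        intro i hi
        rw [coeff_map, ex_apply]
        by_cases hne : H1.coeff i = 0
        · rw [hne, map_zero]; exact dvd_zero _
        · rw [PowerSeries.X_pow_dvd_iff]
          intro n hn
          rw [PowerSeries.coeff_expand]
          split_ifs with hdn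
          · obtain ⟨q, rfl⟩ := hdn
            rw [Nat.mul_div_cancel_left _ hdpos]
            apply PowerSeries.coeff_of_lt_order_toNat
            have := hkey i hi hne
            exact lt_of_mul_lt_mul_left (lt_of_lt_of_le hn this) (Nat.zero_le d)
          · rfl)
      rw [← hsc]
      apply P_of_scale
      have hc : ∀ i, H3.coeff i * ((PowerSeries.X : PowerSeries Ω) ^ p) ^ (m + 1 - i) =
          PowerSeries.expand d hd0 (H1.coeff i) := by
        intro i
        have h7 := congrArg (fun q => q.coeff i) hsc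
        simp only [coeff_scaleRoots, coeff_map, hH3d] at h7
        exact h7
      apply exists_root_of_nonzero m ih H3 hH3 hH3d _ i0 hi0'.1
      · have h8 := hc i0
        intro h9
        have h10 : (PowerSeries.expand d hd0 (H1.coeff i0)).coeff (d * p) ≠ 0 := by
          rw [PowerSeries.coeff_expand_mul]
          exact PowerSeries.coeff_order hi0'.2
        apply h10
        rw [← h8, ← pow_mul, ← hd, mul_comm p d]
        have h11 := PowerSeries.coeff_mul_X_pow (H3.coeff i0) (d * p) 0
        rw [zero_add] at h11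
        rw [h11, PowerSeries.coeff_zero_eq_constantCoeff_apply]
        exact h9
      · have h8 := hc m
        rw [h0, map_zero] at h8
        rcases mul_eq_zero.mp h8 with h | h
        · exact h
        · exact absurd h (pow_ne_zero _ (pow_ne_zero _ PowerSeries.X_ne_zero))

end PuiseuxAux

/-- Newton-Puiseux. -/
theorem newton_puiseux {Ω : Type*} [Field Ω] [IsAlgClosed Ω] [CharZero Ω]
    (H : Polynomial (PowerSeries Ω)) (hH : H.Monic) :
    ∃ (e : ℕ) (he : e ≠ 0), (H.map (PowerSeries.expand e he).toRingHom).Splits := by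
  obtain ⟨m, hm⟩ : ∃ m, H.natDegree = m := ⟨_, rfl⟩
  induction m generalizing H with
  | zero =>
    have : H = 1 := hH.natDegree_eq_zero.mp hm
    exact ⟨1, one_ne_zero, by rw [this, Polynomial.map_one]; exact Splits.one⟩
  | succ m ih =>
    obtain ⟨e, he, α, hα⟩ := PuiseuxAux.exists_root (m + 1) (Nat.succ_ne_zero m) H hH hm
    rw [← eval_map, ← IsRoot.def, ← dvd_iff_isRoot] at hα
    obtain ⟨Q, hQ⟩ := hα
    have hmon : (H.map (PuiseuxAux.ex e he)).Monic := hH.map _
    have hQm : Q.Monic := by
      rw [hQ] at hmon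
      exact (monic_X_sub_C α).of_mul_monic_left hmon
    have hQd : Q.natDegree = m := by
      have h1 : (H.map (PuiseuxAux.ex e he)).natDegree = m + 1 := by
        rw [hH.natDegree_map, hm]
      rw [hQ, (monic_X_sub_C α).natDegree_mul hQm, natDegree_X_sub_C] at h1
      omega
    obtain ⟨e', he', hs⟩ := ih Q hQm hQd
    refine ⟨e' * e, Nat.mul_ne_zero he' he, ?_⟩
    have h2 : H.map (PowerSeries.expand (e' * e) (Nat.mul_ne_zero he' he)).toRingHom =
        (H.map (PuiseuxAux.ex e he)).map (PuiseuxAux.ex e' he') := by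
      rw [Polynomial.map_map, PuiseuxAux.ex_comp]
      rfl
    rw [h2, hQ, Polynomial.map_mul, Polynomial.map_sub, map_X, map_C]
    exact (Splits.X_sub_C _).mul hs

end H9.Zar
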