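import Pool.Agent.H9.Zar.Defs

set_option linter.style.longLine false

/-! Affine hypersurfaces: germs, multiplicity loci, Zariski's strata. -/

namespace H9.Zar

open MvPolynomial

universe v

variable {k : Type v} [Field k] {r : ℕ}

/-- Taylor expansion at the point `Q`: the polynomial ring maps to the completed local ring of
affine space at `Q`. -/
noncomputable def germ (Q : Fin (r + 1) → k) :
    MvPolynomial (Fin (r + 1)) k →ₐ[k] MvPowerSeries (Fin (r + 1)) k :=
  MvPolynomial.aeval fun i => MvPowerSeries.X i + MvPowerSeries.C (Q i)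

/-- The power series `y` is the expansion at `Q` of a rational function regular at `Q`. -/
def IsRegularAt (Q : Fin (r + 1) → k) (y : MvPowerSeries (Fin (r + 1)) k) : Prop :=
  ∃ g h : MvPolynomial (Fin (r + 1)) k, eval Q h ≠ 0 ∧ germ Q h * y = germ Q g

/-- The ideal of the formal germ at `Q` of the subvariety of the ideal `p`. -/
noncomputable def germIdeal (Q : Fin (r + 1) → k) (p : Ideal (MvPolynomial (Fin (r + 1)) k)) :
    Ideal (MvPowerSeries (Fin (r + 1)) k) := p.map (germ Q)

/-- The coordinates `φ (X_j)` belong to the local ring of affine space at `Q`. -/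
def IsAlgCoord (Q : Fin (r + 1) → k) (φ : SerAut (r + 1) k) : Prop :=
  ∀ j, IsRegularAt Q (φ (MvPowerSeries.X j))

/-- Zariski's definition of equisingularity of the germ `f = 0` along the germ of the ideal `I`,
the coordinates used in the first step being restricted to those with the property `A`. -/
def EquisingWith (A : SerAut (r + 1) k → Prop) (f : MvPowerSeries (Fin (r + 1)) k)
    (I : Ideal (MvPowerSeries (Fin (r + 1)) k)) : Prop :=
  (¬ singIdeal f ≤ I.radical ∧ IsSimple f) ∨
  (singIdeal f ≤ I.radical ∧
    ∃ φ : SerAut (r + 1) k, A φ ∧ StepWith (fun K _ D J => Equising r K D J) k φ f I)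

/-- Zariski's definition: the hypersurface `V : F = 0` is equisingular at its point `Q` along the
subvariety of the ideal `p`.  The coordinates used in the first step belong to the local ring
of affine space at `Q`. -/
def EquisingAt (F : MvPolynomial (Fin (r + 1)) k) (Q : Fin (r + 1) → k)
    (p : Ideal (MvPolynomial (Fin (r + 1)) k)) : Prop :=
  EquisingWith (IsAlgCoord Q) (germ Q F) (germIdeal Q p)

theorem EquisingAt.equising {F : MvPolynomial (Fin (r + 1)) k} {Q : Fin (r + 1) → k}
    {p : Ideal (MvPolynomial (Fin (r + 1)) k)} (h : EquisingAt F Q p) :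
    Equising (r + 1) k (germ Q F) (p.map (germ Q)) := by
  rcases h with h | ⟨h, φ, -, h2⟩
  · exact Or.inl h
  · exact Or.inr ⟨h, φ, h2⟩

/-- The ideal generated by `F` and its partial derivatives of order `< m`; for `m = 1` it defines
the hypersurface `V : F = 0`, for `m = 2` its singular locus, in general the locus of the points
of multiplicity at least `m`. -/
noncomputable def multIdeal (F : MvPolynomial (Fin (r + 1)) k) (m : ℕ) :
    Ideal (MvPolynomial (Fin (r + 1)) k) :=
  Ideal.span {G | ∃ w : List (Fin (r + 1)), w.length < m ∧ G = w.foldr (fun i H => pderiv i H) F}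

/-- The subvariety of the ideal `p` is contained in every irreducible component through `Q` of the
algebraic set of the ideal `J`. -/
def ContainedInComps (Q : Fin (r + 1) → k) (p J : Ideal (MvPolynomial (Fin (r + 1)) k)) : Prop :=
  ∀ q ∈ J.minimalPrimes, Q ∈ zeroLocus k q → q ≤ p

/-- The simple points of `F = 0`. -/
def simplePts (F : MvPolynomial (Fin (r + 1)) k) : Set (Fin (r + 1) → k) :=
  {Q | eval Q F = 0 ∧ ∃ i, eval Q (pderiv i F) ≠ 0}

/-- The singular locus of `F = 0`. -/
def singPts (F : MvPolynomial (Fin (r + 1)) k) : Set (Fin (r + 1) → k) :=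
  {Q | eval Q F = 0 ∧ ∀ i, eval Q (pderiv i F) = 0}

/-- Zariski closure in affine space. -/
def zcl (A : Set (Fin (r + 1) → k)) : Set (Fin (r + 1) → k) := zeroLocus k (vanishingIdeal k A)

/-- `Z` is a closed irreducible set. -/
def IrrClosed (Z : Set (Fin (r + 1) → k)) : Prop := zcl Z = Z ∧ (vanishingIdeal k Z).IsPrime

/-- `Z` is an irreducible component of `B`. -/
def IsComp (B Z : Set (Fin (r + 1) → k)) : Prop :=
  IrrClosed Z ∧ Z ⊆ B ∧ ∀ Z', IrrClosed Z' → Z' ⊆ B → Z ⊆ Z' → Z' = Z

/-- The properties of Zariski's stratification `E_0, ..., E_N` of the hypersurface `F = 0`. -/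
structure IsStrat (F : MvPolynomial (Fin (r + 1)) k) (N : ℕ)
    (E : Fin (N + 1) → Set (Fin (r + 1) → k)) : Prop where
  /-- `E_0` is the set of simple points -/
  zero : E 0 = simplePts F
  /-- the strata are distinct -/
  inj : Function.Injective E
  /-- for `i ≥ 1` the closure of `E_i` is irreducible -/
  irr : ∀ i, i ≠ 0 → IrrClosed (zcl (E i))
  /-- for `i ≥ 1`, `E_i` is the set of the points of its closure at which `V` is equisingular
  along it -/
  char : ∀ i, i ≠ 0 → E i = {Q ∈ zcl (E i) | EquisingAt F Q (vanishingIdeal k (E i))}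
  /-- for `a ≥ 1` the closure of `E_a` is an irreducible component of the singular locus
  `closure (E_0) \ E_0`, or of `closure (E_i) \ E_i` for some `i ≥ 1` -/
  comp : ∀ a, a ≠ 0 → IsComp (singPts F) (zcl (E a)) ∨
    ∃ i, i ≠ 0 ∧ IsComp (zcl (E i) \ E i) (zcl (E a))

end H9.Zar
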