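import Pool.Agent.H9.Zar.Alg

set_option linter.style.longLine false

/-! Transfer between polynomials, power series over a field and over an extension field. -/

namespace H9.Zar

section retraction

variable {n : ℕ} {k K : Type*} [Field k] [Field K]

/-- There is an additive retraction of a field extension which is linear over the small field. -/
theorem exists_retraction (i : k →+* K) :
    ∃ ρ : K →+ k, ∀ (a : k) (b : K), ρ (i a * b) = a * ρ b ∧ ρ (i a) = a := by
  let _ : Algebra k K := i.toAlgebra
  obtain ⟨ρ, hρ⟩ := (Algebra.linearMap k K).exists_leftInverse_of_injective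
    (by
      rw [LinearMap.ker_eq_bot]
      exact (algebraMap k K).injective)
  refine ⟨ρ.toAddMonoidHom, fun a b => ⟨?_, ?_⟩⟩
  · have h : i a * b = a • b := (Algebra.smul_def a b).symm
    rw [h]
    change ρ (a • b) = a * ρ b
    rw [map_smul, smul_eq_mul]
  · exact LinearMap.congr_fun hρ a

/-- The retraction applied to the coefficients. -/
noncomputable def retr (ρ : K →+ k) (f : MvPowerSeries (Fin n) K) : MvPowerSeries (Fin n) k :=
  fun d => ρ (MvPowerSeries.coeff d f)

theorem coeff_retr (ρ : K →+ k) (f : MvPowerSeries (Fin n) K) (d : Fin n →₀ ℕ) :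
    MvPowerSeries.coeff d (retr ρ f) = ρ (MvPowerSeries.coeff d f) := rfl

theorem retr_add (ρ : K →+ k) (f g : MvPowerSeries (Fin n) K) :
    retr ρ (f + g) = retr ρ f + retr ρ g := by
  ext d
  simp [coeff_retr]

theorem retr_zero (ρ : K →+ k) : retr ρ (0 : MvPowerSeries (Fin n) K) = 0 := by
  ext d
  simp [coeff_retr]

theorem retr_map_mul (i : k →+* K) (ρ : K →+ k)
    (hρ : ∀ (a : k) (b : K), ρ (i a * b) = a * ρ b ∧ ρ (i a) = a)
    (f : MvPowerSeries (Fin n) k) (g : MvPowerSeries (Fin n) K) :
    retr ρ (MvPowerSeries.map (σ := Fin n) i f * g) = f * retr ρ g := by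
  classical
  ext d
  rw [coeff_retr, MvPowerSeries.coeff_mul, MvPowerSeries.coeff_mul, map_sum]
  refine Finset.sum_congr rfl fun x _ => ?_
  rw [MvPowerSeries.coeff_map, (hρ _ _).1, coeff_retr]

theorem retr_map (i : k →+* K) (ρ : K →+ k)
    (hρ : ∀ (a : k) (b : K), ρ (i a * b) = a * ρ b ∧ ρ (i a) = a)
    (f : MvPowerSeries (Fin n) k) :
    retr ρ (MvPowerSeries.map (σ := Fin n) i f) = f := by
  ext d
  rw [coeff_retr, MvPowerSeries.coeff_map, (hρ _ 0).2]

end retraction

/-- coefficientwise k-linear retraction K -> k -/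
theorem comap_map_map {n : ℕ} {k K : Type*} [Field k] [Field K] (i : k →+* K)
    (P : Ideal (MvPowerSeries (Fin n) k)) :
    (P.map (MvPowerSeries.map (σ := Fin n) i)).comap (MvPowerSeries.map (σ := Fin n) i) = P := by
  obtain ⟨ρ, hρ⟩ := exists_retraction i
  refine le_antisymm ?_ Ideal.le_comap_map
  intro f hf
  rw [Ideal.mem_comap] at hf
  have key : ∀ x ∈ P.map (MvPowerSeries.map (σ := Fin n) i), ∀ b, retr ρ (b * x) ∈ P := by
    intro x hx
    refine Submodule.span_induction ?_ ?_ ?_ ?_ hx
    · rintro _ ⟨p, hp, rfl⟩ b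
      rw [mul_comm, retr_map_mul i ρ hρ]
      exact P.mul_mem_right _ hp
    · intro b
      rw [mul_zero, retr_zero]
      exact P.zero_mem
    · intro x y _ _ hx hy b
      rw [mul_add, retr_add]
      exact P.add_mem (hx b) (hy b)
    · intro a x _ hx b
      rw [smul_eq_mul, ← mul_assoc]
      exact hx _
  have := key _ hf 1
  rwa [one_mul, retr_map i ρ hρ] at this

universe v
variable {k : Type v} [Field k] {r : ℕ}

open MvPolynomial in
/-- The translation. -/
noncomputable def trans (Q : Fin (r + 1) → k) :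
    MvPolynomial (Fin (r + 1)) k →ₐ[k] MvPolynomial (Fin (r + 1)) k :=
  aeval fun i => X i + C (Q i)

theorem trans_trans (Q : Fin (r + 1) → k) (F : MvPolynomial (Fin (r + 1)) k) :
    trans Q (trans (-Q) F) = F := by
  have h : (trans Q).comp (trans (-Q)) = AlgHom.id k _ := by
    apply MvPolynomial.algHom_ext
    intro i
    simp [trans, MvPolynomial.algebraMap_eq]
  exact DFunLike.congr_fun h F

theorem trans_bijective (Q : Fin (r + 1) → k) : Function.Bijective (trans Q) := by
  constructor
  · intro F G h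
    have := congrArg (trans (- Q)) h
    have h2 : ∀ F, trans (-Q) (trans Q F) = F := fun F => by
      have := trans_trans (-Q) F
      rwa [neg_neg] at this
    rwa [h2, h2] at this
  · intro F
    exact ⟨_, trans_trans Q F⟩

theorem germ_eq (Q : Fin (r + 1) → k) (F : MvPolynomial (Fin (r + 1)) k) :
    germ Q F = ((trans Q F : MvPolynomial (Fin (r + 1)) k) : MvPowerSeries (Fin (r + 1)) k) := by
  have h : germ Q = (MvPolynomial.coeToMvPowerSeries.algHom (R := k) k).comp (trans Q) := by
    apply MvPolynomial.algHom_ext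
    intro i
    simp [germ, trans]
  rw [h]
  simp

theorem constCoeff_trans (Q : Fin (r + 1) → k) (F : MvPolynomial (Fin (r + 1)) k) :
    MvPolynomial.constantCoeff (trans Q F) = MvPolynomial.eval Q F := by
  have h : (MvPolynomial.constantCoeff (R := k) (σ := Fin (r + 1))).comp (trans Q).toRingHom
      = MvPolynomial.eval Q := by
    apply MvPolynomial.ringHom_ext
    · intro a
      simp [trans]
    · intro i
      simp [trans]
  exact DFunLike.congr_fun h F

/-- Krull intersection in k[X]/p -/
theorem comap_map_germ (Q : Fin (r + 1) → k) (p : Ideal (MvPolynomial (Fin (r + 1)) k)) [p.IsPrime]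
    (hQ : Q ∈ MvPolynomial.zeroLocus k p) : (p.map (germ Q)).comap (germ Q) = p := by
  refine le_antisymm ?_ Ideal.le_comap_map
  intro f hf
  rw [Ideal.mem_comap] at hf
  set I := MvPolynomial.idealOfVars (Fin (r + 1)) k with hI
  set p' := p.map (trans Q).toRingHom with hp'
  have hcm : p'.comap (trans Q).toRingHom = p :=
    Ideal.comap_map_of_bijective (trans Q).toRingHom (trans_bijective Q)
  have hp'prime : p'.IsPrime := by
    rw [hp']
    apply Ideal.map_isPrime_of_surjective (trans_bijective Q).2
    intro x hx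
    have : trans Q x = 0 := hx
    have : x = 0 := (trans_bijective Q).1 (by rw [this, map_zero])
    rw [this]
    exact p.zero_mem
  have step : ∀ N : ℕ, trans Q f ∈ p' ⊔ I ^ N := by
    intro N
    have key : ∀ x ∈ p.map (germ Q), MvPowerSeries.truncTotalAlgHom (Fin (r + 1)) k N x ∈
        p'.map (Ideal.Quotient.mk (I ^ N)) := by
      intro x hx
      refine Submodule.span_induction ?_ ?_ ?_ ?_ hx
      · rintro _ ⟨g, hg, rfl⟩
        have h1 : MvPowerSeries.truncTotalAlgHom (Fin (r + 1)) k N (germ Q g) =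
            Ideal.Quotient.mk (I ^ N) (trans Q g) := by
          rw [germ_eq]
          exact (MvPowerSeries.truncTotalAlgHom (Fin (r + 1)) k N).commutes (trans Q g)
        change MvPowerSeries.truncTotalAlgHom (Fin (r + 1)) k N (germ Q g) ∈ _
        rw [h1]
        exact Ideal.mem_map_of_mem _ (Ideal.mem_map_of_mem (trans Q).toRingHom hg)
      · rw [map_zero]
        exact Ideal.zero_mem _
      · intro x y _ _ hx hy
        rw [map_add]
        exact Ideal.add_mem _ hx hy
      · intro a x _ hx
        rw [smul_eq_mul, map_mul]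
        exact Ideal.mul_mem_left _ _ hx
    have h2 := key _ hf
    have h1 : MvPowerSeries.truncTotalAlgHom (Fin (r + 1)) k N (germ Q f) =
        Ideal.Quotient.mk (I ^ N) (trans Q f) := by
      rw [germ_eq]
      exact (MvPowerSeries.truncTotalAlgHom (Fin (r + 1)) k N).commutes (trans Q f)
    have h3 : Ideal.Quotient.mk (I ^ N) (trans Q f) ∈ p'.map (Ideal.Quotient.mk (I ^ N)) := by
      rw [← h1]; exact h2
    have h4 := (Ideal.mem_map_iff_of_surjective _ Ideal.Quotient.mk_surjective).1 h3
    obtain ⟨g, hg, hgf⟩ := h4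
    have h5 : g - trans Q f ∈ I ^ N := by
      rwa [← Ideal.Quotient.eq]
    have h6 : trans Q f = g - (g - trans Q f) := by ring
    rw [h6]
    exact Ideal.sub_mem _ (Ideal.mem_sup_left hg) (Ideal.mem_sup_right h5)
  -- Krull
  have hkr := Ideal.iInf_pow_eq_bot_of_isDomain (R := MvPolynomial (Fin (r + 1)) k ⧸ p')
    (I := I.map (Ideal.Quotient.mk p')) (by
      intro htop
      have h1 : (1 : MvPolynomial (Fin (r + 1)) k ⧸ p') ∈ I.map (Ideal.Quotient.mk p') := by
        rw [htop]; trivial
      have h2 := (Ideal.mem_map_iff_of_surjective _ Ideal.Quotient.mk_surjective).1 h1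
      obtain ⟨g, hg, hg1⟩ := h2
      have h3 : g - 1 ∈ p' := by
        rw [← Ideal.Quotient.eq, hg1, map_one]
      have h4 : MvPolynomial.constantCoeff g = 0 := by
        have : I ≤ RingHom.ker (MvPolynomial.constantCoeff (R := k) (σ := Fin (r + 1))) := by
          rw [hI, MvPolynomial.idealOfVars, Ideal.span_le]
          rintro _ ⟨i, rfl⟩
          simp
        exact this hg
      have h5 : MvPolynomial.constantCoeff (g - 1) = 0 := by
        have : p' ≤ RingHom.ker (MvPolynomial.constantCoeff (R := k) (σ := Fin (r + 1))) := by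
          rw [hp', Ideal.map_le_iff_le_comap]
          intro x hx
          change MvPolynomial.constantCoeff (trans Q x) = 0
          rw [constCoeff_trans]
          have := hQ x hx
          simpa using this
        exact this h3
      rw [map_sub, h4, map_one, zero_sub, neg_eq_zero] at h5
      exact one_ne_zero h5)
  have h7 : Ideal.Quotient.mk p' (trans Q f) ∈
      ⨅ i : ℕ, (I.map (Ideal.Quotient.mk p')) ^ i := by
    rw [Submodule.mem_iInf]
    intro N
    rw [← Ideal.map_pow]
    obtain ⟨a, ha, b, hb, hab⟩ := Submodule.mem_sup.1 (step N)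
    rw [← hab, map_add, Ideal.Quotient.eq_zero_iff_mem.2 ha, zero_add]
    exact Ideal.mem_map_of_mem _ hb
  rw [hkr, Submodule.mem_bot, Ideal.Quotient.eq_zero_iff_mem] at h7
  rw [← hcm]
  exact h7

theorem pderiv_trans (Q : Fin (r + 1) → k) (i : Fin (r + 1)) (F : MvPolynomial (Fin (r + 1)) k) :
    MvPolynomial.pderiv i (trans Q F) = trans Q (MvPolynomial.pderiv i F) := by
  classical
  induction F using MvPolynomial.induction_on with
  | C a => simp [trans]
  | add p q hp hq => simp only [map_add, hp, hq]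
  | mul_X p j hp =>
    rw [map_mul, Derivation.leibniz, hp, Derivation.leibniz]
    simp only [trans, MvPolynomial.aeval_X, map_add, MvPolynomial.pderiv_X, MvPolynomial.pderiv_C,
      add_zero, smul_eq_mul, map_mul]
    by_cases h : i = j
    · subst h
      simp
    · simp [Ne.symm h]

theorem pderiv_germ (Q : Fin (r + 1) → k) (i : Fin (r + 1)) (F : MvPolynomial (Fin (r + 1)) k) :
    MvPowerSeries.pderiv k i (germ Q F) = germ Q (MvPolynomial.pderiv i F) := by
  rw [germ_eq, germ_eq, MvPowerSeries.pderiv_coe, pderiv_trans]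

theorem foldr_germ (Q : Fin (r + 1) → k) (w : List (Fin (r + 1)))
    (F : MvPolynomial (Fin (r + 1)) k) :
    w.foldr (fun i g => MvPowerSeries.pderiv k i g) (germ Q F) =
      germ Q (w.foldr (fun i H => MvPolynomial.pderiv i H) F) := by
  induction w with
  | nil => rfl
  | cons a w ih => simp only [List.foldr_cons, ih, pderiv_germ]

/-- With the two contractions above; `hw` is proved in another file. -/
theorem transfer (F : MvPolynomial (Fin (r + 1)) k) (Q : Fin (r + 1) → k)
    (hw : ∀ (m : ℕ) (f : MvPowerSeries (Fin (r + 1)) k) (q : Ideal (MvPowerSeries (Fin (r + 1)) k)),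
      HM k m f q ↔ ∀ w : List (Fin (r + 1)), w.length < m →
        w.foldr (fun i g => MvPowerSeries.pderiv k i g) f ∈ q)
    (p : Ideal (MvPolynomial (Fin (r + 1)) k)) [p.IsPrime] (hF : F ∈ p)
    (hQ : Q ∈ MvPolynomial.zeroLocus k p)
    (hstar : ∀ a : Ideal (MvPowerSeries (Fin (r + 1)) k), a.IsPrime → p.map (germ Q) ≤ a →
      germ Q F ∈ a → ∀ q : Ideal (MvPowerSeries (Fin (r + 1)) k), q.IsPrime → ∀ m : ℕ,
      HM k m (germ Q F) q → ∃ c : Ideal (MvPowerSeries (Fin (r + 1)) k), c.IsPrime ∧ c ≤ a ∧ c ≤ q ∧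
        HM k m (germ Q F) c)
    (m : ℕ) (q : Ideal (MvPolynomial (Fin (r + 1)) k)) (hq : q ∈ (multIdeal F m).minimalPrimes)
    (hQq : Q ∈ MvPolynomial.zeroLocus k q) : q ≤ p := by
  have hqp : q.IsPrime := hq.1.1
  have hmq : multIdeal F m ≤ q := hq.1.2
  obtain ⟨ph, hph, hphc⟩ := (Ideal.comap_map_eq_self_iff_of_isPrime (f := (germ Q).toRingHom) p).1
    (comap_map_germ Q p hQ)
  obtain ⟨qh, hqh, hqhc⟩ := (Ideal.comap_map_eq_self_iff_of_isPrime (f := (germ Q).toRingHom) q).1
    (comap_map_germ Q q hQq)
  have hle : p.map (germ Q) ≤ ph := by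
    change p.map (germ Q).toRingHom ≤ ph
    rw [Ideal.map_le_iff_le_comap, hphc]
  have hFa : germ Q F ∈ ph := hle (Ideal.mem_map_of_mem _ hF)
  obtain ⟨c, hc, hca, hcq, hHM⟩ := hstar ph hph hle hFa qh hqh m (by
    rw [hw]
    intro w hwl
    rw [foldr_germ]
    have h1 : w.foldr (fun i H => MvPolynomial.pderiv i H) F ∈ q :=
      hmq (Ideal.subset_span ⟨w, hwl, rfl⟩)
    rw [← hqhc] at h1
    exact h1)
  rw [hw] at hHM
  have h2 : multIdeal F m ≤ c.comap (germ Q).toRingHom := by
    rw [multIdeal, Ideal.span_le]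
    rintro _ ⟨w, hwl, rfl⟩
    have := hHM w hwl
    rw [foldr_germ] at this
    exact this
  have h3 : c.comap (germ Q).toRingHom ≤ q := by
    rw [← hqhc]
    exact Ideal.comap_mono hcq
  have h4 : q ≤ c.comap (germ Q).toRingHom :=
    hq.2 ⟨Ideal.comap_isPrime _ _, h2⟩ h3
  refine h4.trans ?_
  rw [← hphc]
  exact Ideal.comap_mono hca

end H9.Zar
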