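import Pool.Agent.H9.Zar.Defs

set_option linter.style.longLine false

/-! B: base case. -/

namespace H9.Zar

open MvPowerSeries

namespace BaseCase

/-- The maximal ideal of the ring of power series in finitely many variables. -/
private theorem span_X_eq (n : ℕ) (k : Type*) [Field k] :
    IsLocalRing.maximalIdeal (MvPowerSeries (Fin n) k) =
      Ideal.span (Set.range (X : Fin n → MvPowerSeries (Fin n) k)) := by
  apply le_antisymm
  · intro f hf
    have h0 : constantCoeff f = 0 := by
      rw [IsLocalRing.mem_maximalIdeal, mem_nonunits_iff, MvPowerSeries.isUnit_iff_constantCoeff] at hf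
      by_contra h
      exact hf (isUnit_iff_ne_zero.mpr h)
    let g : Fin n → MvPowerSeries (Fin n) k := fun i d =>
      if ∀ j < i, d j = 0 then coeff (d + Finsupp.single i 1) f else 0
    have hg : ∀ i d, coeff d (g i) = if ∀ j < i, d j = 0 then coeff (d + Finsupp.single i 1) f else 0 :=
      fun i d => rfl
    have hfg : f = ∑ i, X i * g i := by
      ext e
      rw [map_sum]
      have hX : ∀ i, coeff e (X i * g i) = if Finsupp.single i 1 ≤ e ∧ ∀ j < i, e j = 0 then
          coeff e f else 0 := by
        intro i
        rw [X, coeff_monomial_mul, one_mul, hg]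
        by_cases h : Finsupp.single i 1 ≤ e
        · rw [if_pos h, tsub_add_cancel_of_le h]
          have h2 : (∀ j < i, (e - Finsupp.single i 1 : Fin n →₀ ℕ) j = 0) ↔ ∀ j < i, e j = 0 := by
            refine forall₂_congr fun j hj => ?_
            rw [Finsupp.tsub_apply, Finsupp.single_apply, if_neg hj.ne', tsub_zero]
          simp only [h2, h, true_and]
        · rw [if_neg h, if_neg (fun h' => h h'.1)]
      rw [Finset.sum_congr rfl fun i _ => hX i]
      by_cases he : e = 0
      · subst he
        rw [coeff_zero_eq_constantCoeff_apply, h0]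
        simp
      · have hs : e.support.Nonempty := Finsupp.support_nonempty_iff.mpr he
        rw [Finset.sum_eq_single (e.support.min' hs)]
        · rw [if_pos]
          constructor
          · rw [Finsupp.single_le_iff]
            have := Finsupp.mem_support_iff.mp (e.support.min'_mem hs)
            omega
          · intro j hj
            by_contra hne
            exact absurd (e.support.min'_le j (Finsupp.mem_support_iff.mpr hne)) (not_le.mpr hj)
        · intro i _ hi
          rw [if_neg]
          rintro ⟨h1, h2⟩
          rw [Finsupp.single_le_iff] at h1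
          have hmem : i ∈ e.support := Finsupp.mem_support_iff.mpr (by omega)
          have hle := e.support.min'_le i hmem
          rcases lt_or_eq_of_le hle with hlt | heq
          · exact Finsupp.mem_support_iff.mp (e.support.min'_mem hs) (h2 _ hlt)
          · exact hi heq.symm
        · intro h; exact absurd (Finset.mem_univ _) h
    rw [hfg]
    exact Ideal.sum_mem _ fun i _ => Ideal.mul_mem_right _ _ (Ideal.subset_span ⟨i, rfl⟩)
  · rw [Ideal.span_le]
    rintro _ ⟨i, rfl⟩
    rw [SetLike.mem_coe, IsLocalRing.mem_maximalIdeal, mem_nonunits_iff,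
      MvPowerSeries.isUnit_iff_constantCoeff, constantCoeff_X]
    exact not_isUnit_zero

private theorem isAdicComplete (n : ℕ) (k : Type*) [Field k] :
    IsAdicComplete (IsLocalRing.maximalIdeal (MvPowerSeries (Fin n) k)) (MvPowerSeries (Fin n) k) := by
  rw [span_X_eq]
  infer_instance

/-- A power series over a complete local domain with constant coefficient in the maximal ideal and
unit linear coefficient generates a prime ideal. -/
private theorem isPrime_of_coeff {A : Type*} [CommRing A] [IsDomain A] [IsLocalRing A]
    [IsAdicComplete (IsLocalRing.maximalIdeal A) A] (g : PowerSeries A)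
    (h0 : PowerSeries.coeff 0 g ∈ IsLocalRing.maximalIdeal A) (h1 : IsUnit (PowerSeries.coeff 1 g)) :
    (Ideal.span {g}).IsPrime := by
  have hc1 : PowerSeries.coeff 1 (g.map (IsLocalRing.residue A)) ≠ 0 := by
    rw [PowerSeries.coeff_map]
    exact (h1.map _).ne_zero
  have hc0 : PowerSeries.coeff 0 (g.map (IsLocalRing.residue A)) = 0 := by
    rw [PowerSeries.coeff_map, IsLocalRing.residue_eq_zero_iff]
    exact h0
  have hg : g.map (IsLocalRing.residue A) ≠ 0 := by
    intro h; rw [h] at hc1; simp at hc1
  have ho : (g.map (IsLocalRing.residue A)).order = 1 := by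
    have := (PowerSeries.order_eq_nat (φ := g.map (IsLocalRing.residue A)) (n := 1)).mpr
      ⟨hc1, fun i hi => by
        have : i = 0 := by omega
        rw [this, hc0]⟩
    exact_mod_cast this
  obtain ⟨f, h, H⟩ := PowerSeries.exists_isWeierstrassFactorization hg
  have hn : f.natDegree = 1 := by
    have := H.natDegree_eq_toNat_order_map_of_ne_top (Ideal.IsPrime.ne_top inferInstance)
    rw [this]
    have h2 : (g.map (Ideal.Quotient.mk (IsLocalRing.maximalIdeal A))).order = 1 := ho
    rw [h2]; rfl
  have hp : Prime f := H.isDistinguishedAt.monic.prime_of_degree_eq_one (by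
    rw [Polynomial.degree_eq_natDegree H.isDistinguishedAt.monic.ne_zero, hn]; rfl)
  have hI : (Ideal.span {f}).IsPrime := (Ideal.span_singleton_prime hp.ne_zero).mpr hp
  have hd : IsDomain (Polynomial A ⧸ Ideal.span {f}) := (Ideal.Quotient.isDomain_iff_prime _).mpr hI
  rw [← Ideal.Quotient.isDomain_iff_prime]
  exact H.algEquivQuotient.symm.toMulEquiv.isDomain _

private theorem isPrime_of_equiv {R S : Type*} [CommRing R] [CommRing S] (e : R ≃+* S) (f : R)
    (h : (Ideal.span {e f}).IsPrime) : (Ideal.span {f}).IsPrime := by
  have : Ideal.span {f} = (Ideal.span {e f}).comap e := by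
    ext x
    rw [Ideal.mem_span_singleton, Ideal.mem_comap, Ideal.mem_span_singleton]
    exact (map_dvd_iff e).symm
  rw [this]
  exact Ideal.comap_isPrime _ _

end BaseCase

theorem span_isPrime_of_isSimple {n : ℕ} {k : Type*} [Field k] (f : MvPowerSeries (Fin n) k)
    (hf : IsSimple f) : (Ideal.span {f}).IsPrime := by
  obtain ⟨h0, i, hi⟩ := hf
  cases n with
  | zero => exact i.elim0
  | succ n =>
    have hc : coeff (Finsupp.single i 1) f ≠ 0 := by
      intro h
      apply hi
      rw [← coeff_zero_eq_constantCoeff_apply, coeff_pderiv, zero_add, h, zero_mul]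
    let e : Fin (n + 1) ≃ Fin (n + 1) := Equiv.swap i 0
    let Φ : MvPowerSeries (Fin (n + 1)) k ≃ₐ[k] PowerSeries (MvPowerSeries (Fin n) k) :=
      (renameEquiv k e).trans (finSuccEquiv k n)
    apply BaseCase.isPrime_of_equiv Φ.toRingEquiv f
    have := BaseCase.isAdicComplete n k
    have : IsDomain (MvPowerSeries (Fin n) k) := NoZeroDivisors.to_isDomain _
    have hs : ∀ m : ℕ, (0 : Fin n →₀ ℕ).cons m = Finsupp.single 0 m := by
      intro m
      ext j
      refine Fin.cases ?_ (fun j => ?_) j
      · simp
      · simp
    have hco : ∀ m, constantCoeff (PowerSeries.coeff m (Φ f)) = coeff (Finsupp.single i m) f := by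
      intro m
      change constantCoeff (PowerSeries.coeff m (finSuccEquiv k n (rename e f))) = _
      rw [← coeff_zero_eq_constantCoeff_apply, coeff_coeff_finSuccEquiv, hs]
      have h3 : Finsupp.single 0 m = Finsupp.embDomain e.toEmbedding (Finsupp.single i m) := by
        rw [Finsupp.embDomain_single]
        simp [e]
      rw [h3]
      exact coeff_embDomain_rename e.toEmbedding f _
    apply BaseCase.isPrime_of_coeff
    · rw [IsLocalRing.mem_maximalIdeal, mem_nonunits_iff, MvPowerSeries.isUnit_iff_constantCoeff]
      change ¬ IsUnit (constantCoeff (PowerSeries.coeff 0 (Φ f)))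
      rw [hco 0, Finsupp.single_zero, coeff_zero_eq_constantCoeff_apply, h0]
      exact not_isUnit_zero
    · rw [MvPowerSeries.isUnit_iff_constantCoeff]
      change IsUnit (constantCoeff (PowerSeries.coeff 1 (Φ f)))
      rw [hco 1]
      exact isUnit_iff_ne_zero.mpr hc

end H9.Zar
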