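import Pool.Agent.H9.Zar.JLem

set_option linter.style.longLine false

/-! Cluster lemmas over a local domain `O` containing the rationals. -/

namespace H9.Zar

open Polynomial

variable {O : Type*} [CommRing O] [IsDomain O]

theorem order_unit (a : PowerSeries O) (N : ℕ) (h : a ∣ (PowerSeries.X : PowerSeries O) ^ N) :
    ∃ j, (∀ i < j, PowerSeries.coeff i a = 0) ∧ IsUnit (PowerSeries.coeff j a) := by
  obtain ⟨j, -, u, hu⟩ := (dvd_prime_pow (PowerSeries.X_prime (R := O)) N).mp h
  have h1 : a = (PowerSeries.X : PowerSeries O) ^ j * ((u⁻¹ : (PowerSeries O)ˣ) : PowerSeries O) := by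
    rw [← hu, mul_assoc, Units.mul_inv, mul_one]
  refine ⟨j, fun i hi => ?_, ?_⟩
  · rw [h1, PowerSeries.coeff_X_pow_mul', if_neg (not_le.mpr hi)]
  · rw [h1, PowerSeries.coeff_X_pow_mul', if_pos le_rfl, Nat.sub_self,
      PowerSeries.coeff_zero_eq_constantCoeff]
    exact PowerSeries.isUnit_constantCoeff _ (u⁻¹).isUnit

omit [IsDomain O] in
theorem eq_X_pow_mul_unit (a : PowerSeries O) (v : ℕ) (h0 : ∀ i < v, PowerSeries.coeff i a = 0)
    (h1 : IsUnit (PowerSeries.coeff v a)) : ∃ u : PowerSeries O, IsUnit u ∧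
      a = PowerSeries.X ^ v * u := by
  obtain ⟨u, hu⟩ := PowerSeries.X_pow_dvd_iff.mpr h0
  refine ⟨u, ?_, hu⟩
  rw [PowerSeries.isUnit_iff_constantCoeff]
  rw [hu, PowerSeries.coeff_X_pow_mul', if_pos le_rfl, Nat.sub_self,
    PowerSeries.coeff_zero_eq_constantCoeff] at h1
  exact h1

/-- Two roots with constant coefficients in the maximal ideal have the same constant
coefficient. -/
theorem constantCoeff_eq_of_roots [IsLocalRing O] (H A B : (PowerSeries O)[X]) (N : ℕ)
    (e : A * H + B * derivative H = C (PowerSeries.X ^ N))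
    (z w : PowerSeries O) (hz : H.IsRoot z) (hw : H.IsRoot w)
    (h : PowerSeries.constantCoeff z - PowerSeries.constantCoeff w ∈ IsLocalRing.maximalIdeal O) :
    PowerSeries.constantCoeff z = PowerSeries.constantCoeff w := by
  by_contra hne
  have hzw : z ≠ w := fun h => hne (by rw [h])
  obtain ⟨j, h0, hj⟩ := order_unit _ N (sub_dvd_of_bezout H A B _ z w e hz hw hzw)
  rcases Nat.eq_zero_or_pos j with rfl | hj0
  · rw [PowerSeries.coeff_zero_eq_constantCoeff, map_sub] at hj
    exact (IsLocalRing.mem_maximalIdeal _).mp h hj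
  · have := h0 0 hj0
    rw [PowerSeries.coeff_zero_eq_constantCoeff, map_sub, sub_eq_zero] at this
    exact hne this

theorem cluster_one [IsLocalRing O] (H A B : (PowerSeries O)[X]) (hH : H.Monic) (N : ℕ)
    (e : A * H + B * derivative H = C (PowerSeries.X ^ N)) (hs : H.Splits)
    (hm : ∀ z, H.IsRoot z → PowerSeries.constantCoeff z ∈ IsLocalRing.maximalIdeal O) :
    ∃ ζ : O, H.map PowerSeries.constantCoeff = (X - C ζ) ^ H.natDegree := by
  obtain ⟨ζ, hζ⟩ : ∃ ζ : O, ∀ z ∈ H.roots, PowerSeries.constantCoeff z = ζ := by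
    by_cases h0 : H.roots = 0
    · exact ⟨0, fun z hz => by rw [h0] at hz; exact absurd hz (Multiset.notMem_zero _)⟩
    · obtain ⟨w, hw⟩ := Multiset.exists_mem_of_ne_zero h0
      refine ⟨PowerSeries.constantCoeff w, fun z hz => ?_⟩
      have hz' := (mem_roots hH.ne_zero).mp hz
      have hw' := (mem_roots hH.ne_zero).mp hw
      exact constantCoeff_eq_of_roots H A B N e z w hz' hw'
        (Ideal.sub_mem _ (hm z hz') (hm w hw'))
  refine ⟨ζ, ?_⟩
  conv_lhs => rw [hs.eq_prod_roots_of_monic hH]
  rw [Polynomial.map_multiset_prod, Multiset.map_map, hs.natDegree_eq_card_roots]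
  rw [Multiset.map_congr (g := fun _ => X - C ζ) rfl]
  · rw [Multiset.map_const', Multiset.prod_replicate]
  · intro z hz
    rw [Function.comp_apply, Polynomial.map_sub, map_X, map_C, hζ z hz]

omit [IsDomain O] in
theorem rescale_expand (e : ℕ) (he : e ≠ 0) (ω : O) (hω : ω ^ e = 1) (f : PowerSeries O) :
    PowerSeries.rescale ω (PowerSeries.expand e he f) = PowerSeries.expand e he f := by
  ext n
  rw [PowerSeries.coeff_rescale, PowerSeries.coeff_expand]
  split_ifs with h
  · obtain ⟨q, rfl⟩ := h
    rw [pow_mul, hω, one_pow, one_mul]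
  · rw [mul_zero]

/-- the order of `ζ + s X ^ e - z` -/
theorem factor_unit [IsLocalRing O] (H0 A B : (PowerSeries O)[X]) (N e : ℕ) (he : e ≠ 0)
    (hb : A * H0.map (PowerSeries.expand e he).toRingHom +
      B * derivative (H0.map (PowerSeries.expand e he).toRingHom) = C (PowerSeries.X ^ N))
    (ω : O) (hω : IsPrimitiveRoot ω e) (ζ s : O) (w : PowerSeries O)
    (hw : (H0.map (PowerSeries.expand e he).toRingHom).IsRoot w)
    (hwζ : PowerSeries.constantCoeff w = ζ) (z : PowerSeries O)
    (hz : (H0.map (PowerSeries.expand e he).toRingHom).IsRoot z)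
    (hs : IsUnit (s - PowerSeries.coeff e z)) :
    ∃ (v : ℕ) (u : PowerSeries O), IsUnit u ∧
      PowerSeries.C ζ + PowerSeries.C s * PowerSeries.X ^ e - z = PowerSeries.X ^ v * u := by
  set H := H0.map (PowerSeries.expand e he).toRingHom with hH
  have hc : ∀ i, PowerSeries.coeff i
      (PowerSeries.C ζ + PowerSeries.C s * PowerSeries.X ^ e - z) =
      (if i = 0 then ζ else 0) + (if i = e then s else 0) - PowerSeries.coeff i z := by
    intro i
    rw [map_sub, map_add, PowerSeries.coeff_C, PowerSeries.coeff_C_mul, PowerSeries.coeff_X_pow]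
    split_ifs <;> simp
  by_cases h0 : PowerSeries.constantCoeff z = ζ
  · by_cases h1 : ∃ j, 0 < j ∧ j < e ∧ PowerSeries.coeff j z ≠ 0
    · classical
      obtain ⟨hj0, hje, hjz⟩ := Nat.find_spec h1
      set j := Nat.find h1 with hj
      have hlow : ∀ i, 0 < i → i < j → PowerSeries.coeff i z = 0 := by
        intro i hi0 hij
        by_contra hne
        exact Nat.find_min h1 hij ⟨hi0, hij.trans hje, hne⟩
      have hωe : ω ^ e = 1 := hω.pow_eq_one
      set w' := PowerSeries.rescale ω z with hw'
      have hmap : H.map (PowerSeries.rescale ω) = H := by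
        rw [hH, Polynomial.map_map]
        congr 1
        ext1 f
        exact rescale_expand e he ω hωe f
      have hroot : H.IsRoot w' := by
        rw [IsRoot.def, hw', ← hmap, eval_map_apply, hz.eq_zero, map_zero]
      have hωj : 1 - ω ^ j ≠ 0 := by
        intro h
        have h2 : ω ^ j = 1 := (sub_eq_zero.mp h).symm
        exact hω.pow_ne_one_of_pos_of_lt hj0.ne' hje h2
      have hcj : PowerSeries.coeff j (z - w') = (1 - ω ^ j) * PowerSeries.coeff j z := by
        rw [map_sub, hw', PowerSeries.coeff_rescale]; ring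
      have hcj0 : PowerSeries.coeff j (z - w') ≠ 0 := by
        rw [hcj]; exact mul_ne_zero hωj hjz
      have hne : z ≠ w' := by
        intro h
        apply hcj0
        rw [← h, sub_self, map_zero]
      obtain ⟨j', h2, h3⟩ := order_unit _ N (sub_dvd_of_bezout H A B _ z w' hb hz hroot hne)
      have hjj : j' = j := by
        rcases lt_trichotomy j' j with h | h | h
        · exfalso
          have : PowerSeries.coeff j' (z - w') = 0 := by
            rw [map_sub, hw', PowerSeries.coeff_rescale]
            rcases Nat.eq_zero_or_pos j' with rfl | hp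
            · simp
            · rw [hlow j' hp h]; simp
          rw [this] at h3
          exact not_isUnit_zero h3
        · exact h
        · exact absurd (h2 j h) hcj0
      rw [hjj, hcj] at h3
      obtain ⟨u, hu, hu2⟩ := eq_X_pow_mul_unit
        (PowerSeries.C ζ + PowerSeries.C s * PowerSeries.X ^ e - z) j (fun i hi => by
          rw [hc i]
          rcases Nat.eq_zero_or_pos i with rfl | hp
          · rw [if_pos rfl, if_neg he.symm, PowerSeries.coeff_zero_eq_constantCoeff, h0]; ring
          · rw [if_neg hp.ne', if_neg (hi.trans hje).ne, hlow i hp hi]; ring) (by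
          rw [hc j, if_neg hj0.ne', if_neg hje.ne]
          have := isUnit_of_mul_isUnit_right h3
          simpa using this)
      exact ⟨j, u, hu, hu2⟩
    · push Not at h1
      obtain ⟨u, hu, hu2⟩ := eq_X_pow_mul_unit
        (PowerSeries.C ζ + PowerSeries.C s * PowerSeries.X ^ e - z) e (fun i hi => by
          rw [hc i]
          rcases Nat.eq_zero_or_pos i with rfl | hp
          · rw [if_pos rfl, if_neg he.symm, PowerSeries.coeff_zero_eq_constantCoeff, h0]; ring
          · rw [if_neg hp.ne', if_neg hi.ne, h1 i hp hi]; ring) (by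
          rw [hc e, if_neg he, if_pos rfl, zero_add]
          exact hs)
      exact ⟨e, u, hu, hu2⟩
  · have hne : w ≠ z := fun h => h0 (by rw [← h]; exact hwζ)
    obtain ⟨j, h2, h3⟩ := order_unit _ N (sub_dvd_of_bezout H A B _ w z hb hw hz hne)
    have hc0 : PowerSeries.coeff 0 (w - z) = ζ - PowerSeries.constantCoeff z := by
      rw [map_sub, PowerSeries.coeff_zero_eq_constantCoeff, hwζ]
    have hj : j = 0 := by
      by_contra hj
      have := h2 0 (Nat.pos_of_ne_zero hj)
      rw [hc0, sub_eq_zero] at this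
      exact h0 this.symm
    subst hj
    rw [hc0] at h3
    obtain ⟨u, hu, hu2⟩ := eq_X_pow_mul_unit
        (PowerSeries.C ζ + PowerSeries.C s * PowerSeries.X ^ e - z) 0 (fun i hi => by omega) (by
          rw [hc 0, if_pos rfl, if_neg he.symm, PowerSeries.coeff_zero_eq_constantCoeff, add_zero]
          exact h3)
    exact ⟨0, u, hu, hu2⟩

/-- Orders along a line are the same over `O` and over the residue field. -/
theorem cluster_two [IsLocalRing O] [Algebra ℚ O] (H0 A B : (PowerSeries O)[X]) (hH0 : H0.Monic)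
    (N e : ℕ) (he : e ≠ 0)
    (hb : A * H0.map (PowerSeries.expand e he).toRingHom +
      B * derivative (H0.map (PowerSeries.expand e he).toRingHom) = C (PowerSeries.X ^ N))
    (hsp : (H0.map (PowerSeries.expand e he).toRingHom).Splits)
    (ω : O) (hω : IsPrimitiveRoot ω e) (ζ : O)
    (hζ : (H0.map PowerSeries.constantCoeff).IsRoot ζ) :
    ∃ S : Set ℚ, S.Finite ∧ ∀ s : ℚ, s ∉ S → ∀ m : ℕ,
      (∀ j < m, PowerSeries.coeff j (eval (PowerSeries.C ζ +
        PowerSeries.C (algebraMap ℚ O s) * PowerSeries.X) H0) ∈ IsLocalRing.maximalIdeal O) →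
      ∀ j < m, PowerSeries.coeff j (eval (PowerSeries.C ζ +
        PowerSeries.C (algebraMap ℚ O s) * PowerSeries.X) H0) = 0 := by
  classical
  set H := H0.map (PowerSeries.expand e he).toRingHom with hH
  have hHm : H.Monic := hH0.map _
  have hcc : H.map PowerSeries.constantCoeff = H0.map PowerSeries.constantCoeff := by
    rw [hH, Polynomial.map_map]
    congr 1
    ext1 f
    exact PowerSeries.constantCoeff_expand e he f
  -- a root with constant coefficient `ζ`
  obtain ⟨w, hw, hwζ⟩ : ∃ w, H.IsRoot w ∧ PowerSeries.constantCoeff w = ζ := by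
    rw [← hcc, IsRoot.def, hsp.eq_prod_roots_of_monic hHm, Polynomial.map_multiset_prod,
      eval_multiset_prod, Multiset.prod_eq_zero_iff, Multiset.map_map, Multiset.mem_map] at hζ
    obtain ⟨p, hp, hp0⟩ := hζ
    rw [Multiset.mem_map] at hp
    obtain ⟨w, hw, rfl⟩ := hp
    refine ⟨w, (mem_roots hHm.ne_zero).mp hw, ?_⟩
    simp only [Function.comp_apply, Polynomial.map_sub, map_X, map_C, eval_sub, eval_X,
      eval_C] at hp0
    exact (sub_eq_zero.mp hp0).symm
  -- the exceptional set
  have hunit : ∀ q : ℚ, q ≠ 0 → IsUnit (algebraMap ℚ O q) := fun q hq =>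
    (IsUnit.mk0 q hq).map (algebraMap ℚ O)
  let T : PowerSeries O → Set ℚ := fun z =>
    {s : ℚ | ¬ IsUnit (algebraMap ℚ O s - PowerSeries.coeff e z)}
  have hT : ∀ z, (T z).Finite := by
    intro z
    apply Set.Subsingleton.finite
    intro s hs s' hs'
    by_contra hne
    have h1 := (IsLocalRing.mem_maximalIdeal _).mpr hs
    have h2 := (IsLocalRing.mem_maximalIdeal _).mpr hs'
    have h3 := Ideal.sub_mem _ h1 h2
    have h4 : algebraMap ℚ O s - PowerSeries.coeff e z -
        (algebraMap ℚ O s' - PowerSeries.coeff e z) = algebraMap ℚ O (s - s') := by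
      rw [map_sub]; ring
    rw [h4] at h3
    exact (IsLocalRing.mem_maximalIdeal _).mp h3 (hunit _ (sub_ne_zero.mpr hne))
  refine ⟨⋃ z ∈ H.roots.toFinset, T z, Set.Finite.biUnion (Finset.finite_toSet _)
    (fun z _ => hT z), fun s hs m hm => ?_⟩
  have hs' : ∀ z, H.IsRoot z → IsUnit (algebraMap ℚ O s - PowerSeries.coeff e z) := by
    intro z hz
    by_contra hcon
    apply hs
    rw [Set.mem_iUnion₂]
    exact ⟨z, Multiset.mem_toFinset.mpr ((mem_roots hHm.ne_zero).mpr hz), hcon⟩
  set P0 := eval (PowerSeries.C ζ + PowerSeries.C (algebraMap ℚ O s) * PowerSeries.X) H0 with hP0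
  have hexp : PowerSeries.expand e he P0 =
      (H.roots.map fun z => PowerSeries.C ζ +
        PowerSeries.C (algebraMap ℚ O s) * PowerSeries.X ^ e - z).prod := by
    have h1 : PowerSeries.expand e he P0 = eval (PowerSeries.C ζ +
        PowerSeries.C (algebraMap ℚ O s) * PowerSeries.X ^ e) H := by
      rw [hH]
      have h2 : (PowerSeries.C ζ + PowerSeries.C (algebraMap ℚ O s) * PowerSeries.X ^ e :
          PowerSeries O) = (PowerSeries.expand e he).toRingHom (PowerSeries.C ζ +
          PowerSeries.C (algebraMap ℚ O s) * PowerSeries.X) := by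
        show _ = PowerSeries.expand e he _
        rw [map_add, map_mul, PowerSeries.expand_C, PowerSeries.expand_C, PowerSeries.expand_X]
      rw [h2, eval_map_apply]
      rfl
    rw [h1]
    conv_lhs => rw [hsp.eq_prod_roots_of_monic hHm]
    rw [eval_multiset_prod, Multiset.map_map]
    congr 1
    refine Multiset.map_congr rfl fun z _ => ?_
    simp
  obtain ⟨v, u, hu, hvu⟩ : ∃ (v : ℕ) (u : PowerSeries O), IsUnit u ∧
      PowerSeries.expand e he P0 = PowerSeries.X ^ v * u := by
    rw [hexp]
    have hgen : ∀ R : Multiset (PowerSeries O), (∀ z ∈ R, H.IsRoot z) →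
        ∃ (v : ℕ) (u : PowerSeries O), IsUnit u ∧
        (R.map fun z => PowerSeries.C ζ +
          PowerSeries.C (algebraMap ℚ O s) * PowerSeries.X ^ e - z).prod =
          PowerSeries.X ^ v * u := by
      intro R
      induction R using Multiset.induction_on with
      | empty => intro _; exact ⟨0, 1, isUnit_one, by simp⟩
      | cons z R ih =>
        intro hR
        obtain ⟨v1, u1, hu1, e1⟩ := ih fun z hz => hR z (Multiset.mem_cons_of_mem hz)
        have hz := hR z (Multiset.mem_cons_self z R)
        obtain ⟨v2, u2, hu2, e2⟩ := factor_unit H0 A B N e he hb ω hω ζ (algebraMap ℚ O s) w hw hwζ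
          z hz (hs' z hz)
        refine ⟨v2 + v1, u2 * u1, hu2.mul hu1, ?_⟩
        rw [Multiset.map_cons, Multiset.prod_cons, e1, e2]
        ring
    exact hgen _ fun z hz => (mem_roots hHm.ne_zero).mp hz
  have hv : e * m ≤ v := by
    by_contra hlt
    push Not at hlt
    have h1 : PowerSeries.coeff v (PowerSeries.expand e he P0) = PowerSeries.constantCoeff u := by
      rw [hvu, PowerSeries.coeff_X_pow_mul', if_pos le_rfl, Nat.sub_self,
        PowerSeries.coeff_zero_eq_constantCoeff]
    have h2 : IsUnit (PowerSeries.constantCoeff u) := PowerSeries.isUnit_constantCoeff _ hu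
    rw [← h1] at h2
    by_cases hd : e ∣ v
    · obtain ⟨j, rfl⟩ := hd
      rw [PowerSeries.coeff_expand_mul] at h2
      exact (IsLocalRing.mem_maximalIdeal _).mp (hm j (Nat.lt_of_mul_lt_mul_left hlt)) h2
    · rw [PowerSeries.coeff_expand_of_not_dvd e he _ hd] at h2
      exact not_isUnit_zero h2
  intro j hj
  rw [← PowerSeries.coeff_expand_mul e he P0 j, hvu, PowerSeries.coeff_X_pow_mul', if_neg]
  have : e * j < e * m := Nat.mul_lt_mul_of_pos_left hj (Nat.pos_of_ne_zero he)
  omega

end H9.Zar
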