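import Pool.Agent.H9.Zar.Defs

set_option linter.style.longLine false

/-! Basic properties of the multiplicity predicate `HM`. -/

namespace H9.Zar

section Basic

variable {k T : Type*} [CommRing k] [CommRing T] [Algebra k T]

theorem HM_zero (f : T) (q : Ideal T) : HM k 0 f q := trivial

theorem HM_succ_iff (m : ℕ) (f : T) (q : Ideal T) :
    HM k (m + 1) f q ↔ f ∈ q ∧ ∀ δ : Derivation k T T, HM k m (δ f) q := Iff.rfl

theorem HM_of_succ (m : ℕ) (f : T) (q : Ideal T) (h : HM k (m + 1) f q) : HM k m f q := by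
  induction m generalizing f with
  | zero => trivial
  | succ m ih => exact ⟨h.1, fun δ => ih _ (h.2 δ)⟩

theorem HM_of_le {m m' : ℕ} (hm : m ≤ m') (f : T) (q : Ideal T) (h : HM k m' f q) :
    HM k m f q := by
  induction m' with
  | zero => obtain rfl := Nat.le_zero.mp hm; exact h
  | succ m' ih =>
    rcases Nat.lt_or_eq_of_le hm with h1 | h1
    · exact ih (Nat.lt_succ_iff.mp h1) (HM_of_succ _ _ _ h)
    · rw [h1]; exact h

theorem HM_mono {m : ℕ} (f : T) {q q' : Ideal T} (hq : q ≤ q') (h : HM k m f q) :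
    HM k m f q' := by
  induction m generalizing f with
  | zero => trivial
  | succ m ih => exact ⟨hq h.1, fun δ => ih _ (h.2 δ)⟩

theorem HM_mem {m : ℕ} (hm : m ≠ 0) (f : T) (q : Ideal T) (h : HM k m f q) : f ∈ q := by
  obtain ⟨m, rfl⟩ := Nat.exists_eq_succ_of_ne_zero hm
  exact h.1

theorem HM_add {m : ℕ} (f g : T) (q : Ideal T) (hf : HM k m f q) (hg : HM k m g q) :
    HM k m (f + g) q := by
  induction m generalizing f g with
  | zero => trivial
  | succ m ih =>
    exact ⟨q.add_mem hf.1 hg.1, fun δ => by rw [map_add]; exact ih _ _ (hf.2 δ) (hg.2 δ)⟩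

theorem HM_zero_right (m : ℕ) (q : Ideal T) : HM k m (0 : T) q := by
  induction m with
  | zero => trivial
  | succ m ih => exact ⟨q.zero_mem, fun δ => by rw [map_zero]; exact ih⟩

theorem HM_sum {m : ℕ} {ι : Type*} (s : Finset ι) (f : ι → T) (q : Ideal T)
    (hf : ∀ i ∈ s, HM k m (f i) q) : HM k m (∑ i ∈ s, f i) q := by
  classical
  induction s using Finset.induction_on with
  | empty => rw [Finset.sum_empty]; exact HM_zero_right m q
  | insert a s ha ih =>
    rw [Finset.sum_insert ha]
    exact HM_add _ _ _ (hf a (Finset.mem_insert_self a s))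
      (ih fun i hi => hf i (Finset.mem_insert_of_mem hi))

theorem HM_mul {m : ℕ} (a f : T) (q : Ideal T) (hf : HM k m f q) : HM k m (a * f) q := by
  induction m generalizing a f with
  | zero => trivial
  | succ m ih =>
    refine ⟨q.mul_mem_left _ hf.1, fun δ => ?_⟩
    rw [Derivation.leibniz, smul_eq_mul, smul_eq_mul, mul_comm f]
    exact HM_add _ _ _ (ih _ _ (hf.2 δ)) (ih _ _ (HM_of_succ _ _ _ hf))

theorem HM_of_associated {m : ℕ} {f g : T} (h : Associated f g) (q : Ideal T)
    (hf : HM k m f q) : HM k m g q := by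
  obtain ⟨u, rfl⟩ := h
  rw [mul_comm]
  exact HM_mul _ _ _ hf

theorem HM_iterate {m : ℕ} (f : T) (q : Ideal T) (h : HM k m f q) (δ : Derivation k T T) :
    ∀ j < m, δ^[j] f ∈ q := by
  intro j hj
  induction j generalizing f m with
  | zero => exact HM_mem (by omega) _ _ h
  | succ j ih =>
    obtain ⟨m, rfl⟩ := Nat.exists_eq_succ_of_ne_zero (by omega : m ≠ 0)
    rw [Function.iterate_succ_apply]
    exact ih _ (h.2 δ) (by omega)

/-- recursive form for a family of operators -/
def HMr {ι : Type*} (D : ι → T → T) : ℕ → T → Ideal T → Prop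
  | 0, _, _ => True
  | m + 1, f, q => f ∈ q ∧ ∀ i, HMr D m (D i f) q

theorem HMr_of_HM {ι : Type*} (D : ι → Derivation k T T) {m : ℕ} (f : T) (q : Ideal T)
    (h : HM k m f q) : HMr (fun i => (D i : T → T)) m f q := by
  induction m generalizing f with
  | zero => trivial
  | succ m ih => exact ⟨h.1, fun i => ih _ (h.2 (D i))⟩

theorem HM_of_HMr {ι : Type*} [Fintype ι] (D : ι → Derivation k T T)
    (hgen : ∀ δ : Derivation k T T, ∃ a : ι → T, ∀ x, δ x = ∑ i, a i * D i x)
    {m : ℕ} (f : T) (q : Ideal T) (h : HMr (fun i => (D i : T → T)) m f q) : HM k m f q := by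
  induction m generalizing f with
  | zero => trivial
  | succ m ih =>
    refine ⟨h.1, fun δ => ?_⟩
    obtain ⟨a, ha⟩ := hgen δ
    rw [ha]
    exact HM_sum _ _ _ fun i _ => HM_mul _ _ _ (ih _ (h.2 i))

theorem HMr_iff_words {ι : Type*} (D : ι → T → T) (m : ℕ) (f : T) (q : Ideal T) :
    HMr D m f q ↔ ∀ w : List ι, w.length < m → w.foldr (fun i g => D i g) f ∈ q := by
  induction m generalizing f with
  | zero => exact ⟨fun _ w hw => absurd hw (Nat.not_lt_zero _), fun _ => trivial⟩
  | succ m ih =>
    constructor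
    · rintro ⟨h0, h1⟩ w hw
      rcases List.eq_nil_or_concat w with rfl | ⟨w', i, rfl⟩
      · exact h0
      · rw [List.concat_eq_append, List.foldr_append, List.foldr_cons, List.foldr_nil]
        exact (ih _).mp (h1 i) w' (by
          rw [List.length_concat] at hw; omega)
    · intro h
      refine ⟨h [] (Nat.succ_pos m), fun i => (ih _).mpr fun w hw => ?_⟩
      have := h (w ++ [i]) (by rw [List.length_append, List.length_singleton]; omega)
      rwa [List.foldr_append, List.foldr_cons, List.foldr_nil] at this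

/-- transport of a derivation by an isomorphism -/
def conj {T' : Type*} [CommRing T'] [Algebra k T'] (E : T ≃ₐ[k] T') (δ : Derivation k T T) :
    Derivation k T' T' where
  toLinearMap := E.toLinearMap ∘ₗ δ.toLinearMap ∘ₗ E.symm.toLinearMap
  map_one_eq_zero' := by simp
  leibniz' a b := by simp

theorem conj_apply {T' : Type*} [CommRing T'] [Algebra k T'] (E : T ≃ₐ[k] T')
    (δ : Derivation k T T) (x : T') : conj E δ x = E (δ (E.symm x)) := rfl

theorem HM_equiv {T' : Type*} [CommRing T'] [Algebra k T'] (E : T ≃ₐ[k] T') (m : ℕ) (f : T)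
    (q : Ideal T') : HM k m (E f) q ↔ HM k m f (q.comap (E : T →+* T')) := by
  induction m generalizing f with
  | zero => exact Iff.rfl
  | succ m ih =>
    constructor
    · rintro ⟨h0, h1⟩
      refine ⟨h0, fun δ => (ih _).mp ?_⟩
      have := h1 (conj E δ)
      rwa [conj_apply, AlgEquiv.symm_apply_apply] at this
    · rintro ⟨h0, h1⟩
      refine ⟨h0, fun δ => ?_⟩
      have := (ih _).mpr (h1 (conj E.symm δ))
      rwa [conj_apply, AlgEquiv.symm_symm, AlgEquiv.apply_symm_apply] at this

end Basic

end H9.Zar
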