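import Pool.Agent.H9.Zar.Exp
import Pool.Agent.H9.Zar.HM

set_option linter.style.longLine false

/-! Directions: constant-coefficient combinations of commuting derivations. -/

namespace H9.Zar

open Finset

variable {K T : Type*} [Field K] [CharZero K] [CommRing T] [Algebra K T] [Algebra ℚ T]

/-- a derivation as a rational endomorphism -/
noncomputable def endQ (δ : Derivation K T T) : Module.End ℚ T :=
  (δ.toLinearMap.toAddMonoidHom : T →+ T).toRatLinearMap

omit [CharZero K] in
theorem endQ_apply (δ : Derivation K T T) (x : T) : endQ δ x = δ x := rfl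

omit [CharZero K] in
theorem endQ_pow_apply (δ : Derivation K T T) (j : ℕ) (x : T) : (endQ δ ^ j) x = δ^[j] x := by
  induction j generalizing x with
  | zero => rfl
  | succ j ih =>
    rw [pow_succ, Module.End.mul_apply, ih, endQ_apply, Function.iterate_succ_apply]

/-- the derivation in the direction `l` -/
noncomputable def lineDer {n : ℕ} (D : Fin n → Derivation K T T) (l : Fin n → ℚ) :
    Derivation K T T := ∑ i, (l i : K) • D i

omit [CharZero K] [Algebra ℚ T] in
theorem sum_der_apply {ι : Type*} (s : Finset ι) (D : ι → Derivation K T T) (x : T) :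
    (∑ i ∈ s, D i) x = ∑ i ∈ s, D i x := by
  classical
  induction s using Finset.induction_on with
  | empty => rw [sum_empty, sum_empty]; rfl
  | insert a s ha ih => rw [sum_insert ha, sum_insert ha, Derivation.add_apply, ih]

theorem lineDer_apply {n : ℕ} (D : Fin n → Derivation K T T) (l : Fin n → ℚ) (x : T) :
    lineDer D l x = ∑ i, l i • D i x := by
  rw [lineDer, sum_der_apply]
  refine sum_congr rfl fun i _ => ?_
  rw [Derivation.smul_apply, Rat.cast_smul_eq_qsmul]

theorem endQ_lineDer {n : ℕ} (D : Fin n → Derivation K T T) (l : Fin n → ℚ) :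
    endQ (lineDer D l) = ∑ i, l i • endQ (D i) := by
  ext x
  rw [endQ_apply, lineDer_apply, LinearMap.sum_apply]
  rfl

theorem endQ_lineDer_add {n : ℕ} (D : Fin n → Derivation K T T) (l μ : Fin n → ℚ) (t : ℚ) :
    endQ (lineDer D (l + t • μ)) = endQ (lineDer D l) + t • endQ (lineDer D μ) := by
  rw [endQ_lineDer, endQ_lineDer, endQ_lineDer, smul_sum, ← sum_add_distrib]
  refine sum_congr rfl fun i _ => ?_
  rw [Pi.add_apply, Pi.smul_apply, add_smul, smul_smul, smul_eq_mul]

theorem endQ_lineDer_single {n : ℕ} (D : Fin n → Derivation K T T) (i : Fin n) :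
    endQ (lineDer D (Pi.single i 1)) = endQ (D i) := by
  rw [endQ_lineDer, sum_eq_single i]
  · rw [Pi.single_eq_same, one_smul]
  · intro j _ hj; rw [Pi.single_eq_of_ne hj, zero_smul]
  · intro h; exact absurd (mem_univ i) h

theorem commute_lineDer {n : ℕ} (D : Fin n → Derivation K T T)
    (hD : ∀ i j, Commute (endQ (D i)) (endQ (D j))) (l μ : Fin n → ℚ) :
    Commute (endQ (lineDer D l)) (endQ (lineDer D μ)) := by
  rw [endQ_lineDer, endQ_lineDer]
  refine Commute.sum_left _ _ _ fun i _ => Commute.sum_right _ _ _ fun j _ => ?_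
  exact ((hD i j).smul_left _).smul_right _

/-- **Polarization.** -/
theorem HMr_of_good {n : ℕ} (c : Ideal T) [c.IsPrime] (D : Fin n → Derivation K T T)
    (hD : ∀ i j, Commute (endQ (D i)) (endQ (D j))) (GG : Set (Fin n → ℚ)) (hne : GG.Nonempty)
    (hG : ∀ l ∈ GG, ∀ μ : Fin n → ℚ, {t : ℚ | l + t • μ ∈ GG}.Infinite) (m : ℕ) (g : T)
    (h : ∀ l ∈ GG, ∀ a < m, (lineDer D l)^[a] g ∈ c) :
    HMr (fun i => (D i : T → T)) m g c := by
  induction m generalizing g with
  | zero => trivial
  | succ m ih =>
    obtain ⟨l0, hl0⟩ := hne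
    refine ⟨h l0 hl0 0 (Nat.succ_pos m), fun i => ih _ fun l hl a ha => ?_⟩
    have h1 := polarize c (endQ (lineDer D l)) (endQ (lineDer D (Pi.single i 1)))
      (commute_lineDer D hD _ _) (a + 1) g (by
        refine (hG l hl (Pi.single i 1)).mono fun t ht => ?_
        have h2 := h _ ht (a + 1) (by omega)
        rw [← endQ_pow_apply, endQ_lineDer_add] at h2
        exact h2) 1 (by omega)
    rw [Nat.add_sub_cancel, pow_one, endQ_lineDer_single, Module.End.mul_apply, endQ_pow_apply,
      endQ_apply] at h1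
    exact h1

/-- good directions for `f` at `p` -/
def goodSet {n : ℕ} (D : Fin n → Derivation K T T) (d : ℕ) (f : T) (p : Ideal T) :
    Set (Fin n → ℚ) := {l | (lineDer D l)^[d] f ∉ p}

theorem goodSet_infinite {n : ℕ} (D : Fin n → Derivation K T T)
    (hD : ∀ i j, Commute (endQ (D i)) (endQ (D j))) (d : ℕ) (f : T) (p : Ideal T) [p.IsPrime]
    (l : Fin n → ℚ) (hl : l ∈ goodSet D d f p) (μ : Fin n → ℚ) :
    {t : ℚ | l + t • μ ∈ goodSet D d f p}.Infinite := by
  by_contra hfin
  rw [Set.not_infinite] at hfin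
  have h1 := hfin.infinite_compl
  have h2 := polarize p (endQ (lineDer D l)) (endQ (lineDer D μ)) (commute_lineDer D hD _ _) d f
    (by
      refine h1.mono fun t ht => ?_
      have h3 : (lineDer D (l + t • μ))^[d] f ∈ p := by
        by_contra hcon
        exact ht hcon
      rw [← endQ_pow_apply, endQ_lineDer_add] at h3
      exact h3) 0 (Nat.zero_le _)
  rw [Nat.sub_zero, pow_zero, mul_one, endQ_pow_apply] at h2
  exact hl h2

theorem goodSet_nonempty {n : ℕ} (D : Fin n → Derivation K T T)
    (hD : ∀ i j, Commute (endQ (D i)) (endQ (D j)))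
    (hgen : ∀ δ : Derivation K T T, ∃ a : Fin n → T, ∀ x, δ x = ∑ i, a i * D i x)
    (d : ℕ) (f : T) (p : Ideal T) [p.IsPrime]
    (h1 : HM K d f p) (h2 : ¬ HM K (d + 1) f p) : (goodSet D d f p).Nonempty := by
  by_contra hem
  rw [Set.not_nonempty_iff_eq_empty] at hem
  apply h2
  refine HM_of_HMr D hgen f p (HMr_of_good p D hD Set.univ Set.univ_nonempty
    (fun l _ μ => ?_) (d + 1) f fun l _ a ha => ?_)
  · simp only [Set.mem_univ, Set.ofPred_true]
    exact Set.infinite_univ
  · rcases Nat.lt_or_eq_of_le (Nat.lt_succ_iff.mp ha) with h | rfl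
    · exact HM_iterate f p h1 _ a h
    · by_contra hcon
      have : l ∈ goodSet D a f p := hcon
      rw [hem] at this
      exact this

end H9.Zar
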