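import Pool.Agent.H9.Zar.Der
import Pool.Agent.H9.Zar.Lines

set_option linter.style.longLine false

/-! Coordinate derivations of `K[[y_1, ..., y_n]][[z]]`. -/

namespace H9.Zar

open MvPowerSeries

theorem pderiv_comm {K : Type*} [Field K] {n : ℕ} (i j : Fin n) (f : MvPowerSeries (Fin n) K) :
    pderiv K i (pderiv K j f) = pderiv K j (pderiv K i f) := by
  classical
  by_cases hij : i = j
  · rw [hij]
  · ext d
    rw [coeff_pderiv, coeff_pderiv, coeff_pderiv, coeff_pderiv]
    have h1 : (d + Finsupp.single i 1 : Fin n →₀ ℕ) j = d j := by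
      rw [Finsupp.add_apply, Finsupp.single_eq_of_ne (Ne.symm hij), add_zero]
    have h2 : (d + Finsupp.single j 1 : Fin n →₀ ℕ) i = d i := by
      rw [Finsupp.add_apply, Finsupp.single_eq_of_ne hij, add_zero]
    rw [h1, h2, add_right_comm]
    ring

theorem pderiv_map {k K : Type*} [Field k] [Field K] (ι : k →+* K) {n : ℕ} (i : Fin n)
    (f : MvPowerSeries (Fin n) k) : pderiv K i (map ι f) = map ι (pderiv k i f) := by
  ext d
  rw [coeff_pderiv, coeff_map, coeff_map, coeff_pderiv, map_mul]
  simp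

/-- base change -/
theorem HM_map {k K : Type*} [Field k] [Field K] (ι : k →+* K) {n : ℕ} (m : ℕ)
    (f : MvPowerSeries (Fin n) k) (q : Ideal (MvPowerSeries (Fin n) K)) :
    HM K m (map ι f) q ↔ HM k m f (q.comap (map (σ := Fin n) ι)) := by
  rw [HM_iff_HMr, HM_iff_HMr]
  induction m generalizing f with
  | zero => exact Iff.rfl
  | succ m ih =>
    constructor
    · rintro ⟨h0, h1⟩
      refine ⟨h0, fun i => (ih _).mp ?_⟩
      have := h1 i
      simp only [pderiv_map] at this
      exact this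
    · rintro ⟨h0, h1⟩
      refine ⟨h0, fun i => ?_⟩
      simp only [pderiv_map]
      exact (ih _).mpr (h1 i)

section Coord

variable {K : Type*} [Field K] {n : ℕ}

/-- the coordinate derivations of `K[[y]][[z]]`; index `0` is `∂/∂z` -/
noncomputable def DP (K : Type*) [Field K] (n : ℕ) (j : Fin (n + 1)) :
    Derivation K (PowerSeries (MvPowerSeries (Fin n) K)) (PowerSeries (MvPowerSeries (Fin n) K)) :=
  conj (finSuccEquiv K n) (pderiv K j)

theorem coeff_DP_zero (f : PowerSeries (MvPowerSeries (Fin n) K)) (l : ℕ) :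
    PowerSeries.coeff l (DP K n 0 f) = PowerSeries.coeff (l + 1) f * ((l : MvPowerSeries (Fin n) K) + 1) := by
  ext x
  rw [DP, conj_apply, coeff_coeff_finSuccEquiv, coeff_pderiv]
  have h1 : Finsupp.cons l x + Finsupp.single 0 1 = Finsupp.cons (l + 1) x := by
    ext j
    refine Fin.cases ?_ (fun j => ?_) j
    · simp
    · simp
  rw [h1, ← coeff_coeff_finSuccEquiv, AlgEquiv.apply_symm_apply, Finsupp.cons_zero]
  have h2 : ((l : MvPowerSeries (Fin n) K) + 1) = C ((l : K) + 1) := by simp
  rw [h2, coeff_mul_C]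

theorem coeff_DP_succ (f : PowerSeries (MvPowerSeries (Fin n) K)) (i : Fin n) (l : ℕ) :
    PowerSeries.coeff l (DP K n i.succ f) = pderiv K i (PowerSeries.coeff l f) := by
  classical
  ext x
  rw [DP, conj_apply, coeff_coeff_finSuccEquiv, coeff_pderiv, coeff_pderiv]
  have h1 : Finsupp.cons l x + Finsupp.single i.succ 1 = Finsupp.cons l (x + Finsupp.single i 1) := by
    ext j
    refine Fin.cases ?_ (fun j => ?_) j
    · simp
    · simp [Finsupp.single_apply]
  rw [h1, ← coeff_coeff_finSuccEquiv, AlgEquiv.apply_symm_apply, Finsupp.cons_succ]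

theorem DP_zero_X : DP K n 0 PowerSeries.X = 1 := by
  ext l : 1
  rw [coeff_DP_zero, PowerSeries.coeff_X, PowerSeries.coeff_one]
  by_cases h : l = 0
  · subst h; simp
  · rw [if_neg (by omega), if_neg h, zero_mul]

theorem DP_zero_C (r : MvPowerSeries (Fin n) K) : DP K n 0 (PowerSeries.C r) = 0 := by
  ext l : 1
  rw [coeff_DP_zero, PowerSeries.coeff_C, if_neg (Nat.succ_ne_zero l), zero_mul, map_zero]

theorem DP_succ_X (i : Fin n) : DP K n i.succ PowerSeries.X = 0 := by
  ext l : 1
  rw [coeff_DP_succ, PowerSeries.coeff_X]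
  split_ifs
  · rw [Derivation.map_one_eq_zero, map_zero]
  · rw [map_zero, map_zero]

theorem DP_succ_C (i : Fin n) (r : MvPowerSeries (Fin n) K) :
    DP K n i.succ (PowerSeries.C r) = PowerSeries.C (pderiv K i r) := by
  ext l : 1
  rw [coeff_DP_succ, PowerSeries.coeff_C, PowerSeries.coeff_C]
  split_ifs
  · rfl
  · rw [map_zero]

theorem DP_comm (i j : Fin (n + 1)) (f : PowerSeries (MvPowerSeries (Fin n) K)) :
    DP K n i (DP K n j f) = DP K n j (DP K n i f) := by
  simp only [DP, conj_apply, AlgEquiv.symm_apply_apply, pderiv_comm i j]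

theorem DP_gen (δ : Derivation K (PowerSeries (MvPowerSeries (Fin n) K))
    (PowerSeries (MvPowerSeries (Fin n) K))) :
    ∃ a : Fin (n + 1) → PowerSeries (MvPowerSeries (Fin n) K), ∀ x, δ x = ∑ i, a i * DP K n i x := by
  refine ⟨fun i => finSuccEquiv K n (conj (finSuccEquiv K n).symm δ (X i)), fun x => ?_⟩
  have h1 := der_eq_sum (conj (finSuccEquiv K n).symm δ) ((finSuccEquiv K n).symm x)
  have h2 := congrArg (finSuccEquiv K n) h1
  rw [conj_apply, AlgEquiv.symm_symm, AlgEquiv.apply_symm_apply, AlgEquiv.apply_symm_apply,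
    map_sum] at h2
  rw [h2]
  refine Finset.sum_congr rfl fun i _ => ?_
  rw [map_mul]
  rfl

end Coord

end H9.Zar
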