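import Pool.Agent.H9.Zar.Coord
import Pool.Agent.H9.Zar.Clus

set_option linter.style.longLine false

/-! The two cluster lemmas for `G ∈ K[[y]][z]`. -/

namespace H9.Zar

open Polynomial

universe u

section General

variable {R O : Type*} [CommRing R] [CommRing O] [Algebra ℚ O]

/-- Constant coefficient of the exponential. -/
theorem constantCoeff_expHom {k : Type*} [CommRing k] [Algebra k R] (δ : Derivation k R R)
    (g : R →+* O) (r : R) : PowerSeries.constantCoeff (expHom δ g r) = g r := by
  rw [← PowerSeries.coeff_zero_eq_constantCoeff_apply, coeff_expHom]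
  simp

/-- The Bezout identity for the image of `G`. -/
theorem bezout_exp {k : Type*} [CommRing k] [Algebra k R] (δ : Derivation k R R) (g : R →+* O)
    (G : R[X]) (hG : G.Monic) (D : R) (b d : ℕ) (hD : G.discr ∣ D ^ b)
    (h0 : ∀ j < d, g (δ^[j] D) = 0) (h1 : IsUnit (g (δ^[d] D))) :
    ∃ (A B : (PowerSeries O)[X]) (N : ℕ), A * G.map (expHom δ g) +
      B * derivative (G.map (expHom δ g)) = C (PowerSeries.X ^ N) := by
  obtain ⟨A, B, e⟩ := bezout_of_discr_dvd G hG _ hD
  obtain ⟨u, hu, hDu⟩ := eq_X_pow_mul_unit (expHom δ g D) d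
    (fun j hj => by rw [coeff_expHom, h0 j hj, mul_zero])
    (by
      rw [coeff_expHom]
      refine IsUnit.mul ?_ h1
      exact (IsUnit.mk0 _ (by positivity)).map (algebraMap ℚ O))
  obtain ⟨v, rfl⟩ := hu
  have e2 := congrArg (Polynomial.map (expHom δ g)) e
  rw [Polynomial.map_add, Polynomial.map_mul, Polynomial.map_mul, ← derivative_map, map_C,
    map_pow, hDu, mul_pow, ← pow_mul] at e2
  refine ⟨A.map (expHom δ g) * C (((v⁻¹ : (PowerSeries O)ˣ) : PowerSeries O) ^ b),
    B.map (expHom δ g) * C (((v⁻¹ : (PowerSeries O)ˣ) : PowerSeries O) ^ b), d * b, ?_⟩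
  have e3 : A.map (expHom δ g) * C (((v⁻¹ : (PowerSeries O)ˣ) : PowerSeries O) ^ b) *
      G.map (expHom δ g) + B.map (expHom δ g) *
      C (((v⁻¹ : (PowerSeries O)ˣ) : PowerSeries O) ^ b) * derivative (G.map (expHom δ g)) =
      (A.map (expHom δ g) * G.map (expHom δ g) +
      B.map (expHom δ g) * derivative (G.map (expHom δ g))) *
      C (((v⁻¹ : (PowerSeries O)ˣ) : PowerSeries O) ^ b) := by ring
  rw [e3, e2, ← C_mul, mul_assoc, ← mul_pow, Units.mul_inv, one_pow, mul_one]

omit [Algebra ℚ O] in
theorem bezout_expand (H A B : (PowerSeries O)[X]) (N e : ℕ) (he : e ≠ 0)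
    (hb : A * H + B * derivative H = C (PowerSeries.X ^ N)) :
    ∃ A' B' : (PowerSeries O)[X], A' * H.map (PowerSeries.expand e he).toRingHom +
      B' * derivative (H.map (PowerSeries.expand e he).toRingHom) = C (PowerSeries.X ^ (e * N)) := by
  have e2 := congrArg (Polynomial.map (PowerSeries.expand e he).toRingHom) hb
  rw [Polynomial.map_add, Polynomial.map_mul, Polynomial.map_mul, ← derivative_map, map_C,
    map_pow] at e2
  refine ⟨_, _, e2.trans ?_⟩
  congr 1
  have : (PowerSeries.expand e he).toRingHom (PowerSeries.X : PowerSeries O) =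
      PowerSeries.X ^ e := PowerSeries.expand_X e he
  rw [this, ← pow_mul]

end General

end H9.Zar
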