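import Mathlib

set_option linter.style.longLine false

/-! Domination by valuation rings and the primes of `R[[X]]/(G)` for a distinguished `G`. -/

namespace H9.Zar
open Polynomial

universe u

/-- Domination: a valuation ring of an algebraically closed field dominating a localisation. -/
theorem exists_dom {P : Type u} [CommRing P] (c q : Ideal P) [c.IsPrime] [q.IsPrime] (h : c ≤ q) :
    ∃ (Ω : Type u) (_ : Field Ω) (_ : IsAlgClosed Ω) (O : ValuationSubring Ω) (g : P →+* O),
      RingHom.ker g = c ∧ (IsLocalRing.maximalIdeal O).comap g = q := by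
  let K := FractionRing (P ⧸ c)
  let Ω := AlgebraicClosure K
  let f0 : P →+* Ω := ((algebraMap K Ω).comp (algebraMap (P ⧸ c) K)).comp (Ideal.Quotient.mk c)
  have hf0 : ∀ x, f0 x = 0 ↔ x ∈ c := by
    intro x
    have h1 : Function.Injective ((algebraMap K Ω).comp (algebraMap (P ⧸ c) K)) := by
      rw [RingHom.coe_comp]
      exact (algebraMap K Ω).injective.comp (IsFractionRing.injective (P ⧸ c) K)
    change ((algebraMap K Ω).comp (algebraMap (P ⧸ c) K)) (Ideal.Quotient.mk c x) = 0 ↔ _
    rw [map_eq_zero_iff _ h1, Ideal.Quotient.eq_zero_iff_mem]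
  have hunit : ∀ y : q.primeCompl, IsUnit (f0 y) := by
    intro y
    rw [isUnit_iff_ne_zero, Ne, hf0]
    exact fun hy => y.2 (h hy)
  let f : Localization.AtPrime q →+* Ω := IsLocalization.lift (M := q.primeCompl) hunit
  have hf : ∀ x, f (algebraMap P (Localization.AtPrime q) x) = f0 x := fun x =>
    IsLocalization.lift_eq _ x
  obtain ⟨O, hO, hloc⟩ := IsLocalRing.exists_factor_valuationRing f
  let g' : Localization.AtPrime q →+* O := f.codRestrict O.toSubring hO
  refine ⟨Ω, inferInstance, inferInstance, O, g'.comp (algebraMap P (Localization.AtPrime q)),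
    ?_, ?_⟩
  · ext x
    rw [RingHom.mem_ker]
    constructor
    · intro hx
      have : (g' (algebraMap P (Localization.AtPrime q) x) : Ω) = 0 := by
        have := congrArg (Subtype.val) hx
        exact this
      have h2 : f (algebraMap P (Localization.AtPrime q) x) = 0 := this
      rw [hf, hf0] at h2
      exact h2
    · intro hx
      apply Subtype.ext
      change f (algebraMap P (Localization.AtPrime q) x) = 0
      rw [hf, hf0]
      exact hx
  · ext x
    rw [Ideal.mem_comap, IsLocalRing.mem_maximalIdeal, mem_nonunits_iff]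
    change ¬ IsUnit (g' (algebraMap P (Localization.AtPrime q) x)) ↔ _
    have h1 : IsUnit (g' (algebraMap P (Localization.AtPrime q) x)) ↔
        IsUnit (algebraMap P (Localization.AtPrime q) x) :=
      ⟨fun hx => hloc.map_nonunit _ hx, fun hx => hx.map g'⟩
    rw [h1, IsLocalization.AtPrime.isUnit_to_map_iff (S := Localization.AtPrime q) q]
    simp [Ideal.primeCompl]

variable {R : Type u} [CommRing R] [IsLocalRing R] [IsAdicComplete (IsLocalRing.maximalIdeal R) R]

/-- going down for R -> R[[X]]/(G), free by Weierstrass (`IsDistinguishedAt.algEquivQuotient`). -/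
theorem exists_prime_le (G : R[X]) (hG : G.IsDistinguishedAt (IsLocalRing.maximalIdeal R))
    (q : Ideal (PowerSeries R)) [q.IsPrime] (hq : (G : PowerSeries R) ∈ q)
    (n : Ideal R) [n.IsPrime] (hn : n ≤ q.comap (PowerSeries.C (R := R))) :
    ∃ c : Ideal (PowerSeries R), c.IsPrime ∧ c ≤ q ∧ (G : PowerSeries R) ∈ c ∧
      c.comap (PowerSeries.C (R := R)) = n := by
  have hfree : Module.Free R (R[X] ⧸ Ideal.span {G}) := hG.monic.free_quotient
  have hfree' : Module.Free R (PowerSeries R ⧸ Ideal.span {(G : PowerSeries R)}) :=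
    Module.Free.of_equiv hG.algEquivQuotient.toLinearEquiv
  set J : Ideal (PowerSeries R) := Ideal.span {(G : PowerSeries R)} with hJ
  have hJq : J ≤ q := by
    rw [hJ, Ideal.span_le, Set.singleton_subset_iff]
    exact hq
  have hker : RingHom.ker (Ideal.Quotient.mk J) ≤ q := by rwa [Ideal.mk_ker]
  let Q : Ideal (PowerSeries R ⧸ J) := q.map (Ideal.Quotient.mk J)
  have hQ : Q.IsPrime := Ideal.map_isPrime_of_surjective Ideal.Quotient.mk_surjective hker
  have hQc : Q.comap (Ideal.Quotient.mk J) = q := by
    rw [Ideal.comap_map_of_surjective _ Ideal.Quotient.mk_surjective]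
    apply le_antisymm
    · apply sup_le le_rfl
      intro x hx
      exact hker (RingHom.mem_ker.2 (by simpa using hx))
    · exact le_sup_left
  have hle : n ≤ Q.under R := by
    intro x hx
    have : PowerSeries.C x ∈ q := hn hx
    rw [← hQc] at this
    exact this
  obtain ⟨N, hNQ, hN, hNn⟩ := Ideal.exists_ideal_le_liesOver_of_le (p := n) (q := Q.under R) Q hle
  refine ⟨N.comap (Ideal.Quotient.mk J), Ideal.comap_isPrime _ _, ?_, ?_, ?_⟩
  · rw [← hQc]
    exact Ideal.comap_mono hNQ
  · rw [Ideal.mem_comap]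
    have : Ideal.Quotient.mk J (G : PowerSeries R) = 0 := by
      rw [Ideal.Quotient.eq_zero_iff_mem, hJ]
      exact Ideal.mem_span_singleton_self _
    rw [this]
    exact N.zero_mem
  · rw [Ideal.comap_comap]
    exact hNn.over.symm

/-- going up -/
theorem exists_prime_ge (G : R[X]) (hG : G.IsDistinguishedAt (IsLocalRing.maximalIdeal R))
    (c : Ideal (PowerSeries R)) [c.IsPrime] (hc : (G : PowerSeries R) ∈ c)
    (w : Ideal R) [w.IsPrime] (hw : c.comap (PowerSeries.C (R := R)) ≤ w) :
    ∃ a : Ideal (PowerSeries R), a.IsPrime ∧ c ≤ a ∧ a.comap (PowerSeries.C (R := R)) = w := by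
  have hfin : Module.Finite R (R[X] ⧸ Ideal.span {G}) := hG.monic.finite_quotient
  have hfin' : Module.Finite R (PowerSeries R ⧸ Ideal.span {(G : PowerSeries R)}) :=
    Module.Finite.equiv hG.algEquivQuotient.toLinearEquiv
  set J : Ideal (PowerSeries R) := Ideal.span {(G : PowerSeries R)} with hJ
  have hJc : J ≤ c := by
    rw [hJ, Ideal.span_le, Set.singleton_subset_iff]
    exact hc
  have hker : RingHom.ker (Ideal.Quotient.mk J) ≤ c := by rwa [Ideal.mk_ker]
  let C' : Ideal (PowerSeries R ⧸ J) := c.map (Ideal.Quotient.mk J)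
  have hC' : C'.IsPrime := Ideal.map_isPrime_of_surjective Ideal.Quotient.mk_surjective hker
  have hCc : C'.comap (Ideal.Quotient.mk J) = c := by
    rw [Ideal.comap_map_of_surjective _ Ideal.Quotient.mk_surjective]
    apply le_antisymm
    · apply sup_le le_rfl
      intro x hx
      exact hker (RingHom.mem_ker.2 (by simpa using hx))
    · exact le_sup_left
  have hle : C'.comap (algebraMap R (PowerSeries R ⧸ J)) ≤ w := by
    intro x hx
    apply hw
    rw [Ideal.mem_comap, ← hCc]
    exact hx
  obtain ⟨Q, hQ, hQp, hQw⟩ :=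
    Ideal.exists_ideal_over_prime_of_isIntegral_of_isPrime (S := PowerSeries R ⧸ J) w C' hle
  refine ⟨Q.comap (Ideal.Quotient.mk J), Ideal.comap_isPrime _ _, ?_, ?_⟩
  · rw [← hCc]
    exact Ideal.comap_mono hQ
  · rw [Ideal.comap_comap]
    exact hQw

/-- Modulo `G` and `X - c` every power series is a constant. -/
theorem exists_const (G : R[X]) (hG : G.IsDistinguishedAt (IsLocalRing.maximalIdeal R)) (c : R)
    (f : PowerSeries R) : ∃ s : R, ∀ a : Ideal (PowerSeries R), (G : PowerSeries R) ∈ a →
      PowerSeries.X - PowerSeries.C c ∈ a → f - PowerSeries.C s ∈ a := by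
  obtain ⟨y, hy⟩ := hG.algEquivQuotient.surjective (Ideal.Quotient.mk _ f)
  obtain ⟨p, rfl⟩ := Ideal.Quotient.mk_surjective y
  have h1 : Ideal.Quotient.mk (Ideal.span {(G : PowerSeries R)}) (p : PowerSeries R) =
      Ideal.Quotient.mk _ f := by
    rw [← hy]
    rfl
  rw [Ideal.Quotient.eq, Ideal.mem_span_singleton] at h1
  obtain ⟨t, ht⟩ := h1
  obtain ⟨d, hd⟩ := Polynomial.X_sub_C_dvd_sub_C_eval (a := c) (p := p)
  refine ⟨p.eval c, fun a ha hc => ?_⟩
  have h2 : (p : PowerSeries R) - PowerSeries.C (p.eval c) ∈ a := by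
    have h3 : ((p - C (p.eval c) : R[X]) : PowerSeries R) = ((X - C c : R[X]) : PowerSeries R) * (d : PowerSeries R) := by
      rw [hd, Polynomial.coe_mul]
    rw [Polynomial.coe_sub, Polynomial.coe_sub, Polynomial.coe_C, Polynomial.coe_C,
      Polynomial.coe_X] at h3
    rw [h3]
    exact a.mul_mem_right _ hc
  have h4 : f - PowerSeries.C (p.eval c) =
      ((p : PowerSeries R) - PowerSeries.C (p.eval c)) - ((p : PowerSeries R) - f) := by ring
  rw [h4, ht]
  exact a.sub_mem h2 (a.mul_mem_right _ ha)

/-- Two primes of `R[[X]]` over the same prime of `R` that contain `G` and `X - c` are equal. -/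
theorem prime_eq_of_mem (G : R[X]) (hG : G.IsDistinguishedAt (IsLocalRing.maximalIdeal R)) (c : R)
    (a b : Ideal (PowerSeries R)) [a.IsPrime] [b.IsPrime]
    (ha : (G : PowerSeries R) ∈ a) (hb : (G : PowerSeries R) ∈ b)
    (ha' : PowerSeries.X - PowerSeries.C c ∈ a) (hb' : PowerSeries.X - PowerSeries.C c ∈ b)
    (hab : a.comap (PowerSeries.C (R := R)) = b.comap (PowerSeries.C (R := R))) : a = b := by
  ext f
  obtain ⟨s, hs⟩ := exists_const G hG c f
  have h1 := hs a ha ha'
  have h2 := hs b hb hb'
  have h3 : PowerSeries.C s ∈ a ↔ PowerSeries.C s ∈ b := by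
    rw [← Ideal.mem_comap, hab, Ideal.mem_comap]
  constructor
  · intro hf
    have h4 : PowerSeries.C s ∈ a := by
      have := a.sub_mem hf h1
      simpa using this
    have h5 := b.add_mem h2 (h3.1 h4)
    simpa using h5
  · intro hf
    have h4 : PowerSeries.C s ∈ b := by
      have := b.sub_mem hf h2
      simpa using this
    have h5 := a.add_mem h1 (h3.2 h4)
    simpa using h5

end H9.Zar
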