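import Pool.Agent.H9.Zar.Core
import Pool.Agent.H9.Zar.Puiseux
import Pool.Agent.H9.Zar.Weier

set_option linter.style.longLine false

/-! Cluster lemmas along a line. -/

namespace H9.Zar

open Polynomial

universe u

theorem exists_split {Ω : Type u} [Field Ω] [IsAlgClosed Ω] (O : ValuationSubring Ω) [Algebra ℚ O]
    (H A B : (PowerSeries O)[X]) (hH : H.Monic) (N : ℕ)
    (hb : A * H + B * derivative H = C (PowerSeries.X ^ N)) :
    ∃ (e : ℕ) (he : e ≠ 0) (A' B' : (PowerSeries O)[X]) (N' : ℕ) (ω : O),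
      (H.map (PowerSeries.expand e he).toRingHom).Splits ∧
      A' * H.map (PowerSeries.expand e he).toRingHom +
        B' * derivative (H.map (PowerSeries.expand e he).toRingHom) = C (PowerSeries.X ^ N') ∧
      IsPrimitiveRoot ω e := by
  have hchar : CharZero Ω :=
    charZero_of_injective_ringHom ((algebraMap O Ω).comp (algebraMap ℚ O)).injective
  have hinj : Function.Injective (algebraMap O Ω) := IsFractionRing.injective O Ω
  obtain ⟨e, he, hs⟩ := newton_puiseux (H.map (PowerSeries.map (algebraMap O Ω))) (hH.map _)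
  obtain ⟨A', B', hb'⟩ := bezout_expand H A B N e he hb
  have hcomm : (H.map (PowerSeries.map (algebraMap O Ω))).map
      (PowerSeries.expand e he).toRingHom =
      (H.map (PowerSeries.expand e he).toRingHom).map (PowerSeries.map (algebraMap O Ω)) := by
    rw [Polynomial.map_map, Polynomial.map_map]
    congr 1
    ext1 f
    exact (PowerSeries.map_expand e he (algebraMap O Ω) f).symm
  rw [hcomm] at hs
  have hint : ∀ x : Ω, (algebraMap O Ω).IsIntegralElem x → x ∈ Set.range (algebraMap O Ω) :=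
    fun x hx => IsIntegrallyClosed.isIntegral_iff.mp hx
  have hsp := splits_of_bezout (algebraMap O Ω) hinj hint _ A' B' (hH.map _) _ hb' hs
  have : NeZero e := ⟨he⟩
  have : NeZero (e : Ω) := ⟨Nat.cast_ne_zero.mpr he⟩
  obtain ⟨w, hw⟩ := HasEnoughRootsOfUnity.exists_primitiveRoot Ω e
  obtain ⟨ω, hω⟩ := hint w ⟨X ^ e - 1, monic_X_pow_sub_C 1 he, by
    rw [eval₂_sub, eval₂_X_pow, hw.pow_eq_one, eval₂_one, sub_self]⟩
  refine ⟨e, he, A', B', e * N, ω, hsp, hb', ?_⟩
  rw [← hω] at hw
  exact hw.of_map_of_injective hinj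

section Line

variable {K : Type u} [Field K] [CharZero K] {n : ℕ}

/-- the constant direction `(s, l)` acts on constants as the direction `l` -/
theorem lineDer_C (s : ℚ) (l : Fin n → ℚ) (r : MvPowerSeries (Fin n) K) :
    lineDer (DP K n) (Fin.cons s l : Fin (n + 1) → ℚ) (PowerSeries.C r) =
      PowerSeries.C (lineDer (fun i => MvPowerSeries.pderiv K i) l r) := by
  rw [lineDer_apply, lineDer_apply, Fin.sum_univ_succ, DP_zero_C, smul_zero, zero_add, map_sum]
  refine Finset.sum_congr rfl fun i _ => ?_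
  rw [DP_succ_C, Fin.cons_succ]
  rw [← map_rat_smul (PowerSeries.C (R := MvPowerSeries (Fin n) K))]

theorem lineDer_iter_C (s : ℚ) (l : Fin n → ℚ) (j : ℕ) (r : MvPowerSeries (Fin n) K) :
    (lineDer (DP K n) (Fin.cons s l : Fin (n + 1) → ℚ))^[j] (PowerSeries.C r) =
      PowerSeries.C ((lineDer (fun i => MvPowerSeries.pderiv K i) l)^[j] r) := by
  induction j generalizing r with
  | zero => rfl
  | succ j ih => rw [Function.iterate_succ_apply, Function.iterate_succ_apply, lineDer_C, ih]

theorem lineDer_X (s : ℚ) (l : Fin n → ℚ) :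
    lineDer (DP K n) (Fin.cons s l : Fin (n + 1) → ℚ) PowerSeries.X = algebraMap ℚ _ s := by
  rw [lineDer_apply, Fin.sum_univ_succ, DP_zero_X, Fin.cons_zero, Finset.sum_eq_zero, add_zero,
    Algebra.algebraMap_eq_smul_one]
  intro i _
  rw [DP_succ_X, smul_zero]

omit [CharZero K] in
theorem lineDer_rat {T : Type*} [CommRing T] [Algebra K T] [Algebra ℚ T]
    (δ : Derivation K T T) (s : ℚ) : δ (algebraMap ℚ T s) = 0 := by
  rw [Algebra.algebraMap_eq_smul_one]
  have : δ (s • (1 : T)) = s • δ 1 := map_rat_smul δ.toLinearMap.toAddMonoidHom s 1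
  rw [this, Derivation.map_one_eq_zero, smul_zero]

variable {O : Type*} [CommRing O] [Algebra ℚ O]

theorem expHom_X (s : ℚ) (l : Fin n → ℚ) (g : PowerSeries (MvPowerSeries (Fin n) K) →+* O) :
    expHom (lineDer (DP K n) (Fin.cons s l : Fin (n + 1) → ℚ)) g PowerSeries.X =
      PowerSeries.C (g PowerSeries.X) + PowerSeries.C (algebraMap ℚ O s) * PowerSeries.X := by
  ext j
  rw [coeff_expHom, map_add, PowerSeries.coeff_C, PowerSeries.coeff_C_mul, PowerSeries.coeff_X]
  have hg : g (algebraMap ℚ _ s) = algebraMap ℚ O s :=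
    congrArg (fun f : ℚ →+* O => f s) (Subsingleton.elim (g.comp (algebraMap ℚ _)) (algebraMap ℚ O))
  match j with
  | 0 => simp
  | 1 =>
    rw [Function.iterate_one, lineDer_X, hg]
    simp
  | (j + 2) =>
    rw [Function.iterate_add_apply, Function.iterate_succ_apply, Function.iterate_one, lineDer_X,
      lineDer_rat]
    have : (lineDer (DP K n) (Fin.cons s l : Fin (n + 1) → ℚ))^[j]
        (0 : PowerSeries (MvPowerSeries (Fin n) K)) = 0 := by
      induction j with
      | zero => rfl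
      | succ j ih => rw [Function.iterate_succ_apply, map_zero, ih]
    rw [this, map_zero, mul_zero, if_neg (by omega), if_neg (by omega), mul_zero, add_zero]

theorem expHom_comp_C (s : ℚ) (l : Fin n → ℚ)
    (g : PowerSeries (MvPowerSeries (Fin n) K) →+* O) :
    (expHom (lineDer (DP K n) (Fin.cons s l : Fin (n + 1) → ℚ)) g).comp PowerSeries.C =
      expHom (lineDer (fun i => MvPowerSeries.pderiv K i) l) (g.comp PowerSeries.C) := by
  ext1 r
  ext j
  rw [RingHom.comp_apply, coeff_expHom, coeff_expHom, lineDer_iter_C]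
  rfl

theorem expHom_coe (s : ℚ) (l : Fin n → ℚ) (g : PowerSeries (MvPowerSeries (Fin n) K) →+* O)
    (G : (MvPowerSeries (Fin n) K)[X]) :
    expHom (lineDer (DP K n) (Fin.cons s l : Fin (n + 1) → ℚ)) g (G : PowerSeries _) =
      eval (PowerSeries.C (g PowerSeries.X) + PowerSeries.C (algebraMap ℚ O s) * PowerSeries.X)
        (G.map (expHom (lineDer (fun i => MvPowerSeries.pderiv K i) l) (g.comp PowerSeries.C))) := by
  rw [← Polynomial.eval₂_C_X_eq_coe, hom_eval₂, expHom_comp_C, expHom_X, eval_map]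

end Line

section Apply

variable {K : Type u} [Field K] [CharZero K] {n : ℕ}

/-- **Cluster lemma 2 along a line.** -/
theorem line_order (G : (MvPowerSeries (Fin n) K)[X]) (hG : G.Monic)
    (D : MvPowerSeries (Fin n) K) (b : ℕ) (hD : G.discr ∣ D ^ b)
    (c q : Ideal (PowerSeries (MvPowerSeries (Fin n) K))) [c.IsPrime] [q.IsPrime] (hcq : c ≤ q)
    (hGc : (G : PowerSeries (MvPowerSeries (Fin n) K)) ∈ c) (d : ℕ) (l : Fin n → ℚ)
    (h0 : ∀ j < d, (lineDer (fun i => MvPowerSeries.pderiv K i) l)^[j] D ∈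
      c.comap (PowerSeries.C (R := MvPowerSeries (Fin n) K)))
    (h1 : (lineDer (fun i => MvPowerSeries.pderiv K i) l)^[d] D ∉
      q.comap (PowerSeries.C (R := MvPowerSeries (Fin n) K))) :
    ∃ S : Set ℚ, S.Finite ∧ ∀ s : ℚ, s ∉ S → ∀ m : ℕ,
      (∀ j < m, (lineDer (DP K n) (Fin.cons s l : Fin (n + 1) → ℚ))^[j]
        (G : PowerSeries (MvPowerSeries (Fin n) K)) ∈ q) →
      ∀ j < m, (lineDer (DP K n) (Fin.cons s l : Fin (n + 1) → ℚ))^[j]
        (G : PowerSeries (MvPowerSeries (Fin n) K)) ∈ c := by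
  obtain ⟨Ω, hΩ, hΩ2, O, g, hgc, hgq⟩ := exists_dom c q hcq
  let _ : Algebra ℚ O := (g.comp (algebraMap ℚ _)).toAlgebra
  have hc : ∀ x, g x = 0 ↔ x ∈ c := fun x => by rw [← hgc]; exact Iff.rfl
  have hq : ∀ x, g x ∈ IsLocalRing.maximalIdeal O ↔ x ∈ q := fun x => by rw [← hgq]; exact Iff.rfl
  set δ := lineDer (fun i => MvPowerSeries.pderiv K i) l with hδ
  obtain ⟨A, B, N, hb⟩ := bezout_exp δ (g.comp PowerSeries.C) G hG D b d hD
    (fun j hj => (hc _).mpr (h0 j hj))
    (by
      by_contra hcon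
      exact h1 ((hq _).mp ((IsLocalRing.mem_maximalIdeal _).mpr hcon)))
  obtain ⟨e, he, A', B', N', ω, hsp, hb', hω⟩ := exists_split O
    (G.map (expHom δ (g.comp PowerSeries.C))) A B (hG.map _) N hb
  have hroot : ((G.map (expHom δ (g.comp PowerSeries.C))).map
      PowerSeries.constantCoeff).IsRoot (g PowerSeries.X) := by
    have h2 : (PowerSeries.constantCoeff (R := O)).comp (expHom δ (g.comp PowerSeries.C)) =
        g.comp PowerSeries.C := by
      ext1 r
      exact constantCoeff_expHom δ _ r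
    rw [IsRoot.def, Polynomial.map_map, h2, eval_map, ← hom_eval₂,
      Polynomial.eval₂_C_X_eq_coe, hc]
    exact hGc
  obtain ⟨S, hS, h⟩ := cluster_two (G.map (expHom δ (g.comp PowerSeries.C))) A' B' (hG.map _) N'
    e he hb' hsp ω hω (g PowerSeries.X) hroot
  refine ⟨S, hS, fun s hs m hm => ?_⟩
  have hco : ∀ j, PowerSeries.coeff j (eval (PowerSeries.C (g PowerSeries.X) +
      PowerSeries.C (algebraMap ℚ O s) * PowerSeries.X)
      (G.map (expHom δ (g.comp PowerSeries.C)))) =
      algebraMap ℚ O ((j.factorial : ℚ)⁻¹) *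
      g ((lineDer (DP K n) (Fin.cons s l : Fin (n + 1) → ℚ))^[j]
        (G : PowerSeries (MvPowerSeries (Fin n) K))) := by
    intro j
    rw [← expHom_coe, coeff_expHom]
  have h3 := h s hs m (fun j hj => by
    rw [hco]
    exact Ideal.mul_mem_left _ _ ((hq _).mpr (hm j hj)))
  intro j hj
  have h4 := h3 j hj
  rw [hco] at h4
  rw [← hc]
  have h5 : IsUnit (algebraMap ℚ O ((j.factorial : ℚ)⁻¹)) :=
    (IsUnit.mk0 _ (by positivity)).map (algebraMap ℚ O)
  exact (h5.mul_right_eq_zero).mp h4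

/-- **Cluster lemma 1.** -/
theorem line_unique (G : (MvPowerSeries (Fin n) K)[X])
    (hG : G.IsDistinguishedAt (IsLocalRing.maximalIdeal (MvPowerSeries (Fin n) K)))
    (D : MvPowerSeries (Fin n) K) (b : ℕ) (hD : G.discr ∣ D ^ b)
    (w : Ideal (MvPowerSeries (Fin n) K)) [w.IsPrime] (d : ℕ) (l : Fin n → ℚ)
    (h0 : ∀ j < d, (lineDer (fun i => MvPowerSeries.pderiv K i) l)^[j] D ∈ w)
    (h1 : (lineDer (fun i => MvPowerSeries.pderiv K i) l)^[d] D ∉
      IsLocalRing.maximalIdeal (MvPowerSeries (Fin n) K)) :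
    ∃ c : MvPowerSeries (Fin n) K, ∀ a : Ideal (PowerSeries (MvPowerSeries (Fin n) K)),
      a.IsPrime → (G : PowerSeries (MvPowerSeries (Fin n) K)) ∈ a →
      a.comap (PowerSeries.C (R := MvPowerSeries (Fin n) K)) = w →
      PowerSeries.X - PowerSeries.C c ∈ a := by
  have hGm : G.Monic := hG.monic
  obtain ⟨Ω, hΩ, hΩ2, O, g, hgc, hgq⟩ := exists_dom w
    (IsLocalRing.maximalIdeal (MvPowerSeries (Fin n) K))
    (IsLocalRing.le_maximalIdeal (Ideal.IsPrime.ne_top inferInstance))
  let _ : Algebra ℚ O := (g.comp (algebraMap ℚ _)).toAlgebra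
  have hc : ∀ x, g x = 0 ↔ x ∈ w := fun x => by rw [← hgc]; exact Iff.rfl
  have hq : ∀ x, g x ∈ IsLocalRing.maximalIdeal O ↔ x ∈ IsLocalRing.maximalIdeal _ :=
    fun x => by rw [← hgq]; exact Iff.rfl
  set δ := lineDer (fun i => MvPowerSeries.pderiv K i) l with hδ
  obtain ⟨A, B, N, hb⟩ := bezout_exp δ g G hGm D b d hD
    (fun j hj => (hc _).mpr (h0 j hj))
    (by
      by_contra hcon
      exact h1 ((hq _).mp ((IsLocalRing.mem_maximalIdeal _).mpr hcon)))
  obtain ⟨e, he, A', B', N', ω, hsp, hb', hω⟩ := exists_split O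
    (G.map (expHom δ g)) A B (hGm.map _) N hb
  set H := (G.map (expHom δ g)).map (PowerSeries.expand e he).toRingHom with hH
  have hHm : H.Monic := (hGm.map _).map _
  have hcc : H.map PowerSeries.constantCoeff = G.map g := by
    rw [hH, Polynomial.map_map, Polynomial.map_map]
    congr 1
    ext1 r
    rw [RingHom.comp_apply, RingHom.comp_apply]
    exact (PowerSeries.constantCoeff_expand e he _).trans (constantCoeff_expHom δ g r)
  have hroots : ∀ z, H.IsRoot z → PowerSeries.constantCoeff z ∈ IsLocalRing.maximalIdeal O := by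
    intro z hz
    have h2 : eval (PowerSeries.constantCoeff z) (G.map g) = 0 := by
      rw [← hcc, eval_map, eval₂_at_apply, hz.eq_zero, map_zero]
    rw [eval_map, eval₂_eq_sum_range, Finset.sum_range_succ, hGm.coeff_natDegree, map_one,
      one_mul] at h2
    have h3 : PowerSeries.constantCoeff z ^ G.natDegree ∈ IsLocalRing.maximalIdeal O := by
      have h4 : PowerSeries.constantCoeff z ^ G.natDegree =
          -(∑ x ∈ Finset.range G.natDegree, g (G.coeff x) * PowerSeries.constantCoeff z ^ x) := by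
        linear_combination h2
      rw [h4]
      refine neg_mem (Ideal.sum_mem _ fun i hi => Ideal.mul_mem_right _ _ ((hq _).mpr ?_))
      exact hG.mem (Finset.mem_range.mp hi)
    exact Ideal.IsPrime.mem_of_pow_mem inferInstance _ h3
  obtain ⟨ζ, hζ⟩ := cluster_one H A' B' hHm N' hb' hsp hroots
  have hdeg : H.natDegree = G.natDegree := by
    rw [hH, (hGm.map _).natDegree_map, hGm.natDegree_map]
  rw [hcc, hdeg] at hζ
  set N0 := G.natDegree with hN0
  rcases Nat.eq_zero_or_pos N0 with hz | hpos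
  · refine ⟨0, fun a ha hGa _ => ?_⟩
    have h2 : G = 1 := eq_one_of_monic_natDegree_zero hGm hz
    rw [h2, Polynomial.coe_one] at hGa
    exact absurd ((Ideal.eq_top_iff_one a).mpr hGa) ha.ne_top
  · refine ⟨algebraMap ℚ _ (-(N0 : ℚ)⁻¹) * G.coeff (N0 - 1), fun a ha hGa haw => ?_⟩
    set c := algebraMap ℚ (MvPowerSeries (Fin n) K) (-(N0 : ℚ)⁻¹) * G.coeff (N0 - 1) with hcdef
    have hgcζ : g c = ζ := by
      have h2 := congrArg (fun p => coeff p (N0 - 1)) hζ
      simp only [coeff_map] at h2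
      rw [sub_eq_add_neg, ← C_neg, coeff_X_add_C_pow] at h2
      have h3 : N0 - (N0 - 1) = 1 := by omega
      have h4 : N0.choose (N0 - 1) = N0 := by
        rw [← Nat.choose_symm_of_eq_add (show N0 = 1 + (N0 - 1) by omega), Nat.choose_one_right]
      rw [h3, h4, pow_one] at h2
      rw [hcdef, map_mul, h2]
      have hg : g (algebraMap ℚ _ (-(N0 : ℚ)⁻¹)) = algebraMap ℚ O (-(N0 : ℚ)⁻¹) :=
        congrArg (fun f : ℚ →+* O => f (-(N0 : ℚ)⁻¹))
          (Subsingleton.elim (g.comp (algebraMap ℚ _)) (algebraMap ℚ O))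
      rw [hg]
      have h5 : (N0 : O) = algebraMap ℚ O (N0 : ℚ) := by simp
      have h6 : algebraMap ℚ O (-(N0 : ℚ)⁻¹) * (N0 : O) = -1 := by
        rw [h5, ← map_mul, neg_mul, inv_mul_cancel₀ (by positivity), map_neg, map_one]
      linear_combination (-ζ) * h6
    have hpoly : G - (X - C c) ^ N0 ∈ w.map (C : _ →+* (MvPowerSeries (Fin n) K)[X]) := by
      rw [Ideal.mem_map_C_iff]
      intro j
      rw [← hc, ← coeff_map, Polynomial.map_sub, hζ, Polynomial.map_pow, Polynomial.map_sub,
        map_X, map_C, hgcζ, sub_self, coeff_zero]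
    have h7 : ((G - (X - C c) ^ N0 : (MvPowerSeries (Fin n) K)[X]) :
        PowerSeries (MvPowerSeries (Fin n) K)) ∈ a := by
      have h8 := Ideal.mem_map_of_mem (coeToPowerSeries.ringHom (R := MvPowerSeries (Fin n) K)) hpoly
      rw [Ideal.map_map] at h8
      have h9 : w.map ((coeToPowerSeries.ringHom (R := MvPowerSeries (Fin n) K)).comp C) ≤ a := by
        rw [Ideal.map_le_iff_le_comap]
        intro x hx
        rw [Ideal.mem_comap, RingHom.comp_apply, coeToPowerSeries.ringHom_apply, Polynomial.coe_C]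
        rw [← haw] at hx
        exact hx
      exact h9 h8
    have h10 : (PowerSeries.X - PowerSeries.C c) ^ N0 ∈ a := by
      have h11 : ((G - (X - C c) ^ N0 : (MvPowerSeries (Fin n) K)[X]) :
          PowerSeries (MvPowerSeries (Fin n) K)) =
          (G : PowerSeries (MvPowerSeries (Fin n) K)) -
          (PowerSeries.X - PowerSeries.C c) ^ N0 := by
        rw [Polynomial.coe_sub, Polynomial.coe_pow, Polynomial.coe_sub, Polynomial.coe_X,
          Polynomial.coe_C]
      rw [h11] at h7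
      have := a.sub_mem hGa h7
      rwa [sub_sub_cancel] at this
    exact ha.mem_of_pow_mem _ h10

end Apply

end H9.Zar
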