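import Mathlib

set_option linter.style.longLine false

/-! Definitions for the equisingularity of hypersurface germs by generic projections. -/

namespace H9.Zar

open MvPowerSeries

universe v

/-- The field `k(u_ij)`, `1 ≤ i ≤ n`, `1 ≤ j ≤ n+1`. -/
def RatField (n : ℕ) (k : Type v) [Field k] : Type v :=
  FractionRing (MvPolynomial (Fin n × Fin (n + 1)) k)

/-- `k(u_ij)` is a field. -/
noncomputable instance instRat (n : ℕ) (k : Type v) [Field k] : Field (RatField n k) :=
  FractionRing.field (MvPolynomial (Fin n × Fin (n + 1)) k)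

/-- The inclusion of `k[u_ij]` in `k(u_ij)`. -/
noncomputable def toRat (n : ℕ) (k : Type v) [Field k] :
    MvPolynomial (Fin n × Fin (n + 1)) k →+* RatField n k :=
  algebraMap (MvPolynomial (Fin n × Fin (n + 1)) k)
    (FractionRing (MvPolynomial (Fin n × Fin (n + 1)) k))

/-- The algebraic closure of `k(u_ij)`. -/
def GenField (n : ℕ) (k : Type v) [Field k] : Type v := AlgebraicClosure (RatField n k)

/-- The algebraic closure of `k(u_ij)` is a field. -/
noncomputable instance instGen (n : ℕ) (k : Type v) [Field k] : Field (GenField n k) :=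
  AlgebraicClosure.instField (RatField n k)

/-- The inclusion of `k[u_ij]` in the algebraic closure of `k(u_ij)`. -/
noncomputable def toGen (n : ℕ) (k : Type v) [Field k] :
    MvPolynomial (Fin n × Fin (n + 1)) k →+* GenField n k :=
  (algebraMap (RatField n k) (AlgebraicClosure (RatField n k))).comp (toRat n k)

/-- The indeterminate `u_ij` in `GenField n k`. -/
noncomputable def gen {n : ℕ} (k : Type v) [Field k] (i : Fin n) (j : Fin (n + 1)) : GenField n k :=
  toGen n k (MvPolynomial.X (i, j))

/-- The inclusion of `k` in `GenField n k`. -/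
noncomputable def incl (n : ℕ) (k : Type v) [Field k] : k →+* GenField n k :=
  (toGen n k).comp MvPolynomial.C

/-- The ideal of the singular locus of the germ `f = 0`: generated by `f` and its partial
derivatives. -/
noncomputable def singIdeal {n : ℕ} {k : Type v} [Field k] (f : MvPowerSeries (Fin n) k) :
    Ideal (MvPowerSeries (Fin n) k) :=
  Ideal.span ({f} ∪ Set.range fun i => pderiv k i f)

/-- `f = 0` is a nonsingular germ at the origin. -/
def IsSimple {n : ℕ} {k : Type v} [Field k] (f : MvPowerSeries (Fin n) k) : Prop :=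
  constantCoeff f = 0 ∧ ∃ i, constantCoeff (pderiv k i f) ≠ 0

/-- The `k`-automorphisms of `k[[X_1, ..., X_n]]`. -/
abbrev SerAut (n : ℕ) (k : Type v) [Field k] : Type v :=
  MvPowerSeries (Fin n) k ≃ₐ[k] MvPowerSeries (Fin n) k

/-- The `K`-isomorphisms `K[[y_1, ..., y_n]][[z]] ≃ K[[X_1, ..., X_(n+1)]]`. -/
abbrev ProjIso (n : ℕ) (K : Type v) [Field K] : Type v :=
  PowerSeries (MvPowerSeries (Fin n) K) ≃ₐ[K] MvPowerSeries (Fin (n + 1)) K

section

variable {n : ℕ} {K : Type v} [Field K]

/-- `Θ` maps `y_i` to `∑ u_ij x_j` and `z` to `x_(n+1)`. -/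
def IsProj (u : Fin n → Fin (n + 1) → K) (x : Fin (n + 1) → MvPowerSeries (Fin (n + 1)) K)
    (Θ : ProjIso n K) : Prop :=
  (∀ i : Fin n, Θ (PowerSeries.C (X i)) = ∑ j, C (u i j) * x j) ∧
  Θ PowerSeries.X = x (Fin.last n)

/-- `G`, a distinguished polynomial in `z` over `K[[y]]`, is an equation of the germ `f = 0`. -/
def IsEq (Θ : ProjIso n K) (f : MvPowerSeries (Fin (n + 1)) K)
    (G : Polynomial (MvPowerSeries (Fin n) K)) : Prop :=
  G.IsDistinguishedAt (IsLocalRing.maximalIdeal (MvPowerSeries (Fin n) K)) ∧
  Associated f (Θ (G : PowerSeries (MvPowerSeries (Fin n) K)))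

/-- `D` is squarefree and has the same zeros as the discriminant of `G`. -/
def IsRedDiscr {R : Type v} [CommRing R] (G : Polynomial R) (D : R) : Prop :=
  Squarefree D ∧ (∃ a, D ∣ G.discr ^ a) ∧ (∃ b, G.discr ∣ D ^ b)

/-- The ideal of the projection to the `y`-space of the germ of the ideal `I`. -/
noncomputable def projIdeal (Θ : ProjIso n K) (I : Ideal (MvPowerSeries (Fin (n + 1)) K)) :
    Ideal (MvPowerSeries (Fin n) K) :=
  I.comap ((Θ : PowerSeries (MvPowerSeries (Fin n) K) →+* MvPowerSeries (Fin (n + 1)) K).comp
    PowerSeries.C)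

end

/-- Extension of the coefficients from `k` to `K = GenField n k`. -/
noncomputable def ext (n : ℕ) (k : Type v) [Field k] :
    MvPowerSeries (Fin (n + 1)) k →+* MvPowerSeries (Fin (n + 1)) (GenField n k) :=
  map (incl n k)

/-- The coordinates `x_j = φ (X_j)`, with coefficients in `K = GenField n k`. -/
noncomputable def coord {n : ℕ} {k : Type v} [Field k] (φ : SerAut (n + 1) k) (j : Fin (n + 1)) :
    MvPowerSeries (Fin (n + 1)) (GenField n k) := ext n k (φ (X j))

/-- One step of Zariski's inductive definition for the hypersurface germ `f = 0` in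
`(n+1)`-space, the germ `M` of the ideal `I`, and the coordinates `x_j = φ (X_j)`.
`K = GenField n k` is the algebraic closure of `k(u_ij)`; `Θ` gives the projection to the space of
`x_1^u, ..., x_n^u`, `x_i^u = ∑ u_ij x_j`; `G` is the equation of the germ over this space; `D` is
the reduced equation of the discriminant hypersurface.  The step asks that `rec` hold for `D = 0`
along the projection of `M`. -/
def StepWith {n : ℕ} (rec : ∀ (K : Type v) [Field K], MvPowerSeries (Fin n) K →
    Ideal (MvPowerSeries (Fin n) K) → Prop) (k : Type v) [Field k] (φ : SerAut (n + 1) k)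
    (f : MvPowerSeries (Fin (n + 1)) k) (I : Ideal (MvPowerSeries (Fin (n + 1)) k)) : Prop :=
  ∃ (Θ : ProjIso n (GenField n k)) (G : Polynomial (MvPowerSeries (Fin n) (GenField n k)))
    (D : MvPowerSeries (Fin n) (GenField n k)),
    IsProj (gen k) (coord φ) Θ ∧ IsEq Θ (ext n k f) G ∧ IsRedDiscr G D ∧
      rec (GenField n k) D (projIdeal Θ (I.map (ext n k)))

/-- Zariski's inductive definition of equisingularity at the origin of the hypersurface germ
`f = 0` in `n`-space over `k` along the germ `M` defined by the ideal `I`: if `M` is not contained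
in the singular locus, `f = 0` is nonsingular; otherwise some coordinates satisfy the step. -/
def Equising : (n : ℕ) → (k : Type v) → [Field k] → MvPowerSeries (Fin n) k →
    Ideal (MvPowerSeries (Fin n) k) → Prop
  | 0, _, _, _, _ => False
  | n + 1, k, _, f, I =>
    (¬ singIdeal f ≤ I.radical ∧ IsSimple f) ∨
    (singIdeal f ≤ I.radical ∧
      ∃ φ : SerAut (n + 1) k, StepWith (fun K _ D J => Equising n K D J) k φ f I)

/-- All words of fewer than `m` derivations applied to `f` lie in `q`. -/
def HM (k : Type*) {R : Type*} [CommRing k] [CommRing R] [Algebra k R] : ℕ → R → Ideal R → Prop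
  | 0, _, _ => True
  | m + 1, f, q => f ∈ q ∧ ∀ δ : Derivation k R R, HM k m (δ f) q

end H9.Zar
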