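import Pool.Agent.H9.Zar.HM

set_option linter.style.longLine false

/-! Every `k`-derivation of `k[[X_1, ..., X_n]]` is a combination of the partial derivatives. -/

namespace H9.Zar

open MvPowerSeries

variable {k : Type*} [Field k] {n : ℕ}

/-- A power series without terms of degree `< N` is in the `N`-th power of the ideal of the
variables. -/
theorem mem_pow_of_coeff (N : ℕ) (g : MvPowerSeries (Fin n) k)
    (h : ∀ d : Fin n →₀ ℕ, Finsupp.degree d < N → coeff d g = 0) :
    g ∈ (Ideal.span (Set.range (X : Fin n → MvPowerSeries (Fin n) k))) ^ N := by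
  set I := MvPolynomial.idealOfVars (Fin n) k with hI
  set e := toAdicCompletionAlgEquiv (Fin n) k with he
  have h1 : e g ∈ (I ^ N • ⊤ : Submodule (MvPolynomial (Fin n) k)
      (AdicCompletion I (MvPolynomial (Fin n) k))) := by
    rw [AdicCompletion.pow_smul_top_eq_ker_eval (MvPolynomial.idealOfVars_fg (Fin n) k),
      LinearMap.mem_ker]
    rw [AdicCompletion.eval_apply, he, toAdicCompletionAlgEquiv_apply,
      toAdicCompletion_apply_eq_mk_truncTotal]
    have h2 : truncTotal N g = 0 := by
      ext d
      by_cases hd : Finsupp.degree d < N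
      · rw [coeff_truncTotal _ hd, h d hd, MvPolynomial.coeff_zero]
      · rw [coeff_truncTotal_eq_zero _ (not_lt.mp hd), MvPolynomial.coeff_zero]
    rw [h2]
    rfl
  have h2 : g ∈ (I ^ N • ⊤ : Submodule (MvPolynomial (Fin n) k) (MvPowerSeries (Fin n) k)) := by
    have h3 : e.symm (e g) ∈ Submodule.map e.symm.toLinearMap (I ^ N • ⊤ :
        Submodule (MvPolynomial (Fin n) k) (AdicCompletion I (MvPolynomial (Fin n) k))) :=
      ⟨e g, h1, rfl⟩
    rw [AlgEquiv.symm_apply_apply, Submodule.map_smul''] at h3
    exact (Submodule.smul_mono le_rfl le_top) h3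
  refine Submodule.smul_induction_on h2 ?_ ?_
  · intro p hp x _
    rw [Algebra.smul_def]
    refine Ideal.mul_mem_right _ _ ?_
    have h4 : (Ideal.map (algebraMap (MvPolynomial (Fin n) k) (MvPowerSeries (Fin n) k)) I) =
        Ideal.span (Set.range (X : Fin n → MvPowerSeries (Fin n) k)) := by
      rw [hI, MvPolynomial.idealOfVars, Ideal.map_span, ← Set.range_comp]
      congr 2
      ext1 i
      rw [Function.comp_apply]
      exact MvPolynomial.coe_X i
    rw [← h4, ← Ideal.map_pow]
    exact Ideal.mem_map_of_mem _ hp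
  · intro x y hx hy
    exact Ideal.add_mem _ hx hy

/-- a derivation maps the `(N+1)`-st power of an ideal to the `N`-th power -/
theorem der_pow_mem {k T : Type*} [CommRing k] [CommRing T] [Algebra k T] (J : Ideal T)
    (δ : Derivation k T T) (N : ℕ) : ∀ g ∈ J ^ (N + 1), δ g ∈ J ^ N := by
  induction N with
  | zero => intro g _; rw [pow_zero, Ideal.one_eq_top]; trivial
  | succ N ih =>
    intro g hg
    rw [pow_succ'] at hg
    refine Submodule.mul_induction_on hg ?_ ?_
    · intro a ha b hb
      rw [Derivation.leibniz, smul_eq_mul, smul_eq_mul]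
      refine Ideal.add_mem _ ?_ ?_
      · rw [pow_succ']
        exact Ideal.mul_mem_mul ha (ih b hb)
      · exact Ideal.mul_mem_right _ _ hb
    · intro x y hx hy
      rw [map_add]
      exact Ideal.add_mem _ hx hy

/-- a derivation that kills the variables is zero -/
theorem der_eq_zero (δ : Derivation k (MvPowerSeries (Fin n) k) (MvPowerSeries (Fin n) k))
    (hX : ∀ i, δ (X i) = 0) (f : MvPowerSeries (Fin n) k) : δ f = 0 := by
  have hpoly : ∀ p : MvPolynomial (Fin n) k, δ (p : MvPowerSeries (Fin n) k) = 0 := by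
    intro p
    induction p using MvPolynomial.induction_on with
    | C a =>
      rw [MvPolynomial.coe_C]
      exact δ.map_algebraMap a
    | add p q hp hq => rw [MvPolynomial.coe_add, map_add, hp, hq, add_zero]
    | mul_X p i hp =>
      rw [MvPolynomial.coe_mul, Derivation.leibniz, hp, MvPolynomial.coe_X, hX, smul_zero,
        smul_zero, add_zero]
  have hmem : ∀ N, δ f ∈ (Ideal.span (Set.range (X : Fin n → MvPowerSeries (Fin n) k))) ^ N := by
    intro N
    have h1 : f = (truncTotal (N + 1) f : MvPowerSeries (Fin n) k) +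
        (f - (truncTotal (N + 1) f : MvPowerSeries (Fin n) k)) := by ring
    rw [h1, map_add, hpoly, zero_add]
    refine der_pow_mem _ δ N _ (mem_pow_of_coeff (N + 1) _ fun d hd => ?_)
    rw [map_sub, MvPolynomial.coeff_coe, coeff_truncTotal _ hd, sub_self]
  have hH : IsHausdorff (Ideal.span (Set.range (X : Fin n → MvPowerSeries (Fin n) k)))
      (MvPowerSeries (Fin n) k) := inferInstance
  refine hH.haus _ fun N => ?_
  rw [SModEq.zero, smul_eq_mul, Ideal.mul_top]
  exact hmem N

/-- derivations are combinations of the partial derivatives -/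
theorem der_eq_sum (δ : Derivation k (MvPowerSeries (Fin n) k) (MvPowerSeries (Fin n) k))
    (f : MvPowerSeries (Fin n) k) : δ f = ∑ i, δ (X i) * pderiv k i f := by
  classical
  set δ' : Derivation k (MvPowerSeries (Fin n) k) (MvPowerSeries (Fin n) k) :=
    δ - ∑ i, δ (X i) • pderiv k i with hδ'
  have happ : ∀ g, δ' g = δ g - ∑ i, δ (X i) * pderiv k i g := by
    intro g
    have h1 : (∑ i, δ (X i) • pderiv k i :
        Derivation k (MvPowerSeries (Fin n) k) (MvPowerSeries (Fin n) k)) g =
        ∑ i, δ (X i) * pderiv k i g := by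
      have := map_sum (Derivation.coeFnAddMonoidHom (R := k) (A := MvPowerSeries (Fin n) k)
        (M := MvPowerSeries (Fin n) k)) (fun i => δ (X i) • pderiv k i) Finset.univ
      have h2 := congrFun this g
      rw [Finset.sum_apply] at h2
      exact h2
    rw [hδ', Derivation.sub_apply, h1]
  have h0 := der_eq_zero δ' (fun j => by
    rw [happ, Finset.sum_eq_single j]
    · rw [pderiv_X_self, mul_one, sub_self]
    · intro i _ hij
      rw [pderiv_X_of_ne (Ne.symm hij), mul_zero]
    · intro h; exact absurd (Finset.mem_univ j) h) f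
  rw [happ] at h0
  exact sub_eq_zero.mp h0

/-- `HM` in terms of words of partial derivatives -/
theorem HM_iff_HMr (m : ℕ) (f : MvPowerSeries (Fin n) k) (q : Ideal (MvPowerSeries (Fin n) k)) :
    HM k m f q ↔ HMr (fun i => (pderiv k i : MvPowerSeries (Fin n) k → _)) m f q :=
  ⟨fun h => HMr_of_HM (fun i => pderiv k i) f q h,
    fun h => HM_of_HMr (fun i => pderiv k i) (fun δ => ⟨fun i => δ (X i), der_eq_sum δ⟩) f q h⟩

theorem HM_iff_words (m : ℕ) (f : MvPowerSeries (Fin n) k) (q : Ideal (MvPowerSeries (Fin n) k)) :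
    HM k m f q ↔ ∀ w : List (Fin n), w.length < m →
      w.foldr (fun i g => pderiv k i g) f ∈ q := by
  rw [HM_iff_HMr, HMr_iff_words]

end H9.Zar
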