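import Mathlib

set_option linter.style.longLine false

/-! The ring homomorphism `r ↦ ∑ g(δ^j r) T^j / j!`, and polarization in one rational parameter. -/

namespace H9.Zar

open Finset

section Exp

variable {k R O : Type*} [CommRing k] [CommRing R] [Algebra k R] [CommRing O] [Algebra ℚ O]

/-- iterated Leibniz rule -/
theorem iter_leibniz (δ : Derivation k R R) (n : ℕ) (a b : R) :
    δ^[n] (a * b) = ∑ ij ∈ antidiagonal n, n.choose ij.1 • (δ^[ij.1] a * δ^[ij.2] b) := by
  induction n with
  | zero => simp
  | succ n ih =>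
    rw [sum_antidiagonal_choose_succ_nsmul (M := R) (fun i j => δ^[i] a * δ^[j] b) n,
      Function.iterate_succ_apply', ih, map_sum, ← sum_add_distrib]
    refine sum_congr rfl fun ij hij => ?_
    rw [HasAntidiagonal.mem_antidiagonal] at hij
    rw [n.choose_symm_of_eq_add hij.symm, map_nsmul, Derivation.leibniz, smul_eq_mul, smul_eq_mul,
      nsmul_add, ← Function.iterate_succ_apply' δ, ← Function.iterate_succ_apply' δ,
      mul_comm (δ^[ij.2] b)]

/-- the exponential of a derivation composed with a ring homomorphism -/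
noncomputable def expHom (δ : Derivation k R R) (g : R →+* O) : R →+* PowerSeries O where
  toFun r := PowerSeries.mk fun j => algebraMap ℚ O ((j.factorial : ℚ)⁻¹) * g (δ^[j] r)
  map_one' := by
    ext j
    rw [PowerSeries.coeff_mk, PowerSeries.coeff_one]
    split_ifs with h
    · subst h; simp
    · obtain ⟨i, rfl⟩ := Nat.exists_eq_succ_of_ne_zero h
      rw [Function.iterate_succ_apply, Derivation.map_one_eq_zero]
      have : δ^[i] (0 : R) = 0 := by
        induction i with
        | zero => rfl
        | succ i ih => rw [Function.iterate_succ_apply, map_zero, ih (Nat.succ_ne_zero _)]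
      rw [this, map_zero, mul_zero]
  map_mul' a b := by
    ext n
    rw [PowerSeries.coeff_mul, PowerSeries.coeff_mk, iter_leibniz, map_sum, mul_sum]
    refine sum_congr rfl fun ij hij => ?_
    rw [PowerSeries.coeff_mk, PowerSeries.coeff_mk, map_nsmul, map_mul, nsmul_eq_mul]
    rw [HasAntidiagonal.mem_antidiagonal] at hij
    have h1 : ((n.factorial : ℚ)⁻¹) * (n.choose ij.1 : ℚ) =
        ((ij.1.factorial : ℚ)⁻¹) * ((ij.2.factorial : ℚ)⁻¹) := by
      have h2 := Nat.add_choose_mul_factorial_mul_factorial ij.2 ij.1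
      rw [add_comm ij.2 ij.1, hij, mul_right_comm] at h2
      have h3 : ((n.choose ij.1 : ℕ) : ℚ) * (ij.1.factorial : ℚ) * (ij.2.factorial : ℚ) =
          (n.factorial : ℚ) := by exact_mod_cast h2
      have h4 : (n.factorial : ℚ) ≠ 0 := by positivity
      have h5 : (ij.1.factorial : ℚ) ≠ 0 := by positivity
      have h6 : (ij.2.factorial : ℚ) ≠ 0 := by positivity
      field_simp
      linear_combination h3
    have h2 : algebraMap ℚ O ((n.factorial : ℚ)⁻¹) * ((n.choose ij.1 : ℕ) : O) =
        algebraMap ℚ O ((ij.1.factorial : ℚ)⁻¹) * algebraMap ℚ O ((ij.2.factorial : ℚ)⁻¹) := by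
      rw [← map_mul, ← h1, map_mul, map_natCast]
    linear_combination (g (δ^[ij.1] a) * g (δ^[ij.2] b)) * h2
  map_zero' := by
    ext j
    have : δ^[j] (0 : R) = 0 := by
      induction j with
      | zero => rfl
      | succ i ih => rw [Function.iterate_succ_apply, map_zero, ih]
    rw [PowerSeries.coeff_mk, this, map_zero, mul_zero, map_zero]
  map_add' a b := by
    ext j
    have : δ^[j] (a + b) = δ^[j] a + δ^[j] b := by
      induction j generalizing a b with
      | zero => rfl
      | succ i ih =>
        rw [Function.iterate_succ_apply, Function.iterate_succ_apply, Function.iterate_succ_apply,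
          map_add, ih]
    rw [PowerSeries.coeff_mk, this, map_add, mul_add, map_add, PowerSeries.coeff_mk,
      PowerSeries.coeff_mk]

theorem coeff_expHom (δ : Derivation k R R) (g : R →+* O) (j : ℕ) (r : R) :
    PowerSeries.coeff j (expHom δ g r) =
      algebraMap ℚ O ((j.factorial : ℚ)⁻¹) * g (δ^[j] r) :=
  PowerSeries.coeff_mk j fun j => algebraMap ℚ O ((j.factorial : ℚ)⁻¹) * g (δ^[j] r)

end Exp

section Pol

variable {T : Type*} [CommRing T] [Algebra ℚ T]

/-- a polynomial in a rational parameter with infinitely many values in a prime has its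
coefficients in the prime -/
theorem coeff_mem_of_infinite (c : Ideal T) [hc : c.IsPrime] (n : ℕ) (v : ℕ → T)
    (h : {t : ℚ | ∑ i ∈ range n, t ^ i • v i ∈ c}.Infinite) : ∀ i < n, v i ∈ c := by
  have : IsDomain (T ⧸ c) := Ideal.Quotient.isDomain c
  set p : Polynomial (T ⧸ c) := ∑ i ∈ range n, Polynomial.C (Ideal.Quotient.mk c (v i)) *
    Polynomial.X ^ i with hp
  have h0 : p = 0 := by
    apply Polynomial.eq_zero_of_infinite_isRoot
    have hinj : Function.Injective (fun t : ℚ => algebraMap ℚ (T ⧸ c) t) :=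
      (algebraMap ℚ (T ⧸ c)).injective
    refine (h.image hinj.injOn).mono ?_
    rintro _ ⟨t, ht, rfl⟩
    show Polynomial.IsRoot p _
    have ht' := Ideal.Quotient.eq_zero_iff_mem.mpr ht
    rw [map_sum] at ht'
    rw [Polynomial.IsRoot.def, hp, Polynomial.eval_finsetSum, ← ht']
    refine sum_congr rfl fun i _ => ?_
    rw [Polynomial.eval_mul, Polynomial.eval_C, Polynomial.eval_pow, Polynomial.eval_X,
      Algebra.smul_def, map_mul, map_pow, mul_comm]
    congr 1
  intro i hi
  have h1 : p.coeff i = Ideal.Quotient.mk c (v i) := by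
    rw [hp, Polynomial.finsetSum_coeff, sum_eq_single i]
    · rw [Polynomial.coeff_C_mul_X_pow, if_pos rfl]
    · intro j _ hj
      rw [Polynomial.coeff_C_mul_X_pow, if_neg (Ne.symm hj)]
    · intro hi'
      exact absurd (mem_range.mpr hi) hi'
  rw [h0, Polynomial.coeff_zero] at h1
  exact Ideal.Quotient.eq_zero_iff_mem.mp h1.symm

/-- polarization in one rational parameter -/
theorem polarize (c : Ideal T) [c.IsPrime] (A B : Module.End ℚ T) (hAB : Commute A B) (j : ℕ)
    (g : T) (h : {t : ℚ | ((A + t • B) ^ j) g ∈ c}.Infinite) :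
    ∀ i ≤ j, (A ^ (j - i) * B ^ i) g ∈ c := by
  have h1 : ∀ t : ℚ, ((A + t • B) ^ j) g =
      ∑ i ∈ range (j + 1), t ^ i • ((j.choose i : ℚ) • (A ^ (j - i) * B ^ i) g) := by
    intro t
    have hc : Commute (t • B) A := (hAB.symm.smul_left t)
    rw [add_comm, hc.add_pow, LinearMap.sum_apply]
    refine sum_congr rfl fun i _ => ?_
    rw [smul_pow, smul_mul_assoc, smul_mul_assoc, LinearMap.smul_apply]
    congr 1
    rw [(Nat.cast_commute (j.choose i) (B ^ i * A ^ (j - i))).symm.eq]
    rw [Module.End.mul_apply, ← (hAB.pow_pow (j - i) i).eq]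
    rw [Nat.cast_smul_eq_nsmul]
    rw [Module.End.natCast_apply]
  intro i hi
  have h2 := coeff_mem_of_infinite c (j + 1)
    (fun i => (j.choose i : ℚ) • (A ^ (j - i) * B ^ i) g) (by
      refine h.mono fun t ht => ?_
      rw [Set.mem_ofPred_eq] at ht ⊢
      rw [h1 t] at ht
      exact ht) i (Nat.lt_succ_of_le hi)
  have h3 : (j.choose i : ℚ) ≠ 0 := by
    have := Nat.choose_pos hi
    positivity
  have h4 : (A ^ (j - i) * B ^ i) g =
      algebraMap ℚ T ((j.choose i : ℚ)⁻¹) * ((j.choose i : ℚ) • (A ^ (j - i) * B ^ i) g) := by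
    rw [← Algebra.smul_def, smul_smul, inv_mul_cancel₀ h3, one_smul]
  rw [h4]
  exact c.mul_mem_left _ h2

end Pol

end H9.Zar
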