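import Mathlib

set_option linter.style.longLine false

/-! The coefficients of the Puiseux roots of a monic polynomial over `O⟦X⟧` whose discriminant
divides a power of `X` lie in `O`. -/

namespace H9.Zar

open Polynomial

/-- Bezout identity from the discriminant. -/
theorem bezout_of_discr_dvd {S : Type*} [CommRing S] (H : S[X]) (hH : H.Monic) (t : S)
    (h : H.discr ∣ t) : ∃ A B : S[X], A * H + B * derivative H = C t := by
  by_cases h0 : H.natDegree = 0
  · have : H = 1 := eq_one_of_monic_natDegree_zero hH h0
    subst this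
    exact ⟨C t, 0, by simp⟩
  · obtain ⟨c, rfl⟩ := h
    have hpos : 0 < H.degree := natDegree_pos_iff_degree_pos.mp (Nat.pos_of_ne_zero h0)
    obtain ⟨p, q, -, -, e⟩ := exists_mul_add_mul_eq_C_resultant H (derivative H)
      (m := H.natDegree) (n := H.natDegree - 1) le_rfl (natDegree_derivative_le H) (Or.inl h0)
    rw [resultant_deriv hpos, hH.leadingCoeff, mul_one] at e
    set s : S := (-1) ^ (H.natDegree * (H.natDegree - 1) / 2) with hs
    have hss : s * s = 1 := by
      rw [hs, ← pow_add, ← two_mul, pow_mul]; simp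
    refine ⟨p * C (s * c), q * C (s * c), ?_⟩
    have : p * C (s * c) * H + q * C (s * c) * derivative H =
        (H * p + derivative H * q) * C (s * c) := by ring
    rw [this, e, ← C_mul]
    congr 1
    linear_combination H.discr * c * hss

/-- The difference of two distinct roots divides the derivative at the first root. -/
theorem sub_dvd_eval_derivative {S : Type*} [CommRing S] [IsDomain S] (H : S[X]) (z w : S)
    (hz : H.IsRoot z) (hw : H.IsRoot w) (h : z ≠ w) : z - w ∣ eval z (derivative H) := by
  obtain ⟨Q, hQ⟩ := dvd_iff_isRoot.mpr hz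
  have h1 : Q.IsRoot w := by
    have := hw
    rw [hQ, IsRoot.def, eval_mul, eval_sub, eval_X, eval_C] at this
    rcases mul_eq_zero.mp this with h2 | h2
    · exact absurd (sub_eq_zero.mp h2).symm h
    · exact h2
  obtain ⟨Q2, hQ2⟩ := dvd_iff_isRoot.mpr h1
  refine ⟨eval z Q2, ?_⟩
  rw [hQ, hQ2]
  simp

theorem sub_dvd_of_bezout {S : Type*} [CommRing S] [IsDomain S] (H A B : S[X]) (t z w : S)
    (e : A * H + B * derivative H = C t)
    (hz : H.IsRoot z) (hw : H.IsRoot w) (h : z ≠ w) : z - w ∣ t := by
  have := congrArg (eval z) e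
  rw [eval_add, eval_mul, eval_mul, hz.eq_zero, eval_C, mul_zero, zero_add] at this
  rw [← this]
  exact (sub_dvd_eval_derivative H z w hz hw h).mul_left _

/-- chain rule for a derivation applied to a polynomial expression -/
theorem chain_rule {S L : Type*} [CommRing S] [CommRing L] (μ : S →+* L)
    {R₁ R₂ : Type*} [CommRing R₁] [CommRing R₂] [Algebra R₁ S] [Algebra R₂ L]
    (d : Derivation R₁ S S) (D : Derivation R₂ L L) (hμ : ∀ s, D (μ s) = μ (d s)) (V : S[X]) :
    ∃ W : S[X], ∀ z : L, D (eval₂ μ z V) = eval₂ μ z W + eval₂ μ z (derivative V) * D z := by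
  induction V using Polynomial.induction_on' with
  | add p q hp hq =>
    obtain ⟨W1, h1⟩ := hp
    obtain ⟨W2, h2⟩ := hq
    refine ⟨W1 + W2, fun z => ?_⟩
    rw [eval₂_add, map_add, h1, h2, eval₂_add, derivative_add, eval₂_add]
    ring
  | monomial n a =>
    refine ⟨monomial n (d a), fun z => ?_⟩
    rw [eval₂_monomial, Derivation.leibniz, Derivation.leibniz_pow, hμ, eval₂_monomial,
      derivative_monomial, eval₂_monomial]
    simp only [smul_eq_mul, nsmul_eq_mul, map_mul, map_natCast]
    ring

/-- All the higher derivatives of the roots are given by one polynomial expression, up to a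
power of the variable. -/
theorem iter_derivative {O Ω : Type*} [CommRing O] [CommRing Ω] (f : O →+* Ω)
    (H A B : (PowerSeries O)[X]) (N : ℕ)
    (e : A * H + B * derivative H = C (PowerSeries.X ^ N)) (j : ℕ) :
    ∃ (M : ℕ) (V : (PowerSeries O)[X]), ∀ z : PowerSeries Ω,
      eval₂ (PowerSeries.map f) z H = 0 →
      PowerSeries.X ^ M * (PowerSeries.derivative Ω)^[j] z = eval₂ (PowerSeries.map f) z V := by
  have hμ : ∀ s : PowerSeries O, PowerSeries.derivative Ω (PowerSeries.map f s) =
      PowerSeries.map f (PowerSeries.derivative O s) := by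
    intro s
    ext n
    simp [PowerSeries.coeff_derivative]
  -- the first derivative
  obtain ⟨Hd, hHd⟩ := chain_rule (PowerSeries.map f) (PowerSeries.derivative O)
    (PowerSeries.derivative Ω) hμ H
  have hX : ∀ M : ℕ, PowerSeries.X * PowerSeries.derivative Ω (PowerSeries.X ^ M) =
      (M : PowerSeries Ω) * PowerSeries.X ^ M := by
    intro M
    rw [Derivation.leibniz_pow, PowerSeries.derivative_X]
    cases M with
    | zero => simp
    | succ M => simp [pow_succ]; ring
  have h1 : ∀ z : PowerSeries Ω, eval₂ (PowerSeries.map f) z H = 0 →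
      PowerSeries.X ^ N * PowerSeries.derivative Ω z =
        eval₂ (PowerSeries.map f) z (-(B * Hd)) := by
    intro z hz
    have h2 := hHd z
    rw [hz, map_zero] at h2
    have h3 := congrArg (eval₂ (PowerSeries.map f) z) e
    rw [eval₂_add, eval₂_mul, eval₂_mul, hz, mul_zero, zero_add, eval₂_C, map_pow,
      PowerSeries.map_X] at h3
    rw [← h3, eval₂_neg, eval₂_mul]
    linear_combination -(eval₂ (PowerSeries.map f) z B) * h2
  induction j with
  | zero => exact ⟨0, X, fun z _ => by simp⟩
  | succ j ih =>
    obtain ⟨M, V, hV⟩ := ih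
    obtain ⟨W, hW⟩ := chain_rule (PowerSeries.map f) (PowerSeries.derivative O)
      (PowerSeries.derivative Ω) hμ V
    refine ⟨N + M + 1, C (PowerSeries.X ^ (N + 1)) * W +
      C PowerSeries.X * (derivative V * (-(B * Hd))) - C ((M : PowerSeries O) * PowerSeries.X ^ N) * V,
      fun z hz => ?_⟩
    have h2 := hW z
    have h3 := congrArg (PowerSeries.derivative Ω) (hV z hz)
    rw [h2, Derivation.leibniz, smul_eq_mul, smul_eq_mul,
      ← Function.iterate_succ_apply' (PowerSeries.derivative Ω) j z] at h3
    have h4 := h1 z hz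
    have h5 := hV z hz
    have h6 := hX M
    rw [eval₂_sub, eval₂_add, eval₂_mul, eval₂_mul, eval₂_mul, eval₂_mul, eval₂_C, eval₂_C,
      eval₂_C, ← h4, ← h5, map_mul, map_pow, map_pow, map_natCast, PowerSeries.map_X]
    linear_combination PowerSeries.X ^ (N + 1) * h3 -
      PowerSeries.X ^ N * (PowerSeries.derivative Ω)^[j] z * h6

/-- A power series over `Ω` is in the image of `O⟦X⟧` if `X ^ K` times it is. -/
theorem mem_range_of_X_pow_mul {O Ω : Type*} [CommRing O] [CommRing Ω] (f : O →+* Ω)
    (K : ℕ) (y : PowerSeries Ω) (x : PowerSeries O)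
    (h : PowerSeries.X ^ K * y = PowerSeries.map f x) :
    y ∈ Set.range (PowerSeries.map f) := by
  refine ⟨PowerSeries.mk fun n => PowerSeries.coeff (n + K) x, ?_⟩
  ext n
  have h1 := congrArg (PowerSeries.coeff (n + K)) h
  rw [PowerSeries.coeff_X_pow_mul, PowerSeries.coeff_map] at h1
  rw [PowerSeries.coeff_map, PowerSeries.coeff_mk, h1]

theorem scaleRoots_prod {L : Type*} [CommRing L] [IsDomain L] (s : Multiset L) (t : L) :
    ((s.map fun w => X - C w).prod).scaleRoots t = (s.map fun w => X - C (t * w)).prod := by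
  induction s using Multiset.induction_on with
  | empty => simp [one_scaleRoots]
  | cons a s ih =>
    rw [Multiset.map_cons, Multiset.prod_cons, Multiset.map_cons, Multiset.prod_cons,
      mul_scaleRoots_of_noZeroDivisors, ih, X_sub_C_scaleRoots, mul_comm t a]

/-- Integrality over `O` of `j!` times the `j`-th coefficient of a root. -/
theorem integral_of_root {O Ω : Type*} [CommRing O] [CommRing Ω] [IsDomain Ω] (f : O →+* Ω)
    (H A B : (PowerSeries O)[X]) (hH : H.Monic) (N : ℕ)
    (e : A * H + B * derivative H = C (PowerSeries.X ^ N))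
    (hs : (H.map (PowerSeries.map f)).Splits) (z : PowerSeries Ω)
    (hz : (H.map (PowerSeries.map f)).IsRoot z) (j : ℕ) :
    f.IsIntegralElem (PowerSeries.constantCoeff ((PowerSeries.derivative Ω)^[j] z)) := by
  obtain ⟨M, V, hV⟩ := iter_derivative f H A B N e j
  set μ := PowerSeries.map f with hμ
  set Hm := H.map μ with hHm
  have hHmm : Hm.Monic := hH.map _
  -- the polynomial with roots `V (z i)`
  obtain ⟨ρ, hρ⟩ : ∃ ρ : (PowerSeries O)[X],
      ρ.map μ = (Hm.roots.map fun w => X - C (eval₂ μ w V)).prod := by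
    refine ⟨resultant (H.map C) (C X - V.map C) H.natDegree (V.map (C : _ →+* (PowerSeries O)[X])).natDegree, ?_⟩
    have h1 : ∀ p : (PowerSeries O)[X], p.map μ = mapRingHom μ p := fun p => rfl
    rw [h1, ← resultant_map_map]
    have h2 : (H.map (C : _ →+* (PowerSeries O)[X])).map (mapRingHom μ) =
        (Hm.map (C : _ →+* (PowerSeries Ω)[X])) := by
      rw [hHm, Polynomial.map_map, Polynomial.map_map, mapRingHom_comp_C]
    have h3 : (C X - V.map (C : _ →+* (PowerSeries O)[X])).map (mapRingHom μ) =
        C X - (V.map μ).map (C : _ →+* (PowerSeries Ω)[X]) := by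
      rw [Polynomial.map_sub, Polynomial.map_map, Polynomial.map_map, mapRingHom_comp_C,
        Polynomial.map_C, coe_mapRingHom, map_X]
    rw [h2, h3]
    have h4 : H.natDegree = (Hm.map (C : _ →+* (PowerSeries Ω)[X])).natDegree := by
      rw [hHmm.natDegree_map, hHm, hH.natDegree_map]
    rw [h4, resultant_eq_prod_eval _ _ _ ?_ (hs.map _), (hHmm.map _).leadingCoeff, one_pow,
      one_mul, hs.roots_map_of_injective C_injective, Multiset.map_map]
    · congr 1
      refine Multiset.map_congr rfl fun w _ => ?_
      rw [Function.comp_apply, eval_sub, eval_C, eval_map, eval₂_at_apply, eval_map]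
    · refine (natDegree_sub_le _ _).trans (max_le (by rw [natDegree_C]; exact Nat.zero_le _) ?_)
      rw [Polynomial.map_map, ← mapRingHom_comp_C, ← Polynomial.map_map]
      exact natDegree_map_le
  -- the polynomial with roots the derivatives
  set q : (PowerSeries Ω)[X] :=
    (Hm.roots.map fun w => X - C ((PowerSeries.derivative Ω)^[j] w)).prod with hq
  have hqm : q.Monic := by
    rw [hq]
    exact monic_multiset_prod_of_monic _ _ fun w _ => monic_X_sub_C _
  have hsc : q.scaleRoots (PowerSeries.X ^ M) = ρ.map μ := by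
    have h1 : q = ((Hm.roots.map ((PowerSeries.derivative Ω)^[j])).map fun w => X - C w).prod := by
      rw [hq, Multiset.map_map]; rfl
    rw [h1, scaleRoots_prod, hρ, Multiset.map_map]
    congr 1
    refine Multiset.map_congr rfl fun w hw => ?_
    have hw' : eval₂ μ w H = 0 := by
      have := (mem_roots hHmm.ne_zero).mp hw
      rwa [IsRoot.def, hHm, eval_map] at this
    rw [Function.comp_apply, hV w hw']
  have hlift : q ∈ lifts μ := by
    rw [lifts_iff_coeff_lifts]
    intro n
    have h1 : (q.scaleRoots (PowerSeries.X ^ M)).coeff n = (ρ.map μ).coeff n := by rw [hsc]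
    rw [coeff_scaleRoots, coeff_map, ← pow_mul, mul_comm] at h1
    exact mem_range_of_X_pow_mul f _ _ _ h1
  obtain ⟨q0, hq0, -, hq0m⟩ := lifts_and_degree_eq_and_monic hlift hqm
  have hroot : eval₂ μ ((PowerSeries.derivative Ω)^[j] z) q0 = 0 := by
    rw [← eval_map, hq0, hq, eval_multiset_prod]
    apply Multiset.prod_eq_zero
    rw [Multiset.mem_map]
    refine ⟨X - C ((PowerSeries.derivative Ω)^[j] z), ?_, by simp⟩
    exact Multiset.mem_map_of_mem (fun w => X - C ((PowerSeries.derivative Ω)^[j] w))
      ((mem_roots hHmm.ne_zero).mpr hz)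
  refine ⟨q0.map PowerSeries.constantCoeff, hq0m.map _, ?_⟩
  rw [eval₂_map]
  have h5 : f.comp (PowerSeries.constantCoeff (R := O)) =
      (PowerSeries.constantCoeff (R := Ω)).comp μ := by
    ext x
    rw [hμ, RingHom.comp_apply, RingHom.comp_apply,
      ← PowerSeries.coeff_zero_eq_constantCoeff_apply,
      ← PowerSeries.coeff_zero_eq_constantCoeff_apply, PowerSeries.coeff_map]
  rw [h5, ← hom_eval₂, hroot, map_zero]

/-- **The J-lemma.** `O` is integrally closed in `Ω`, contains the rationals; a monic polynomial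
over `O⟦X⟧` with a Bezout identity `A H + B H' = X ^ N` that splits over `Ω⟦X⟧` splits over
`O⟦X⟧`. -/
theorem splits_of_bezout {O Ω : Type*} [CommRing O] [IsDomain O] [Algebra ℚ O] [CommRing Ω]
    [IsDomain Ω] (f : O →+* Ω) (hf : Function.Injective f)
    (hint : ∀ x : Ω, f.IsIntegralElem x → x ∈ Set.range f)
    (H A B : (PowerSeries O)[X]) (hH : H.Monic) (N : ℕ)
    (e : A * H + B * derivative H = C (PowerSeries.X ^ N))
    (hs : (H.map (PowerSeries.map f)).Splits) : H.Splits := by
  have hinj : Function.Injective (PowerSeries.map f) := by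
    intro a b hab
    ext n
    have := congrArg (PowerSeries.coeff n) hab
    rw [PowerSeries.coeff_map, PowerSeries.coeff_map] at this
    exact hf this
  refine Splits.of_splits_map_of_injective hinj hs fun z hz => ?_
  have hz' : (H.map (PowerSeries.map f)).IsRoot z := (mem_roots (hH.map _).ne_zero).mp hz
  have hc : ∀ j : ℕ, ∃ c : O, f c = PowerSeries.coeff j z := by
    intro j
    obtain ⟨c, hc⟩ := hint _ (integral_of_root f H A B hH N e hs z hz' j)
    rw [PowerSeries.constantCoeff_iterate_derivative] at hc
    refine ⟨algebraMap ℚ O ((j.factorial : ℚ)⁻¹) * c, ?_⟩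
    rw [map_mul, hc, ← mul_assoc]
    have h1 : f (algebraMap ℚ O ((j.factorial : ℚ)⁻¹)) * (j.factorial : Ω) = 1 := by
      have h2 : (j.factorial : Ω) = f (algebraMap ℚ O (j.factorial : ℚ)) := by simp
      rw [h2, ← map_mul, ← map_mul, inv_mul_cancel₀ (by positivity), map_one, map_one]
    rw [h1, one_mul]
  choose c hc using hc
  refine ⟨PowerSeries.mk c, ?_⟩
  ext j
  rw [PowerSeries.coeff_map, PowerSeries.coeff_mk, hc]

end H9.Zar
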