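import Pool.Agent.H9.Zar.Star

set_option linter.style.longLine false

/-! The lifting lemma of the induction step, as a separate statement. -/

namespace H9.Zar

open Polynomial

universe u

variable {K : Type u} [Field K] {n : ℕ} [CharZero K]

/-- The reduced discriminant lies in the contraction of a singular prime. -/
theorem discr_mem (G : (MvPowerSeries (Fin n) K)[X]) (hGm : G.Monic)
    (D : MvPowerSeries (Fin n) K) (b : ℕ) (hD : G.discr ∣ D ^ b)
    (a : Ideal (PowerSeries (MvPowerSeries (Fin n) K))) [ha : a.IsPrime]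
    (hGa : (G : PowerSeries (MvPowerSeries (Fin n) K)) ∈ a)
    (hGz : DP K n 0 (G : PowerSeries (MvPowerSeries (Fin n) K)) ∈ a) :
    D ∈ a.comap (PowerSeries.C (R := MvPowerSeries (Fin n) K)) := by
  have hwp : (a.comap (PowerSeries.C (R := MvPowerSeries (Fin n) K))).IsPrime :=
    Ideal.IsPrime.comap _
  obtain ⟨A, B, e⟩ := bezout_of_discr_dvd G hGm G.discr dvd_rfl
  have h1 := congrArg (fun P : (MvPowerSeries (Fin n) K)[X] =>
    (P : PowerSeries (MvPowerSeries (Fin n) K))) e
  simp only [Polynomial.coe_add, Polynomial.coe_mul, Polynomial.coe_C] at h1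
  have h2 : G.discr ∈ a.comap (PowerSeries.C (R := MvPowerSeries (Fin n) K)) := by
    rw [Ideal.mem_comap, ← h1]
    refine Ideal.add_mem _ (Ideal.mul_mem_left _ _ hGa) (Ideal.mul_mem_left _ _ ?_)
    rw [← DP_zero_coe]
    exact hGz
  obtain ⟨c, hc⟩ := hD
  have h3 : D ^ b ∈ a.comap (PowerSeries.C (R := MvPowerSeries (Fin n) K)) := by
    rw [hc]
    exact Ideal.mul_mem_right _ _ h2
  exact hwp.mem_of_pow_mem _ h3

/-- **The lifting lemma.**  `a` is a singular prime of `G`, over `w`, and every component of every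
multiplicity locus of `D` is contained in a prime below `w`; then every prime `nn` below `w` and
below the contraction of `q ∋ G` is the contraction of a prime `c ∋ G` below `a` and `q`. -/
theorem core_lift (G : (MvPowerSeries (Fin n) K)[X])
    (hG : G.IsDistinguishedAt (IsLocalRing.maximalIdeal (MvPowerSeries (Fin n) K)))
    (D : MvPowerSeries (Fin n) K) (hD0 : D ≠ 0) (b : ℕ) (hD : G.discr ∣ D ^ b)
    (a q : Ideal (PowerSeries (MvPowerSeries (Fin n) K))) [ha : a.IsPrime] [hq : q.IsPrime]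
    (hGa : (G : PowerSeries (MvPowerSeries (Fin n) K)) ∈ a)
    (hGq : (G : PowerSeries (MvPowerSeries (Fin n) K)) ∈ q)
    (IH : ∀ d, HM K d D (IsLocalRing.maximalIdeal (MvPowerSeries (Fin n) K)) →
      ∃ c : Ideal (MvPowerSeries (Fin n) K), c.IsPrime ∧
        c ≤ a.comap (PowerSeries.C (R := MvPowerSeries (Fin n) K)) ∧ HM K d D c)
    (nn : Ideal (MvPowerSeries (Fin n) K)) [nn.IsPrime]
    (hna : nn ≤ a.comap (PowerSeries.C (R := MvPowerSeries (Fin n) K)))
    (hnq : nn ≤ q.comap (PowerSeries.C (R := MvPowerSeries (Fin n) K))) :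
    ∃ c : Ideal (PowerSeries (MvPowerSeries (Fin n) K)), c.IsPrime ∧ c ≤ a ∧ c ≤ q ∧
      (G : PowerSeries (MvPowerSeries (Fin n) K)) ∈ c ∧
      c.comap (PowerSeries.C (R := MvPowerSeries (Fin n) K)) = nn := by
  have hAC : IsAdicComplete (IsLocalRing.maximalIdeal (MvPowerSeries (Fin n) K))
    (MvPowerSeries (Fin n) K) := adicComplete
  obtain ⟨c, hc, hcq, hGc, hcn⟩ := exists_prime_le G hG q hGq nn hnq
  refine ⟨c, hc, ?_, hcq, hGc, hcn⟩
  obtain ⟨a', ha', hca', ha'w⟩ := exists_prime_ge G hG c hGc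
    (a.comap (PowerSeries.C (R := MvPowerSeries (Fin n) K))) (by rw [hcn]; exact hna)
  obtain ⟨d', hd1', hd2'⟩ := exists_order D hD0
    (IsLocalRing.maximalIdeal (MvPowerSeries (Fin n) K)) inferInstance
  obtain ⟨n', hn', hnw', hnd'⟩ := IH d' hd1'
  obtain ⟨l, hl⟩ := goodSet_nonempty (fun i => MvPowerSeries.pderiv K i) commute_pderiv
    (fun δ => ⟨_, der_eq_sum δ⟩) d' D (IsLocalRing.maximalIdeal (MvPowerSeries (Fin n) K))
    hd1' hd2'
  obtain ⟨c0, hc0⟩ := line_unique G hG D b hD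
    (a.comap (PowerSeries.C (R := MvPowerSeries (Fin n) K))) d' l
    (fun j hj => HM_iterate D _ (HM_mono D hnw' hnd') _ j hj) hl
  have heq : a' = a := prime_eq_of_mem G hG c0 a' a (hca' hGc) hGa
    (hc0 a' ha' (hca' hGc) ha'w) (hc0 a ha hGa rfl) ha'w
  rw [← heq]
  exact hca'

end H9.Zar
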