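import Pool.Agent.H9.Zar.Step
import Pool.Agent.H9.Zar.Base
import Pool.Agent.H9.Zar.Transfer

set_option linter.style.longLine false

/-! The induction. -/

namespace H9.Zar

universe u

theorem exists_lift {A B : Type*} [CommRing A] [CommRing B] (f : A →+* B)
    (p : Ideal A) [hp : p.IsPrime] (h : (p.map f).comap f = p) :
    ∃ P : Ideal B, P.IsPrime ∧ P.comap f = p := by
  obtain ⟨P, hP⟩ := (PrimeSpectrum.mem_range_comap_iff (f := f) (p := ⟨p, hp⟩)).mpr h
  exact ⟨P.asIdeal, P.isPrime, congrArg PrimeSpectrum.asIdeal hP⟩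

theorem star (n : ℕ) : ∀ (k : Type u) [Field k] [CharZero k] (f : MvPowerSeries (Fin n) k)
    (I : Ideal (MvPowerSeries (Fin n) k)), Equising n k f I →
    ∀ a : Ideal (MvPowerSeries (Fin n) k), a.IsPrime → I ≤ a → f ∈ a →
    ∀ q : Ideal (MvPowerSeries (Fin n) k), q.IsPrime → ∀ m : ℕ, HM k m f q →
    ∃ c : Ideal (MvPowerSeries (Fin n) k), c.IsPrime ∧ c ≤ a ∧ c ≤ q ∧ HM k m f c := by
  induction n with
  | zero => intro k _ _ f I h; exact absurd h not_false
  | succ n ih =>
    intro k _ _ f I h a ha hIa hfa q hq m hm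
    rcases Nat.eq_zero_or_pos m with rfl | hm0
    · exact ⟨⊥, Ideal.isPrime_bot, bot_le, bot_le, trivial⟩
    rcases h with ⟨-, hs⟩ | ⟨hsing, φ, Θ, G, D, -, ⟨hG, hass⟩, ⟨hDsq, -, ⟨b, hD⟩⟩, hE⟩
    · -- simple point
      have h1 : m = 1 := by
        by_contra hne
        obtain ⟨i, hi⟩ := hs.2
        have h2 : HM k 2 f q := HM_of_le (by omega) f q hm
        have h3 : MvPowerSeries.pderiv k i f ∈ q := (h2.2 (MvPowerSeries.pderiv k i)).1
        exact hq.ne_top (Ideal.eq_top_of_isUnit_mem _ h3
          (MvPowerSeries.isUnit_iff_constantCoeff.mpr (isUnit_iff_ne_zero.mpr hi)))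
      subst h1
      refine ⟨Ideal.span {f}, span_isPrime_of_isSimple f hs, ?_, ?_,
        Ideal.mem_span_singleton_self f, fun _ => trivial⟩
      · rw [Ideal.span_singleton_le_iff_mem]; exact hfa
      · rw [Ideal.span_singleton_le_iff_mem]; exact hm.1
    · have hchar : CharZero (GenField n k) := charZero_of_injective_ringHom (incl n k).injective
      set μ : MvPowerSeries (Fin (n + 1)) k →+* MvPowerSeries (Fin (n + 1)) (GenField n k) :=
        ext n k with hμ
      obtain ⟨a', ha', hca⟩ := exists_lift μ a (comap_map_map (incl n k) a)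
      obtain ⟨q', hq', hcq⟩ := exists_lift μ q (comap_map_map (incl n k) q)
      -- the primes of `K[[y]][[z]]`
      set E : PowerSeries (MvPowerSeries (Fin n) (GenField n k)) →+*
        MvPowerSeries (Fin (n + 1)) (GenField n k) := RingHomClass.toRingHom Θ with hE'
      set Es : MvPowerSeries (Fin (n + 1)) (GenField n k) →+*
        PowerSeries (MvPowerSeries (Fin n) (GenField n k)) := RingHomClass.toRingHom Θ.symm with hEs
      have hsym : Function.LeftInverse Θ.symm Θ := Θ.symm_apply_apply
      have haP : (a'.comap E).IsPrime := Ideal.IsPrime.comap _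
      have hqP : (q'.comap E).IsPrime := Ideal.IsPrime.comap _
      have hsa : singIdeal f ≤ a := hsing.trans (ha.radical_le_iff.mpr hIa)
      -- transfer of multiplicities
      have htr : ∀ (m : ℕ) (P : Ideal (MvPowerSeries (Fin (n + 1)) (GenField n k))),
          HM k m f (P.comap μ) ↔ HM (GenField n k) m
            (G : PowerSeries (MvPowerSeries (Fin n) (GenField n k))) (P.comap E) := by
        intro m P
        rw [hμ, ext, ← HM_map, hE', ← HM_equiv]
        exact ⟨fun h => HM_of_associated hass _ h, fun h => HM_of_associated hass.symm _ h⟩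
      have hf2 : HM k 2 f a := by
        rw [HM_iff_HMr]
        refine ⟨hfa, fun i => ⟨hsa (Ideal.subset_span (Or.inr ⟨i, rfl⟩)), fun _ => trivial⟩⟩
      have hG2 : HM (GenField n k) 2
          (G : PowerSeries (MvPowerSeries (Fin n) (GenField n k))) (a'.comap E) :=
        (htr 2 a').mp (by rw [hca]; exact hf2)
      have hmq : HM (GenField n k) m
          (G : PowerSeries (MvPowerSeries (Fin n) (GenField n k))) (q'.comap E) :=
        (htr m q').mp (by rw [hcq]; exact hm)
      obtain ⟨c, hc, hca', hcq', hcm⟩ := core_step G hG D hDsq.ne_zero b hD (a'.comap E)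
        (q'.comap E) hG2.1 (hG2.2 (DP (GenField n k) n 0)).1 m hm0.ne' hmq
        (fun hDw p hp d hd => ih (GenField n k) D _ hE _ (Ideal.IsPrime.comap _) (by
          intro x hx
          have h1 : (I.map μ) ≤ a' := Ideal.map_le_iff_le_comap.mpr (by rw [hca]; exact hIa)
          exact h1 hx) hDw p hp d hd)
      -- back to `k[[X]]`
      have hcE : (c.comap Es).comap E = c := by
        ext x
        rw [Ideal.mem_comap, Ideal.mem_comap]
        show Θ.symm (Θ x) ∈ c ↔ x ∈ c
        rw [hsym]
      have hcT : (c.comap Es).IsPrime := Ideal.IsPrime.comap _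
      refine ⟨(c.comap Es).comap μ, Ideal.IsPrime.comap _, ?_, ?_, ?_⟩
      · rw [← hca]
        refine Ideal.comap_mono fun x hx => ?_
        have h2 := hca' hx
        rw [Ideal.mem_comap] at h2
        have h3 : E (Θ.symm x) = x := Θ.apply_symm_apply x
        rw [← h3]
        exact h2
      · rw [← hcq]
        refine Ideal.comap_mono fun x hx => ?_
        have h2 := hcq' hx
        rw [Ideal.mem_comap] at h2
        have h3 : E (Θ.symm x) = x := Θ.apply_symm_apply x
        rw [← h3]
        exact h2
      · rw [htr, hcE]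
        exact hcm

end H9.Zar
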