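import Pool.Agent.H9.Zar.Core2

set_option linter.style.longLine false

/-! The induction step, over the ring `K[[y]][[z]]`. -/

namespace H9.Zar

open Polynomial

universe u

variable {K : Type u} [Field K] {n : ℕ}

theorem maximalIdeal_eq : IsLocalRing.maximalIdeal (MvPowerSeries (Fin n) K) =
    Ideal.span (Set.range (MvPowerSeries.X : Fin n → MvPowerSeries (Fin n) K)) := by
  apply le_antisymm
  · intro f hf
    have h0 : MvPowerSeries.constantCoeff f = 0 := by
      rw [IsLocalRing.mem_maximalIdeal, mem_nonunits_iff,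
        MvPowerSeries.isUnit_iff_constantCoeff] at hf
      by_contra h
      exact hf (isUnit_iff_ne_zero.mpr h)
    have h1 := mem_pow_of_coeff 1 f fun d hd => by
      have h2 : d = 0 := by
        have h3 : Finsupp.degree d = 0 := by omega
        exact (Finsupp.degree_eq_zero_iff d).mp h3
      rw [h2, MvPowerSeries.coeff_zero_eq_constantCoeff_apply, h0]
    rwa [pow_one] at h1
  · rw [Ideal.span_le]
    rintro _ ⟨i, rfl⟩
    rw [SetLike.mem_coe, IsLocalRing.mem_maximalIdeal, mem_nonunits_iff,
      MvPowerSeries.isUnit_iff_constantCoeff, MvPowerSeries.constantCoeff_X]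
    exact not_isUnit_zero

theorem adicComplete : IsAdicComplete (IsLocalRing.maximalIdeal (MvPowerSeries (Fin n) K))
    (MvPowerSeries (Fin n) K) := by
  rw [maximalIdeal_eq]
  infer_instance

variable [CharZero K]

/-- a power series vanishing to infinite order is zero -/
theorem eq_zero_of_HM (f : MvPowerSeries (Fin n) K)
    (h : ∀ m, HM K m f (IsLocalRing.maximalIdeal (MvPowerSeries (Fin n) K))) : f = 0 := by
  have hmem : ∀ g : MvPowerSeries (Fin n) K,
      g ∈ IsLocalRing.maximalIdeal (MvPowerSeries (Fin n) K) →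
      MvPowerSeries.constantCoeff g = 0 := by
    intro g hg
    rw [IsLocalRing.mem_maximalIdeal, mem_nonunits_iff,
      MvPowerSeries.isUnit_iff_constantCoeff] at hg
    by_contra h
    exact hg (isUnit_iff_ne_zero.mpr h)
  have key : ∀ (N : ℕ) (f : MvPowerSeries (Fin n) K),
      (∀ m, HM K m f (IsLocalRing.maximalIdeal (MvPowerSeries (Fin n) K))) →
      ∀ d : Fin n →₀ ℕ, Finsupp.degree d = N → MvPowerSeries.coeff d f = 0 := by
    intro N
    induction N with
    | zero =>
      intro f hf d hd
      rw [(Finsupp.degree_eq_zero_iff d).mp hd, MvPowerSeries.coeff_zero_eq_constantCoeff_apply]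
      exact hmem f (hf 1).1
    | succ N ih =>
      intro f hf d hd
      obtain ⟨i, hi⟩ : ∃ i, d i ≠ 0 := by
        by_contra hcon
        push Not at hcon
        have : d = 0 := Finsupp.ext hcon
        rw [this] at hd
        simp at hd
      have hle : Finsupp.single i 1 ≤ d := Finsupp.single_le_iff.mpr (Nat.one_le_iff_ne_zero.mpr hi)
      have h1 : d - Finsupp.single i 1 + Finsupp.single i 1 = d := tsub_add_cancel_of_le hle
      have h2 := ih (MvPowerSeries.pderiv K i f) (fun m => (hf (m + 1)).2 _) (d - Finsupp.single i 1)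
        (by
          have h3 := congrArg Finsupp.degree h1
          rw [map_add, Finsupp.degree_single, hd] at h3
          omega)
      rw [MvPowerSeries.coeff_pderiv, h1] at h2
      rcases mul_eq_zero.mp h2 with h3 | h3
      · exact h3
      · exact absurd h3 (Nat.cast_add_one_ne_zero _)
  ext d
  rw [key _ f h d rfl, map_zero]

theorem exists_order (D : MvPowerSeries (Fin n) K) (hD : D ≠ 0)
    (p : Ideal (MvPowerSeries (Fin n) K)) (hp : p.IsPrime) :
    ∃ d, HM K d D p ∧ ¬ HM K (d + 1) D p := by
  classical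
  have h1 : ∃ m, ¬ HM K m D p := by
    by_contra hcon
    push Not at hcon
    exact hD (eq_zero_of_HM D fun m => HM_mono D (IsLocalRing.le_maximalIdeal hp.ne_top) (hcon m))
  have h2 := Nat.find_spec h1
  have h3 : Nat.find h1 ≠ 0 := by
    intro h
    rw [h] at h2
    exact h2 trivial
  obtain ⟨d, hd⟩ := Nat.exists_eq_succ_of_ne_zero h3
  refine ⟨d, ?_, ?_⟩
  · by_contra hcon
    exact Nat.find_min h1 (by omega) hcon
  · rw [hd] at h2
    exact h2

theorem commute_pderiv (i j : Fin n) :
    Commute (endQ (MvPowerSeries.pderiv K i)) (endQ (MvPowerSeries.pderiv K j)) := by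
  show _ * _ = _ * _
  ext1 x
  rw [Module.End.mul_apply, Module.End.mul_apply, endQ_apply, endQ_apply, endQ_apply, endQ_apply]
  exact pderiv_comm i j x

theorem commute_DP (i j : Fin (n + 1)) : Commute (endQ (DP K n i)) (endQ (DP K n j)) := by
  show _ * _ = _ * _
  ext1 x
  rw [Module.End.mul_apply, Module.End.mul_apply, endQ_apply, endQ_apply, endQ_apply, endQ_apply]
  exact DP_comm i j x

theorem endQ_cons (s : ℚ) (l : Fin n → ℚ) :
    endQ (lineDer (DP K n) (Fin.cons s l : Fin (n + 1) → ℚ)) =
      endQ (lineDer (fun i : Fin n => DP K n i.succ) l) + s • endQ (DP K n 0) := by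
  rw [endQ_lineDer, endQ_lineDer, Fin.sum_univ_succ, Fin.cons_zero, add_comm]
  simp only [Fin.cons_succ]

omit [CharZero K] in
/-- words in `∂/∂z` and the `∂/∂y_i` -/
theorem HMr_DP (c : Ideal (PowerSeries (MvPowerSeries (Fin n) K))) (m : ℕ)
    (g : PowerSeries (MvPowerSeries (Fin n) K))
    (h : ∀ i, HMr (fun (j : Fin n) => (DP K n j.succ : PowerSeries (MvPowerSeries (Fin n) K) → _))
      (m - i) ((DP K n 0)^[i] g) c) :
    HMr (fun j => (DP K n j : PowerSeries (MvPowerSeries (Fin n) K) → _)) m g c := by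
  induction m generalizing g with
  | zero => trivial
  | succ m ih =>
    refine ⟨(h 0).1, fun j => ?_⟩
    refine Fin.cases ?_ (fun j => ?_) j
    · refine ih _ fun i => ?_
      have := h (i + 1)
      rw [Function.iterate_succ_apply, Nat.add_sub_add_right] at this
      exact this
    · refine ih _ fun i => ?_
      by_cases hi : i ≤ m
      · have h1 := h i
        rw [Nat.succ_sub hi] at h1
        have h2 := h1.2 j
        have h3 : (DP K n 0)^[i] (DP K n j.succ g) = DP K n j.succ ((DP K n 0)^[i] g) := by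
          clear h h1 h2 hi
          induction i with
          | zero => rfl
          | succ i ih2 => rw [Function.iterate_succ_apply', ih2, Function.iterate_succ_apply',
              DP_comm]
        rw [h3]
        exact h2
      · rw [Nat.sub_eq_zero_of_le (by omega)]
        trivial

omit [CharZero K] in
theorem DP_zero_coe (G : (MvPowerSeries (Fin n) K)[X]) :
    DP K n 0 (G : PowerSeries (MvPowerSeries (Fin n) K)) =
      ((derivative G : (MvPowerSeries (Fin n) K)[X]) : PowerSeries (MvPowerSeries (Fin n) K)) := by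
  ext l : 1
  rw [coeff_DP_zero, Polynomial.coeff_coe, Polynomial.coeff_coe, coeff_derivative]

/-- **The core step.** -/
theorem core_step (G : (MvPowerSeries (Fin n) K)[X])
    (hG : G.IsDistinguishedAt (IsLocalRing.maximalIdeal (MvPowerSeries (Fin n) K)))
    (D : MvPowerSeries (Fin n) K) (hD0 : D ≠ 0) (b : ℕ) (hD : G.discr ∣ D ^ b)
    (a q : Ideal (PowerSeries (MvPowerSeries (Fin n) K))) [ha : a.IsPrime] [hq : q.IsPrime]
    (hGa : (G : PowerSeries (MvPowerSeries (Fin n) K)) ∈ a)
    (hGz : DP K n 0 (G : PowerSeries (MvPowerSeries (Fin n) K)) ∈ a)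
    (m : ℕ) (hm : m ≠ 0) (hmq : HM K m (G : PowerSeries (MvPowerSeries (Fin n) K)) q)
    (IH : D ∈ a.comap (PowerSeries.C (R := MvPowerSeries (Fin n) K)) →
      ∀ p : Ideal (MvPowerSeries (Fin n) K), p.IsPrime → ∀ d, HM K d D p →
      ∃ c : Ideal (MvPowerSeries (Fin n) K), c.IsPrime ∧
        c ≤ a.comap (PowerSeries.C (R := MvPowerSeries (Fin n) K)) ∧ c ≤ p ∧ HM K d D c) :
    ∃ c : Ideal (PowerSeries (MvPowerSeries (Fin n) K)), c.IsPrime ∧ c ≤ a ∧ c ≤ q ∧
      HM K m (G : PowerSeries (MvPowerSeries (Fin n) K)) c := by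
  have hAC : IsAdicComplete (IsLocalRing.maximalIdeal (MvPowerSeries (Fin n) K))
    (MvPowerSeries (Fin n) K) := adicComplete
  have hGm : G.Monic := hG.monic
  set w := a.comap (PowerSeries.C (R := MvPowerSeries (Fin n) K)) with hw
  set p := q.comap (PowerSeries.C (R := MvPowerSeries (Fin n) K)) with hp
  have hwp : w.IsPrime := Ideal.IsPrime.comap _
  have hpp : p.IsPrime := Ideal.IsPrime.comap _
  have hDw : D ∈ w := by
    obtain ⟨A, B, e⟩ := bezout_of_discr_dvd G hGm G.discr dvd_rfl
    have h1 := congrArg (fun P : (MvPowerSeries (Fin n) K)[X] =>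
      (P : PowerSeries (MvPowerSeries (Fin n) K))) e
    simp only [Polynomial.coe_add, Polynomial.coe_mul, Polynomial.coe_C] at h1
    have h2 : G.discr ∈ w := by
      rw [hw, Ideal.mem_comap, ← h1]
      refine Ideal.add_mem _ (Ideal.mul_mem_left _ _ hGa) (Ideal.mul_mem_left _ _ ?_)
      rw [← DP_zero_coe]
      exact hGz
    obtain ⟨c, hc⟩ := hD
    have h3 : D ^ b ∈ w := by
      rw [hc]
      exact Ideal.mul_mem_right _ _ h2
    exact hwp.mem_of_pow_mem _ h3
  have IH' := IH hDw
  obtain ⟨d, hd1, hd2⟩ := exists_order D hD0 p hpp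
  obtain ⟨nn, hn, hnw, hnp, hnd⟩ := IH' p hpp d hd1
  obtain ⟨c, hc, hcq, hGc, hcn⟩ := exists_prime_le G hG q (HM_mem hm _ _ hmq) nn hnp
  refine ⟨c, hc, ?_, hcq, ?_⟩
  · -- `c ≤ a`
    obtain ⟨a', ha', hca', ha'w⟩ := exists_prime_ge G hG c hGc w (by rw [hcn]; exact hnw)
    obtain ⟨d', hd1', hd2'⟩ := exists_order D hD0
      (IsLocalRing.maximalIdeal (MvPowerSeries (Fin n) K)) inferInstance
    obtain ⟨n', hn', hnw', -, hnd'⟩ := IH' (IsLocalRing.maximalIdeal _) inferInstance d' hd1'
    obtain ⟨l, hl⟩ := goodSet_nonempty (fun i => MvPowerSeries.pderiv K i) commute_pderiv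
      (fun δ => ⟨_, der_eq_sum δ⟩) d' D (IsLocalRing.maximalIdeal (MvPowerSeries (Fin n) K))
      hd1' hd2'
    obtain ⟨c0, hc0⟩ := line_unique G hG D b hD w d' l
      (fun j hj => HM_iterate D w (HM_mono D hnw' hnd') _ j hj) hl
    have heq : a' = a := prime_eq_of_mem G hG c0 a' a (hca' hGc) hGa
      (hc0 a' ha' (hca' hGc) ha'w) (hc0 a ha hGa rfl) ha'w
    rw [← heq]
    exact hca'
  · -- multiplicity
    refine HM_of_HMr (DP K n) DP_gen _ _ (HMr_DP c m _ fun i => ?_)
    refine HMr_of_good c (fun j : Fin n => DP K n j.succ) (fun i j => commute_DP _ _)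
      (goodSet (fun i => MvPowerSeries.pderiv K i) d D p)
      (goodSet_nonempty (fun i => MvPowerSeries.pderiv K i) commute_pderiv
        (fun δ => ⟨_, der_eq_sum δ⟩) d D p hd1 hd2)
      (fun l hl μ => goodSet_infinite _ commute_pderiv d D p l hl μ) _ _ fun l hl a' ha' => ?_
    obtain ⟨S, hS, h⟩ := line_order G hGm D b hD c q hcq hGc d l
      (fun j hj => by
        rw [hcn]
        exact HM_iterate D nn hnd _ j hj) hl
    have h2 := polarize c (endQ (lineDer (fun j : Fin n => DP K n j.succ) l)) (endQ (DP K n 0))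
      (by
        rw [endQ_lineDer]
        refine Commute.sum_left _ _ _ fun j _ => ?_
        exact (commute_DP _ _).smul_left _) (a' + i) (G : PowerSeries (MvPowerSeries (Fin n) K))
      (by
        refine hS.infinite_compl.mono fun s hs => ?_
        have h3 := h s hs m (fun j hj => HM_iterate _ _ hmq _ j hj) (a' + i) (by omega)
        rw [← endQ_pow_apply, endQ_cons] at h3
        exact h3) i (by omega)
    rw [Nat.add_sub_cancel, Module.End.mul_apply, endQ_pow_apply, endQ_pow_apply] at h2
    exact h2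

end H9.Zar
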