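import Pool.Agent.H9.Zar.Alg

set_option linter.style.longLine false

/-! Strata: an equisingular stratum which is dense in a component of the singular locus is disjoint
from every other stratum. -/

namespace H9.Zar

open MvPolynomial

universe v

variable {k : Type v} [Field k] [IsAlgClosed k] {r : ℕ}

omit [IsAlgClosed k] in
private lemma subset_zcl (A : Set (Fin (r + 1) → k)) : A ⊆ zcl A :=
  zeroLocus_vanishingIdeal_le A

omit [IsAlgClosed k] in
private lemma vanishingIdeal_zcl (A : Set (Fin (r + 1) → k)) :
    vanishingIdeal k (zcl A) = vanishingIdeal k A :=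
  le_antisymm (vanishingIdeal_anti_mono (subset_zcl A)) (le_vanishingIdeal_zeroLocus _)

omit [IsAlgClosed k] in
private lemma singPts_eq (F : MvPolynomial (Fin (r + 1)) k) :
    singPts F = zeroLocus k (multIdeal F 2) := by
  rw [multIdeal, zeroLocus_span]
  ext Q
  simp only [singPts, Set.mem_ofPred_eq, forall_exists_index, and_imp]
  constructor
  · rintro ⟨h0, h1⟩ G w hw rfl
    match w, hw with
    | [], _ => simpa using h0
    | [i], _ => simpa using h1 i
    | _ :: _ :: _, hw => simp at hw
  · intro h
    refine ⟨?_, fun i => ?_⟩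
    · simpa using h F [] (by simp) rfl
    · simpa using h (pderiv i F) [i] (by simp) rfl

private lemma comp_minimalPrimes {J : Ideal (MvPolynomial (Fin (r + 1)) k)}
    {W : Set (Fin (r + 1) → k)} (hW : IsComp (zeroLocus k J) W) :
    vanishingIdeal k W ∈ J.minimalPrimes := by
  obtain ⟨⟨hW1, hW2⟩, hW3, hW4⟩ := hW
  refine ⟨⟨hW2, le_zeroLocus_iff_le_vanishingIdeal.1 hW3⟩, ?_⟩
  rintro P ⟨hP, hJP⟩ hPW
  have := hP
  have h1 : vanishingIdeal k (zeroLocus k P) = P := MvPolynomial.IsPrime.vanishingIdeal_zeroLocus P
  have h2 : zeroLocus k P = W := by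
    refine hW4 (zeroLocus k P) ⟨?_, ?_⟩ (zeroLocus_anti_mono hJP) ?_
    · unfold zcl
      rw [h1]
    · rw [h1]
      exact hP
    · rw [← hW1]
      exact zeroLocus_anti_mono hPW
  rw [← h2, h1]

/-- Chain argument. A stratum whose closure is a component of the singular locus is disjoint from
every other stratum. -/
theorem strata_disjoint (F : MvPolynomial (Fin (r + 1)) k)
    (hA : ∀ (Q : Fin (r + 1) → k) (p : Ideal (MvPolynomial (Fin (r + 1)) k)), p.IsPrime → F ∈ p →
      Q ∈ zeroLocus k p → EquisingAt F Q p → ∀ q ∈ (multIdeal F 2).minimalPrimes,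
      Q ∈ zeroLocus k q → q ≤ p)
    (N : ℕ) (E : Fin (N + 1) → Set (Fin (r + 1) → k)) (hE : IsStrat F N E)
    (a b : Fin (N + 1)) (hab : a ≠ b) (ha : IsComp (singPts F) (zcl (E a))) (ha0 : a ≠ 0) :
    Disjoint (E a) (E b) := by
  rw [Set.disjoint_left]
  intro Q hQa hQb
  -- equality of closures gives equality of strata
  have key : ∀ i, i ≠ 0 → zcl (E i) = zcl (E a) → E i = E a := by
    intro i hi h
    have h1 : vanishingIdeal k (E i) = vanishingIdeal k (E a) := by
      rw [← vanishingIdeal_zcl (E i), h, vanishingIdeal_zcl]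
    rw [hE.char i hi, hE.char a ha0, h, h1]
  -- the case of the simple points
  by_cases hb : b = 0
  · subst hb
    rw [hE.zero] at hQb
    obtain ⟨-, i, hi⟩ := hQb
    exact hi ((ha.2.1 (subset_zcl _ hQa)).2 i)
  -- the chain
  have chain : ∀ i, i ≠ 0 → Q ∈ zcl (E i) → zcl (E i) = zcl (E a) := by
    intro i
    have wf : WellFounded fun i j : Fin (N + 1) => zcl (E j) ⊂ zcl (E i) := by
      have : IsTrans (Fin (N + 1)) fun i j : Fin (N + 1) => zcl (E j) ⊂ zcl (E i) :=
        ⟨fun x y z hxy hyz => hyz.trans hxy⟩
      have : Std.Irrefl fun i j : Fin (N + 1) => zcl (E j) ⊂ zcl (E i) :=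
        ⟨fun x hx => (ssubset_irrefl _ hx)⟩
      exact Finite.wellFounded_of_trans_of_irrefl _
    induction i using wf.induction with
    | _ i ih =>
      intro hi hQi
      rcases hE.comp i hi with h | ⟨j, hj, h⟩
      · -- a component of the singular locus
        have hq : vanishingIdeal k (zcl (E i)) ∈ (multIdeal F 2).minimalPrimes :=
          comp_minimalPrimes (by rw [← singPts_eq]; exact h)
        have hp : (vanishingIdeal k (E a)).IsPrime := by
          rw [← vanishingIdeal_zcl]
          exact ha.1.2
        have hF : F ∈ vanishingIdeal k (E a) := by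
          intro x hx
          have := (ha.2.1 (subset_zcl _ hx)).1
          simpa using this
        have hQa' : Q ∈ zeroLocus k (vanishingIdeal k (E a)) := subset_zcl _ hQa
        have hQe : EquisingAt F Q (vanishingIdeal k (E a)) := by
          have := hQa
          rw [hE.char a ha0] at this
          exact this.2
        have hQi' : Q ∈ zeroLocus k (vanishingIdeal k (zcl (E i))) := by
          rw [vanishingIdeal_zcl]
          exact hQi
        have h1 := hA Q _ hp hF hQa' hQe _ hq hQi'
        rw [vanishingIdeal_zcl] at h1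
        exact ha.2.2 _ h.1 h.2.1 (zeroLocus_anti_mono h1)
      · -- a component of the bad locus of the stratum j
        have hne : (E j).Nonempty := by
          rw [Set.nonempty_iff_ne_empty]
          intro h0
          have h1 := (hE.irr j hj).2
          rw [vanishingIdeal_zcl, h0, vanishingIdeal_empty] at h1
          exact h1.ne_top rfl
        have hss : zcl (E i) ⊂ zcl (E j) := by
          refine ⟨fun x hx => (h.2.1 hx).1, fun h2 => ?_⟩
          obtain ⟨x, hx⟩ := hne
          exact (h.2.1 (h2 (subset_zcl _ hx))).2 hx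
        have h3 := ih j hss hj (hss.1 hQi)
        have h4 := key j hj h3
        have h5 := (h.2.1 hQi).2
        rw [h4] at h5
        exact absurd hQa h5
  have h1 := chain b hb (subset_zcl _ hQb)
  exact hab (hE.inj (key b hb h1)).symm

end H9.Zar
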